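import Pool.Agent.Work.MP_39d092_co.GBField

set_option autoImplicit false

/-!
# MP_39d092_co, ball around the Gold functions: sums
-/

namespace Pool.MP_39d092_co.GB
open Finset

section
variable {K : Type} [Field K] [Fintype K] [DecidableEq K] {ψ : K → ℝ} {G : K → K} {ω : K} {r : ℝ}

lemma GD.psi0 (g : GD K ψ G ω r) : ψ 0 = 1 := by
  have h := g.add 0 0
  rw [add_zero] at h
  have := g.sq 0
  linarith

lemma GD.cases (g : GD K ψ G ω r) (x : K) : ψ x = 1 ∨ ψ x = -1 :=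
  mul_self_eq_one_iff.mp (g.sq x)

lemma GD.le1 (g : GD K ψ G ω r) (x : K) : ψ x ≤ 1 := by
  rcases g.cases x with h | h <;> norm_num [h]

lemma GD.ge1 (g : GD K ψ G ω r) (x : K) : -1 ≤ ψ x := by
  rcases g.cases x with h | h <;> norm_num [h]

lemma GD.sum' (g : GD K ψ G ω r) (a : K) : ∑ x, ψ (a * x) = if a = 0 then r ^ 2 else 0 := by
  split_ifs with h
  · subst h
    simp only [zero_mul, g.psi0]
    rw [← g.card]
    simp
  · exact g.sum a h

lemma GD.eq_of (g : GD K ψ G ω r) {x y : K} (h : x + y = 0) : x = y := by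
  have := g.char2 y
  linear_combination h - this

lemma GD.add_iff (g : GD K ψ G ω r) {x y : K} : x + y = 0 ↔ x = y :=
  ⟨g.eq_of, fun h => h ▸ g.char2 x⟩

/-- Walsh transform of `G` -/
noncomputable def Wt (ψ : K → ℝ) (G : K → K) (v u : K) : ℝ := ∑ x, ψ (v * G x + u * x)

/-- transform of a set -/
noncomputable def ht (ψ : K → ℝ) (P : Finset (K × K)) (v u : K) : ℝ := ∑ p ∈ P, ψ (v * p.2 + u * p.1)

/-- the weight -/
noncomputable def wt (ψ : K → ℝ) (ω : K) (d u : K) : ℝ :=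
  (1 + ψ (u * d) + ψ (u * (d * ω)) + ψ (u * (d * ω ^ 2))) / 4

lemma GD.inv1 (g : GD K ψ G ω r) (v x y : K) :
    ∑ u, Wt ψ G v u * ψ (v * y + u * x) = r ^ 2 * ψ (v * (G x + y)) := by
  have h1 : ∀ u, Wt ψ G v u * ψ (v * y + u * x)
      = ∑ z, ψ (v * (G z + y)) * ψ ((z + x) * u) := by
    intro u
    rw [Wt, Finset.sum_mul]
    refine Finset.sum_congr rfl fun z _ => ?_
    rw [← g.add, ← g.add]
    congr 1
    ring
  simp_rw [h1]
  rw [Finset.sum_comm]
  have h2 : ∀ z, ∑ u, ψ (v * (G z + y)) * ψ ((z + x) * u)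
      = if z = x then r ^ 2 * ψ (v * (G x + y)) else 0 := by
    intro z
    rw [← Finset.mul_sum, g.sum']
    by_cases h : z = x
    · subst h
      rw [if_pos (g.char2 z), if_pos rfl]; ring
    · rw [if_neg (fun h' => h (g.eq_of h')), if_neg h]; ring
  simp_rw [h2]
  rw [Finset.sum_ite_eq' Finset.univ x]
  simp

lemma GD.W_sq (g : GD K ψ G ω r) {v : K} (hv : v ≠ 0) (u : K) :
    Wt ψ G v u ^ 2 = ∑ e, ψ (u * e) * (if e = 0 ∨ v * G e = 1 then r ^ 2 else 0) := by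
  rw [pow_two]
  unfold Wt
  rw [Finset.sum_mul_sum]
  have h : ∀ x : K, ∑ y : K, ψ (v * G x + u * x) * ψ (v * G y + u * y)
      = ∑ e : K, ψ (u * e) * ψ (v * (G x + G (x + e))) := by
    intro x
    symm
    refine Fintype.sum_equiv (Equiv.addLeft x) _ _ (fun e => ?_)
    simp only [Equiv.coe_addLeft]
    rw [← g.add, ← g.add]
    congr 1
    have := g.char2 (u * x)
    linear_combination (-1 : K) * this
  rw [Finset.sum_congr rfl (fun x _ => h x), Finset.sum_comm]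
  refine Finset.sum_congr rfl fun e _ => ?_
  rw [← Finset.mul_sum, g.auto v e hv]

lemma GD.one_ne (g : GD K ψ G ω r) : ω ≠ 0 ∧ ω ≠ 1 ∧ ω ^ 2 ≠ 1 ∧ ω ^ 2 ≠ ω := by
  have h := g.w
  have h1 := g.char2 (1 : K)
  refine ⟨?_, ?_, ?_, ?_⟩
  · rintro rfl
    simp at h
  · rintro rfl
    apply one_ne_zero (α := K)
    linear_combination h - h1
  · intro h2
    rw [h2] at h
    have h0 : ω = 0 := by linear_combination h - h1
    rw [h0] at h2
    simp at h2
  · intro h2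
    rw [h2] at h
    have := g.char2 ω
    apply one_ne_zero (α := K)
    linear_combination h - this

lemma GD.dist (g : GD K ψ G ω r) {d : K} (hd : d ≠ 0) :
    d * ω ≠ 0 ∧ d * ω ^ 2 ≠ 0 ∧ d * ω ≠ d ∧ d * ω ^ 2 ≠ d ∧ d * ω ^ 2 ≠ d * ω := by
  obtain ⟨h0, h1, h2, h3⟩ := g.one_ne
  refine ⟨mul_ne_zero hd h0, mul_ne_zero hd (pow_ne_zero _ h0), ?_, ?_, ?_⟩
  · intro h
    exact h1 (mul_left_cancel₀ hd (by rw [h, mul_one]))
  · intro h
    exact h2 (mul_left_cancel₀ hd (by rw [h, mul_one]))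
  · intro h
    exact h3 (mul_left_cancel₀ hd h)

lemma GD.V_iff (g : GD K ψ G ω r) {d : K} (hd : d ≠ 0) (e : K) :
    (G d)⁻¹ * G e = 1 ↔ e = d ∨ e = d * ω ∨ e = d * ω ^ 2 := by
  rw [← g.Gw d e hd]
  have h : G d ≠ 0 := fun h => hd ((g.zero d).mp h)
  rw [inv_mul_eq_one₀ h]
  exact eq_comm

lemma GD.four (g : GD K ψ G ω r) {d : K} (hd : d ≠ 0) (f : K → ℝ) (c : ℝ) :
    ∑ e, f e * (if e = 0 ∨ (G d)⁻¹ * G e = 1 then c else 0)
      = c * (f 0 + f d + f (d * ω) + f (d * ω ^ 2)) := by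
  obtain ⟨h0, h1, h2, h3, h4⟩ := g.dist hd
  have e1 : ∀ e : K, f e * (if e = 0 ∨ (G d)⁻¹ * G e = 1 then c else 0)
      = if e ∈ ({0, d, d * ω, d * ω ^ 2} : Finset K) then c * f e else 0 := by
    intro e
    have : (e = 0 ∨ (G d)⁻¹ * G e = 1) ↔ e ∈ ({0, d, d * ω, d * ω ^ 2} : Finset K) := by
      rw [g.V_iff hd]
      simp
    by_cases h : e ∈ ({0, d, d * ω, d * ω ^ 2} : Finset K)
    · rw [if_pos h, if_pos (this.mpr h)]; ring
    · rw [if_neg h, if_neg (fun h' => h (this.mp h'))]; ring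
  rw [Finset.sum_congr rfl (fun e _ => e1 e), Finset.sum_ite_mem, Finset.univ_inter,
    Finset.sum_insert, Finset.sum_insert, Finset.sum_insert, Finset.sum_singleton]
  · ring
  · simp only [Finset.mem_singleton]
    exact fun h => h4 h.symm
  · simp only [Finset.mem_insert, Finset.mem_singleton]
    rintro (h | h)
    · exact h2 h.symm
    · exact h3 h.symm
  · simp only [Finset.mem_insert, Finset.mem_singleton]
    rintro (h | h | h)
    · exact hd h.symm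
    · exact h0 h.symm
    · exact h1 h.symm

lemma GD.W_sq_V (g : GD K ψ G ω r) {d : K} (hd : d ≠ 0) (u : K) :
    Wt ψ G (G d)⁻¹ u ^ 2 = 4 * r ^ 2 * wt ψ ω d u := by
  have h : (G d)⁻¹ ≠ 0 := inv_ne_zero fun h => hd ((g.zero d).mp h)
  rw [g.W_sq h, g.four hd (fun e => ψ (u * e)) (r ^ 2), mul_zero, g.psi0, wt]
  ring

lemma GD.wt_cases (g : GD K ψ G ω r) (d u : K) : wt ψ ω d u = 0 ∨ wt ψ ω d u = 1 := by
  have h : ψ (u * (d * ω ^ 2)) = ψ (u * d) * ψ (u * (d * ω)) := by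
    rw [← g.add]
    congr 1
    have := g.char2 (u * d + u * (d * ω))
    linear_combination (u * d) * g.w - this
  unfold wt
  rw [h]
  rcases g.cases (u * d) with h1 | h1 <;> rcases g.cases (u * (d * ω)) with h2 | h2 <;>
    rw [h1, h2] <;> norm_num

lemma GD.wt_nonneg (g : GD K ψ G ω r) (d u : K) : 0 ≤ wt ψ ω d u := by
  rcases g.wt_cases d u with h | h <;> norm_num [h]

lemma GD.wt_le (g : GD K ψ G ω r) (d u : K) : wt ψ ω d u ≤ 1 := by
  rcases g.wt_cases d u with h | h <;> norm_num [h]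

lemma GD.wt_sum (g : GD K ψ G ω r) {d : K} (hd : d ≠ 0) (e : K) :
    ∑ u, wt ψ ω d u * ψ (u * e) = if e = 0 ∨ (G d)⁻¹ * G e = 1 then r ^ 2 / 4 else 0 := by
  have h1 : ∀ u, wt ψ ω d u * ψ (u * e) = (ψ (e * u) + ψ ((d + e) * u) + ψ ((d * ω + e) * u)
      + ψ ((d * ω ^ 2 + e) * u)) / 4 := by
    intro u
    unfold wt
    have e1 : ψ ((d + e) * u) = ψ (u * d) * ψ (u * e) := by rw [← g.add]; congr 1; ring
    have e2 : ψ ((d * ω + e) * u) = ψ (u * (d * ω)) * ψ (u * e) := by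
      rw [← g.add]; congr 1; ring
    have e3 : ψ ((d * ω ^ 2 + e) * u) = ψ (u * (d * ω ^ 2)) * ψ (u * e) := by
      rw [← g.add]; congr 1; ring
    rw [e1, e2, e3, mul_comm e u]
    ring
  simp_rw [h1]
  rw [← Finset.sum_div, Finset.sum_add_distrib, Finset.sum_add_distrib, Finset.sum_add_distrib,
    g.sum', g.sum', g.sum', g.sum']
  simp_rw [g.add_iff]
  obtain ⟨h0, h1, h2, h3, h4⟩ := g.dist hd
  simp_rw [g.V_iff hd]
  by_cases c0 : e = 0
  · subst c0
    simp [hd, g.one_ne.1]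
  by_cases c1 : e = d
  · subst c1
    simp [h2, h3, hd]
  by_cases c2 : e = d * ω
  · subst c2
    simp [h2.symm, h4, h0]
  by_cases c3 : e = d * ω ^ 2
  · subst c3
    simp [h3.symm, h4.symm, hd, g.one_ne.1]
  rw [if_neg c0, if_neg (Ne.symm c1), if_neg (Ne.symm c2), if_neg (Ne.symm c3), if_neg]
  · ring
  · rintro (h | h | h | h)
    · exact c0 h
    · exact c1 h
    · exact c2 h
    · exact c3 h

lemma GD.W_le (g : GD K ψ G ω r) {v : K} (hv : v ≠ 0) (u : K) : Wt ψ G v u ^ 2 ≤ 4 * r ^ 2 := by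
  by_cases h : ∃ d, v * G d = 1
  · obtain ⟨d, hd⟩ := h
    have hGd : G d ≠ 0 := by
      intro h0
      rw [h0, mul_zero] at hd
      exact zero_ne_one hd
    have hd0 : d ≠ 0 := fun h0 => hGd ((g.zero d).mpr h0)
    have hv' : v = (G d)⁻¹ := eq_inv_of_mul_eq_one_left hd
    rw [hv', g.W_sq_V hd0]
    have := g.wt_le d u
    have h2 : 0 ≤ 4 * r ^ 2 := by positivity
    calc 4 * r ^ 2 * wt ψ ω d u ≤ 4 * r ^ 2 * 1 := mul_le_mul_of_nonneg_left this h2
      _ = 4 * r ^ 2 := mul_one _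
  · push Not at h
    rw [g.W_sq hv]
    have : ∀ e : K, ψ (u * e) * (if e = 0 ∨ v * G e = 1 then r ^ 2 else 0)
        = if e = 0 then r ^ 2 else 0 := by
      intro e
      by_cases h0 : e = 0
      · subst h0
        rw [if_pos (Or.inl rfl), if_pos rfl, mul_zero, g.psi0, one_mul]
      · rw [if_neg, if_neg h0, mul_zero]
        rintro (h' | h')
        · exact h0 h'
        · exact h e h'
    simp_rw [this]
    rw [Finset.sum_ite_eq' Finset.univ (0 : K)]
    simp only [Finset.mem_univ, if_true]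
    nlinarith [sq_nonneg r]

lemma GD.W_abs (g : GD K ψ G ω r) {v : K} (hv : v ≠ 0) (u : K) : |Wt ψ G v u| ≤ 2 * r := by
  have h := g.W_le hv u
  have hr := g.rpos
  apply abs_le_of_sq_le_sq _ (by linarith)
  nlinarith

lemma GD.sumV (g : GD K ψ G ω r) {a : K} (ha : a ≠ 0) :
    |∑ d ∈ (univ : Finset K).erase 0, ψ ((G d)⁻¹ * a)| ≤ 2 * r + 1 := by
  have h1 : ∑ d : K, ψ ((G d)⁻¹ * a) = Wt ψ G a 0 := by
    unfold Wt
    refine Fintype.sum_equiv (Equiv.inv K) _ _ (fun d => ?_)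
    simp only [Equiv.inv_apply]
    rw [g.inv]
    congr 1
    ring
  have h2 : ∑ d : K, ψ ((G d)⁻¹ * a)
      = ψ ((G 0)⁻¹ * a) + ∑ d ∈ (univ : Finset K).erase 0, ψ ((G d)⁻¹ * a) :=
    (Finset.add_sum_erase _ _ (Finset.mem_univ 0)).symm
  have h3 : G 0 = 0 := (g.zero 0).mpr rfl
  rw [h3, inv_zero, zero_mul, g.psi0, h1] at h2
  have h4 := g.W_abs ha 0
  have h5 : ∑ d ∈ (univ : Finset K).erase 0, ψ ((G d)⁻¹ * a) = Wt ψ G a 0 - 1 := by linarith
  rw [h5]
  have := abs_sub (Wt ψ G a 0) 1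
  rw [abs_one] at this
  linarith

end

end Pool.MP_39d092_co.GB
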