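import Mathlib

set_option autoImplicit false

/-!
# MP_39d092_co, ball around the Gold functions: field facts
-/

namespace Pool.MP_39d092_co.GB
open Finset

/-- the algebraic facts used in the analytic part -/
structure GD (K : Type) [Field K] [Fintype K] [DecidableEq K] (ψ : K → ℝ) (G : K → K) (ω : K)
    (r : ℝ) : Prop where
  add : ∀ x y, ψ (x + y) = ψ x * ψ y
  sq : ∀ x, ψ x * ψ x = 1
  sum : ∀ a, a ≠ 0 → ∑ x, ψ (a * x) = 0
  card : (Fintype.card K : ℝ) = r ^ 2
  rpos : 0 < r
  char2 : ∀ x : K, x + x = 0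
  auto : ∀ v e, v ≠ 0 →
    ∑ z, ψ (v * (G z + G (z + e))) = if e = 0 ∨ v * G e = 1 then r ^ 2 else 0
  w : 1 + ω + ω ^ 2 = 0
  Gw : ∀ d e, d ≠ 0 → (G e = G d ↔ e = d ∨ e = d * ω ∨ e = d * ω ^ 2)
  apn : ∀ x y e, e ≠ 0 → G x + G (x + e) = G y + G (y + e) → y = x ∨ y = x + e
  inv : ∀ d, G d⁻¹ = (G d)⁻¹
  zero : ∀ d, G d = 0 ↔ d = 0

section
variable {K : Type} [Field K] [Fintype K]

/-- the sign of an element of `ZMod 2` -/
def sgr (a : ZMod 2) : ℝ := if a = 0 then 1 else -1

lemma sgr_add (a b : ZMod 2) : sgr (a + b) = sgr a * sgr b := by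
  have h : ∀ a : ZMod 2, a = 0 ∨ a = 1 := by decide
  rcases h a with rfl | rfl <;> rcases h b with rfl | rfl <;>
    simp [sgr, show (1 : ZMod 2) + 1 = 0 by decide]

lemma zm_one {a : ZMod 2} (h : a ≠ 0) : a = 1 := by revert a; decide
lemma zm_add (a : ZMod 2) : a + a = 0 := by revert a; decide

lemma sgr_zero : sgr 0 = 1 := by simp [sgr]
lemma sgr_one : sgr 1 = -1 := by simp [sgr]

lemma sgr_sq (a : ZMod 2) : sgr a * sgr a = 1 := by
  unfold sgr; split_ifs <;> norm_num

lemma charP_of_card {n : ℕ} (hn : 0 < n) (hK : Fintype.card K = 2 ^ n) : CharP K 2 := by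
  apply CharTwo.of_one_ne_zero_of_two_eq_zero one_ne_zero
  have h : ((Fintype.card K : ℕ) : K) = 0 := FiniteField.cast_card_eq_zero K
  rw [hK] at h
  push_cast at h
  exact pow_eq_zero_iff (by omega) |>.mp h

/-- a nonzero additive functional invariant under the Frobenius -/
lemma exists_trace {n : ℕ} (hn : 0 < n) (hK : Fintype.card K = 2 ^ n) :
    ∃ T : K →+ ZMod 2, (∀ x, T (x ^ 2) = T x) ∧ ∃ x, T x ≠ 0 := by
  have := charP_of_card hn hK
  let _ : Algebra (ZMod 2) K := ZMod.algebra K 2
  have : Fact (Nat.Prime 2) := ⟨Nat.prime_two⟩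
  have hne : Algebra.trace (ZMod 2) K ≠ 0 := Algebra.trace_ne_zero (ZMod 2) K
  refine ⟨(Algebra.trace (ZMod 2) K).toAddMonoidHom, ?_, ?_⟩
  · intro x
    have h := Algebra.trace_eq_of_algEquiv
      (FiniteField.frobeniusAlgEquivOfAlgebraic (ZMod 2) K) x
    have e : (FiniteField.frobeniusAlgEquivOfAlgebraic (ZMod 2) K) x = x ^ 2 := by
      have := congrFun (FiniteField.coe_frobeniusAlgEquivOfAlgebraic (ZMod 2) K) x
      rw [this]
      simp [ZMod.card]
    rw [e] at h
    exact h
  · by_contra hcon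
    push Not at hcon
    exact hne (LinearMap.ext hcon)

/-- fixed points -/
lemma fixed_gcd {n i : ℕ} (hn : 0 < n) (hK : Fintype.card K = 2 ^ n) {x : K}
    (hx : x ^ (2 ^ i) = x) : x ^ 2 ^ (i.gcd n) = x := by
  have := charP_of_card hn hK
  have : Fact (Nat.Prime 2) := ⟨Nat.prime_two⟩
  have h1 : Function.IsPeriodicPt (frobenius K 2) i x := by
    unfold Function.IsPeriodicPt Function.IsFixedPt
    rw [← iterateFrobenius_def] at hx
    rw [← coe_iterateFrobenius]
    exact hx
  have h2 : Function.IsPeriodicPt (frobenius K 2) n x := by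
    unfold Function.IsPeriodicPt Function.IsFixedPt
    rw [← coe_iterateFrobenius, iterateFrobenius_def, ← hK, FiniteField.pow_card]
  have h3 := h1.gcd h2
  unfold Function.IsPeriodicPt Function.IsFixedPt at h3
  rw [← coe_iterateFrobenius, iterateFrobenius_def] at h3
  exact h3

lemma fixed_one {n i : ℕ} (hn : 0 < n) (hK : Fintype.card K = 2 ^ n) (hi : Nat.Coprime i n) {x : K}
    (hx : x ^ (2 ^ i) = x) : x = 0 ∨ x = 1 := by
  have h4 := fixed_gcd hn hK hx
  rw [show i.gcd n = 1 from hi, pow_one] at h4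
  have : x * (x - 1) = 0 := by ring_nf; rw [h4]; ring
  rcases mul_eq_zero.mp this with h | h
  · exact Or.inl h
  · exact Or.inr (sub_eq_zero.mp h)

lemma exists_omega {n : ℕ} (hn : 0 < n) (he : Even n) (hK : Fintype.card K = 2 ^ n) :
    ∃ ω : K, 1 + ω + ω ^ 2 = 0 := by
  classical
  have h3 : 3 ∣ Fintype.card Kˣ := by
    rw [Fintype.card_units, hK]
    obtain ⟨m, rfl⟩ := he
    have : 2 ^ (m + m) = 4 ^ m := by rw [← two_mul, pow_mul]; norm_num
    rw [this]
    have h : 4 ^ m ≡ 1 ^ m [MOD 3] := Nat.ModEq.pow m (by decide)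
    rw [one_pow] at h
    exact (Nat.modEq_iff_dvd' (Nat.one_le_pow _ _ (by norm_num))).mp h.symm
  have : Fact (Nat.Prime 3) := ⟨Nat.prime_three⟩
  obtain ⟨t, ht⟩ := exists_prime_orderOf_dvd_card 3 h3
  have h1 : (t : K) ^ 3 = 1 := by
    have := pow_orderOf_eq_one t
    rw [ht] at this
    have h := congrArg Units.val this
    simpa using h
  have h2 : (t : K) ≠ 1 := by
    intro h
    have : t = 1 := Units.ext h
    rw [this, orderOf_one] at ht
    norm_num at ht
  refine ⟨t, ?_⟩
  have h4 : ((t : K) - 1) * (1 + t + (t : K) ^ 2) = 0 := by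
    linear_combination h1
  rcases mul_eq_zero.mp h4 with h | h
  · exact absurd (sub_eq_zero.mp h) h2
  · exact h

lemma T_pow {T : K →+ ZMod 2} (hT : ∀ x, T (x ^ 2) = T x) (i : ℕ) (x : K) :
    T (x ^ 2 ^ i) = T x := by
  induction i with
  | zero => simp
  | succ i ih => rw [pow_succ, pow_mul, hT, ih]

/-- the data for the Gold function -/
theorem gold_GD [DecidableEq K] {n i : ℕ} (hn : 0 < n) (he : Even n)
    (hK : Fintype.card K = 2 ^ n) (hi : Nat.Coprime i n) (T : K →+ ZMod 2)
    (hT : ∀ x, T (x ^ 2) = T x) (hT1 : ∃ x, T x ≠ 0) (ω : K) (hω : 1 + ω + ω ^ 2 = 0) :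
    GD K (fun x => sgr (T x)) (fun x => x ^ (2 ^ i + 1)) ω (2 ^ (n / 2)) := by
  have hchar := charP_of_card hn hK
  have hprime : Fact (Nat.Prime 2) := ⟨Nat.prime_two⟩
  have hadd : ∀ x y : K, (x + y) ^ 2 ^ i = x ^ 2 ^ i + y ^ 2 ^ i := by
    intro x y
    exact add_pow_char_pow (p := 2) (n := i) x y
  have hc2 : ∀ x : K, x + x = 0 := fun x => CharTwo.add_self_eq_zero x
  have hqr : (Fintype.card K : ℝ) = (2 ^ (n / 2) : ℝ) ^ 2 := by
    rw [hK, ← pow_mul, Nat.div_mul_cancel he.two_dvd]
    push_cast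
    rfl
  have hψadd : ∀ x y : K, sgr (T (x + y)) = sgr (T x) * sgr (T y) := by
    intro x y
    rw [map_add, sgr_add]
  have hsum : ∀ a : K, a ≠ 0 → ∑ x, sgr (T (a * x)) = 0 := by
    intro a ha
    obtain ⟨x₀, hx₀⟩ := hT1
    have h1 : ∑ x, sgr (T (a * (x + a⁻¹ * x₀))) = ∑ x, sgr (T (a * x)) :=
      Fintype.sum_equiv (Equiv.addRight (a⁻¹ * x₀)) _ _ (fun _ => rfl)
    have h2 : ∀ x, sgr (T (a * (x + a⁻¹ * x₀))) = - sgr (T (a * x)) := by
      intro x
      rw [mul_add, ← mul_assoc a a⁻¹, mul_inv_cancel₀ ha, one_mul, hψadd]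
      have : T x₀ = 1 := zm_one hx₀
      rw [this, sgr_one]; ring
    simp_rw [h2] at h1
    rw [Finset.sum_neg_distrib] at h1
    linarith
  have hT1' : T 1 = 0 := by
    have h1 : (1 : K) = ω + ω ^ 2 := by
      have := hc2 (ω + ω ^ 2)
      linear_combination hω - this
    rw [h1, map_add, hT]
    exact zm_add _
  have hω3 : ω ^ 3 = 1 := by linear_combination (ω - 1) * hω
  have hodd : Odd i := by
    rw [← Nat.not_even_iff_odd]
    intro hie
    have : 2 ∣ i.gcd n := Nat.dvd_gcd hie.two_dvd he.two_dvd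
    rw [show i.gcd n = 1 from hi] at this
    omega
  have h3i : 3 ∣ 2 ^ i + 1 := by
    have := Odd.nat_add_dvd_pow_add_pow 2 1 hodd
    simpa using this
  have hfix : ∀ x : K, x ^ 2 ^ i = x → x = 0 ∨ x = 1 := fun x => fixed_one hn hK hi
  refine ⟨hψadd, fun x => sgr_sq _, hsum, hqr, by positivity, hc2, ?_, hω, ?_, ?_, ?_, ?_⟩
  · -- auto
    intro v e hv
    by_cases he0 : e = 0
    · subst he0
      rw [if_pos (Or.inl rfl), ← hqr]
      simp [hc2, sgr_zero]
    · obtain ⟨c, hc⟩ : ∃ c : K, c ^ 2 ^ i = v * e := by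
        have hinj : Function.Injective (fun x : K => x ^ 2 ^ i) := by
          intro x y hxy
          exact (iterateFrobenius K 2 i).injective
            (by rw [iterateFrobenius_def, iterateFrobenius_def]; exact hxy)
        exact Finite.surjective_of_injective hinj (v * e)
      have hterm : ∀ z : K, sgr (T (v * (z ^ (2 ^ i + 1) + (z + e) ^ (2 ^ i + 1))))
          = sgr (T (v * e ^ (2 ^ i + 1))) * sgr (T ((c + v * e ^ 2 ^ i) * z)) := by
        intro z
        have e1 : v * (z ^ (2 ^ i + 1) + (z + e) ^ (2 ^ i + 1))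
            = (v * e ^ (2 ^ i + 1) + v * e ^ 2 ^ i * z) + v * e * z ^ 2 ^ i := by
          rw [pow_succ (z + e), hadd, pow_succ z]
          have := hc2 (v * (z ^ 2 ^ i * z))
          rw [pow_succ]
          linear_combination this
        have e2 : v * e * z ^ 2 ^ i = (c * z) ^ 2 ^ i := by
          rw [mul_pow, hc]
        rw [e1, hψadd, hψadd, e2, T_pow hT, add_mul, hψadd]
        ring
      simp_rw [hterm]
      rw [← Finset.mul_sum]
      by_cases hv1 : v * e ^ (2 ^ i + 1) = 1
      · rw [if_pos (Or.inr hv1), hv1, hT1', sgr_zero, one_mul]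
        have hz : c + v * e ^ 2 ^ i = 0 := by
          have h1 : (c + v * e ^ 2 ^ i) ^ 2 ^ i = 0 := by
            rw [hadd, hc]
            have hne : e ^ 2 ^ i ≠ 0 := pow_ne_zero _ he0
            apply mul_right_cancel₀ hne
            rw [zero_mul, add_mul]
            have e3 : v * e * e ^ 2 ^ i = 1 := by
              rw [← hv1, pow_succ]; ring
            have e4 : (v * e ^ 2 ^ i) ^ 2 ^ i * e ^ 2 ^ i = 1 := by
              rw [← mul_pow, mul_assoc, ← pow_succ, hv1, one_pow]
            rw [e3, e4]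
            exact hc2 1
          exact pow_eq_zero_iff (by positivity) |>.mp h1
        rw [hz]
        simp only [zero_mul, map_zero, sgr_zero]
        rw [← hqr]
        simp
      · rw [if_neg]
        · rw [hsum, mul_zero]
          intro hz
          apply hv1
          have hfx : (v * e ^ (2 ^ i + 1)) ^ 2 ^ i = v * e ^ (2 ^ i + 1) := by
            have h1 : c = v * e ^ 2 ^ i := by
              have := hc2 (v * e ^ 2 ^ i)
              linear_combination hz - this
            have h3 : v * e ^ (2 ^ i + 1) = c * e := by rw [h1, pow_succ]; ring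
            rw [h3, mul_pow, hc, h1]; ring
          rcases hfix _ hfx with h | h
          · exact absurd h (mul_ne_zero hv (pow_ne_zero _ he0))
          · exact h
        · rintro (h | h)
          · exact he0 h
          · exact hv1 h
  · -- Gw
    intro d e hd
    constructor
    · intro h
      have h' : e ^ (2 ^ i + 1) = d ^ (2 ^ i + 1) := h
      set t := e / d with ht
      have he' : e = d * t := by rw [ht]; field_simp
      have ht1 : t ^ (2 ^ i + 1) = 1 := by
        rw [ht, div_pow, h', div_self (pow_ne_zero _ hd)]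
      have ht0 : t ≠ 0 := by
        intro h0
        rw [h0, zero_pow (Nat.succ_ne_zero _)] at ht1
        exact zero_ne_one ht1
      have ht2 : t ^ 2 ^ i = t⁻¹ := by
        rw [pow_succ] at ht1
        exact eq_inv_of_mul_eq_one_left ht1
      have ht3 : t ^ 2 ^ (2 * i) = t := by
        rw [two_mul, pow_add, pow_mul, ht2, inv_pow, ht2, inv_inv]
      have ht4 := fixed_gcd hn hK ht3
      have hg : (2 * i).gcd n = 2 := by
        obtain ⟨m, hm⟩ := he.two_dvd
        rw [hm, Nat.gcd_mul_left]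
        have : i.gcd m = 1 := by
          apply Nat.Coprime.coprime_dvd_right (Dvd.intro_left 2 hm.symm) hi
        rw [this]
      rw [hg] at ht4
      have ht5 : t * ((t - 1) * ((t - ω) * (t - ω ^ 2))) = 0 := by
        have : (t - 1) * ((t - ω) * (t - ω ^ 2)) = t ^ 3 - 1 := by
          linear_combination (-t ^ 2 + t) * hω + (t - 1) * hω3
        rw [this]
        linear_combination ht4
      rcases mul_eq_zero.mp ht5 with h | h
      · exact absurd h ht0
      rcases mul_eq_zero.mp h with h | h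
      · left; rw [he', sub_eq_zero.mp h, mul_one]
      rcases mul_eq_zero.mp h with h | h
      · right; left; rw [he', sub_eq_zero.mp h]
      · right; right; rw [he', sub_eq_zero.mp h]
    · obtain ⟨k, hk⟩ := h3i
      have hω' : ω ^ (2 ^ i + 1) = 1 := by rw [hk, pow_mul, hω3, one_pow]
      rintro (rfl | rfl | rfl)
      · rfl
      · show (d * ω) ^ (2 ^ i + 1) = d ^ (2 ^ i + 1)
        rw [mul_pow, hω', mul_one]
      · show (d * ω ^ 2) ^ (2 ^ i + 1) = d ^ (2 ^ i + 1)
        rw [mul_pow, ← pow_mul, mul_comm 2, pow_mul, hω', one_pow, mul_one]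
  · -- apn
    intro x y e he0 h
    have h' : x ^ (2 ^ i + 1) + (x + e) ^ (2 ^ i + 1) = y ^ (2 ^ i + 1) + (y + e) ^ (2 ^ i + 1) := h
    rw [pow_succ (x + e), hadd, pow_succ (y + e), hadd, pow_succ x, pow_succ y] at h'
    set t := (x + y) / e with ht
    have hxy : x + y = e * t := by rw [ht]; field_simp
    have h1 : (x + y) ^ 2 ^ i * e = (x + y) * e ^ 2 ^ i := by
      rw [hadd]
      have h2 := hc2 (x ^ 2 ^ i * x)
      have h3 := hc2 (y ^ 2 ^ i * y)
      have h4 := hc2 (y ^ 2 ^ i * e)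
      have h5 := hc2 (y * e ^ 2 ^ i)
      have h6 := hc2 (x * e ^ 2 ^ i)
      linear_combination h' - h2 + h3 + h4 - h6
    have h2 : t ^ 2 ^ i = t := by
      rw [ht, div_pow, div_eq_div_iff (pow_ne_zero _ he0) he0]
      exact h1
    rcases hfix _ h2 with h3 | h3
    · left
      rw [h3, mul_zero] at hxy
      have := hc2 x
      linear_combination hxy - this
    · right
      rw [h3, mul_one] at hxy
      have := hc2 x
      linear_combination hxy - this
  · intro d
    exact inv_pow _ _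
  · intro d
    exact pow_eq_zero_iff (Nat.succ_ne_zero _)

end

end Pool.MP_39d092_co.GB
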