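import Pool.Agent.Work.MP_39d092_co.LDDiv

set_option autoImplicit false

namespace Pool.MP_39d092_co.LD
open Finset Matrix

/-- degree ≤ d via derivatives -/
def DV {n : ℕ} : ℕ → (V n → ZMod 2) → Prop
  | 0, f => ∀ x y, f x = f y
  | (d + 1), f => ∀ a, DV d (fun x => f (x + a) + f x)

lemma DV.add {n : ℕ} : ∀ (d : ℕ) (f g : V n → ZMod 2), DV d f → DV d g →
    DV d (fun x => f x + g x) := by
  intro d
  induction d with
  | zero => intro f g hf hg x y; simp only; rw [hf x y, hg x y]
  | succ d ih =>
    intro f g hf hg a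
    have h := ih _ _ (hf a) (hg a)
    have e : (fun x => (f (x + a) + g (x + a)) + (f x + g x))
        = (fun x => (f (x + a) + f x) + (g (x + a) + g x)) := by
      ext x; ring
    show DV d (fun x => (f (x + a) + g (x + a)) + (f x + g x))
    rw [e]; exact h

lemma DV.zero' {n : ℕ} : ∀ (d : ℕ), DV d (fun _ : V n => (0 : ZMod 2)) := by
  intro d
  induction d with
  | zero => intro x y; rfl
  | succ d ih =>
    intro a
    simpa using ih

lemma DV.const {n : ℕ} (c : ZMod 2) : ∀ (d : ℕ), DV d (fun _ : V n => c) := by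
  intro d
  cases d with
  | zero => intro x y; rfl
  | succ d =>
    intro a
    show DV d (fun _ => c + c)
    rw [zadd_self]; exact DV.zero' d

lemma DV.smul {n : ℕ} (d : ℕ) (f : V n → ZMod 2) (c : ZMod 2) (hf : DV d f) :
    DV d (fun x => c * f x) := by
  rcases two_cases c with h | h
  · subst h; simpa using DV.zero' d
  · subst h; simpa using hf

lemma DV.shift {n : ℕ} : ∀ (d : ℕ) (f : V n → ZMod 2) (a : V n), DV d f →
    DV d (fun x => f (x + a)) := by
  intro d
  induction d with
  | zero => intro f a hf x y; exact hf _ _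
  | succ d ih =>
    intro f a hf b
    have h := ih _ a (hf b)
    have e : (fun x => f (x + b + a) + f (x + a)) = (fun x => f (x + a + b) + f (x + a)) := by
      ext x; rw [add_right_comm]
    show DV d (fun x => f (x + b + a) + f (x + a))
    rw [e]; exact h

lemma DV.aff_mul {n : ℕ} (l : V n) (b : ZMod 2) : ∀ (d : ℕ) (f : V n → ZMod 2), DV d f →
    DV (d + 1) (fun x => (l ⬝ᵥ x + b) * f x) := by
  intro d
  induction d with
  | zero =>
    intro f hf a x y
    show (l ⬝ᵥ (x + a) + b) * f (x + a) + (l ⬝ᵥ x + b) * f x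
      = (l ⬝ᵥ (y + a) + b) * f (y + a) + (l ⬝ᵥ y + b) * f y
    rw [hf (x + a) 0, hf x 0, hf (y + a) 0, hf y 0, dotProduct_add, dotProduct_add]
    have h1 := zadd_self ((l ⬝ᵥ x + b) * f 0)
    have h2 := zadd_self ((l ⬝ᵥ y + b) * f 0)
    linear_combination h1 - h2
  | succ d ih =>
    intro f hf a
    have h1 := ih _ (hf a)
    have h2 : DV (d + 1) (fun x => (l ⬝ᵥ a) * f (x + a)) := DV.smul _ _ _ (DV.shift _ _ _ hf)
    have h3 := DV.add _ _ _ h1 h2
    have e : (fun x => (l ⬝ᵥ (x + a) + b) * f (x + a) + (l ⬝ᵥ x + b) * f x)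
        = (fun x => (l ⬝ᵥ x + b) * (f (x + a) + f x) + (l ⬝ᵥ a) * f (x + a)) := by
      ext x; rw [dotProduct_add]; ring
    show DV (d + 1) (fun x => (l ⬝ᵥ (x + a) + b) * f (x + a) + (l ⬝ᵥ x + b) * f x)
    rw [e]; exact h3

lemma DV.prod {n : ℕ} : ∀ (d : ℕ) (l : Fin d → V n) (b : Fin d → ZMod 2),
    DV d (fun x => ∏ j, (l j ⬝ᵥ x + b j)) := by
  intro d
  induction d with
  | zero => intro l b x y; simp
  | succ d ih =>
    intro l b
    have h := DV.aff_mul (l 0) (b 0) d _ (ih (fun j => l j.succ) (fun j => b j.succ))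
    have e : (fun x : V n => ∏ j : Fin (d + 1), (l j ⬝ᵥ x + b j))
        = (fun x => (l 0 ⬝ᵥ x + b 0) * ∏ j : Fin d, (l j.succ ⬝ᵥ x + b j.succ)) := by
      ext x; rw [Fin.prod_univ_succ]
    rw [e]; exact h

lemma DV.sum {n d : ℕ} {ι : Type} (s : Finset ι) (f : ι → V n → ZMod 2) (h : ∀ i, DV d (f i)) :
    DV d (fun x => ∑ i ∈ s, f i x) := by
  classical
  induction s using Finset.induction_on with
  | empty => simpa using DV.zero' d
  | insert a s ha ih =>
    simp_rw [Finset.sum_insert ha]
    exact DV.add _ _ _ (h a) ih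

lemma IsDeg.DV {n d : ℕ} {f : V n → ZMod 2} (h : IsDeg d n f) : DV d f := by
  obtain ⟨ι, _, l, b, hf⟩ := h
  have : f = fun x => ∑ i, ∏ j, (l i j ⬝ᵥ x + b i j) := funext hf
  rw [this]
  exact DV.sum _ _ (fun i => DV.prod d (l i) (b i))

/-- exponential sum of a quadratic function -/
lemma quad_sq {n : ℕ} (g : V n → ZMod 2) (hg : DV 2 g) :
    (∑ x, sg (g x)) ^ 2 = 0 ∨ ∃ j ≤ n, (∑ x, sg (g x)) ^ 2 = 2 ^ n * 2 ^ j := by
  classical
  have hq : ∀ d e x y, (g (x + e + d) + g (x + e)) + (g (x + d) + g x)
      = (g (y + e + d) + g (y + e)) + (g (y + d) + g y) := fun d e x y => hg d e x y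
  have h0 : (∑ x, sg (g x)) ^ 2 = ∑ d, Del g d := by
    have := W_sq g 0
    unfold W T at this
    simpa [sg_zero] using this
  let R : AddSubgroup (V n) :=
    { carrier := {d | ∀ x, g (x + d) + g x = g d + g 0}
      zero_mem' := by
        intro x
        simp [zadd_self]
      add_mem' := by
        intro a b ha hb x
        have h1 := hb (x + a)
        have h2 := ha x
        have h3 := hb a
        rw [← add_assoc]
        have e1 := zadd_self (g (x + a))
        have e2 := zadd_self (g a)
        linear_combination h1 + h2 - h3 - e1 + e2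
      neg_mem' := by
        intro a ha
        have : -a = a := by
          ext i
          have := zadd_self (a i)
          show - a i = a i
          linear_combination (-1 : ZMod 2) * this
        rw [this]; exact ha }
  have hR : ∀ d, d ∈ R ↔ ∀ x, g (x + d) + g x = g d + g 0 := fun d => Iff.rfl
  -- outside R
  have hout : ∀ d, d ∉ R → Del g d = 0 := by
    intro d hd
    rw [hR] at hd
    push Not at hd
    obtain ⟨e, he⟩ := hd
    have h1 := sum_shift e (fun x => sg (g x + g (x + d)))
    have h2 : ∑ x, sg (g (x + e) + g (x + e + d)) = - Del g d := by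
      unfold Del
      rw [← Finset.sum_neg_distrib]
      refine Finset.sum_congr rfl fun x _ => ?_
      have h3 := hq d e x 0
      simp only [zero_add] at h3
      have h4 : ∀ p q : ZMod 2, p ≠ q → p + q = 1 := by decide
      have h5 := h4 _ _ he
      have h6 : g (x + e) + g (x + e + d) = (g x + g (x + d)) + 1 := by
        have e1 := zadd_self (g (x + d))
        have e2 := zadd_self (g x)
        linear_combination h3 + h5 - e1 - e2
      rw [h6, sg_add, sg_one]; ring
    rw [h2] at h1
    change - Del g d = Del g d at h1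
    linarith
  have hin : ∀ d, d ∈ R → Del g d = 2 ^ n * sg (g d + g 0) := by
    intro d hd
    unfold Del
    have : ∀ x : V n, sg (g x + g (x + d)) = sg (g d + g 0) := by
      intro x
      rw [add_comm, (hR d).mp hd x]
    simp_rw [this]
    simp
  have h1 : ∑ d, Del g d = 2 ^ n * ∑ d ∈ univ.filter (fun d => d ∈ R), sg (g d + g 0) := by
    rw [Finset.mul_sum, Finset.sum_filter]
    refine Finset.sum_congr rfl fun d _ => ?_
    by_cases hd : d ∈ R
    · rw [if_pos hd, hin d hd]
    · rw [if_neg hd, hout d hd]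
  have hcard : ((univ.filter (fun d => d ∈ R)).card) = Nat.card R := by
    rw [Nat.card_eq_fintype_card, Fintype.card_subtype]
  have hdvd : Nat.card R ∣ 2 ^ n := by
    have := AddSubgroup.card_addSubgroup_dvd_card R
    rwa [Nat.card_eq_fintype_card (α := V n), show Fintype.card (V n) = 2 ^ n by simp] at this
  obtain ⟨j, hj, hj'⟩ := (Nat.dvd_prime_pow Nat.prime_two).mp hdvd
  by_cases hc : ∀ d ∈ R, g d + g 0 = 0
  · right
    refine ⟨j, hj, ?_⟩
    rw [h0, h1]
    congr 1
    rw [Finset.sum_congr rfl (g := fun _ => (1:ℤ))]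
    · rw [Finset.sum_const, hcard, hj']; simp
    · intro d hd
      rw [Finset.mem_filter] at hd
      rw [hc d hd.2, sg_zero]
  · left
    push Not at hc
    obtain ⟨d0, hd0, hne⟩ := hc
    have hone : g d0 + g 0 = 1 := by
      rcases two_cases (g d0 + g 0) with h | h
      · exact absurd h hne
      · exact h
    rw [h0, h1]
    have h2 : ∑ d ∈ univ.filter (fun d => d ∈ R), sg (g d + g 0)
        = - ∑ d ∈ univ.filter (fun d => d ∈ R), sg (g d + g 0) := by
      rw [Finset.sum_filter, ← Finset.sum_neg_distrib]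
      conv_lhs => rw [← sum_shift d0]
      refine Finset.sum_congr rfl fun d _ => ?_
      have h3 : d + d0 ∈ R ↔ d ∈ R := by
        constructor
        · intro h
          have := R.sub_mem h hd0
          simpa using this
        · intro h; exact R.add_mem h hd0
      by_cases hd : d ∈ R
      · rw [if_pos (h3.mpr hd), if_pos hd]
        have h4 := (hR d0).mp hd0 d
        have h5 : g (d + d0) + g 0 = (g d + g 0) + 1 := by
          have e1 := zadd_self (g d)
          linear_combination h4 + hone - e1
        rw [h5, sg_add, sg_one]; ring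
      · rw [if_neg (fun h => hd (h3.mp h)), if_neg hd]; ring
    have h3 : ∑ d ∈ univ.filter (fun d => d ∈ R), sg (g d + g 0) = 0 := by linarith
    rw [h3, mul_zero]

end Pool.MP_39d092_co.LD
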