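import Pool.Agent.Work.MP_39d092_co.LDMain
import Pool.Agent.Work.MP_39d092_co.LDQuad

set_option autoImplicit false

namespace Pool.MP_39d092_co.LD
open Finset Matrix

lemma card_ne {n : ℕ} (f : V n → ZMod 2) (a : V n) (c : ZMod 2) :
    2 * (((univ.filter (fun x : V n => f x ≠ a ⬝ᵥ x + c)).card : ℕ) : ℤ)
      = 2 ^ n - sg c * W f a := by
  have h1 : ∀ x : V n, 2 * (if f x ≠ a ⬝ᵥ x + c then (1:ℤ) else 0)
      = 1 - sg c * sg (f x + a ⬝ᵥ x) := by
    intro x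
    have : ∀ p q c : ZMod 2, 2 * (if p ≠ q + c then (1:ℤ) else 0) = 1 - sg c * sg (p + q) := by
      decide
    exact this _ _ _
  rw [Finset.card_filter]
  push_cast
  rw [Finset.mul_sum, Finset.sum_congr rfl (fun x _ => h1 x), Finset.sum_sub_distrib,
    ← Finset.mul_sum]
  simp [W]

lemma bound_of {n : ℕ} {K : ℤ} {t : ℕ} (f : V n → ZMod 2) (ht : 2 * (t:ℤ) = 2 ^ n - 4 * K)
    (h : ∀ a c, t < (univ.filter (fun x : V n => f x ≠ a ⬝ᵥ x + c)).card) (u : V n) :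
    |W f u| < 4 * K := by
  rw [abs_lt]
  have h0 := h u 0
  have h1 := h u 1
  have e0 := card_ne f u 0
  have e1 := card_ne f u 1
  rw [sg_zero] at e0
  rw [sg_one] at e1
  have h0' : (t : ℤ) < (((univ.filter (fun x : V n => f x ≠ u ⬝ᵥ x + 0)).card : ℕ) : ℤ) := by
    exact_mod_cast h0
  have h1' : (t : ℤ) < (((univ.filter (fun x : V n => f x ≠ u ⬝ᵥ x + 1)).card : ℕ) : ℤ) := by
    exact_mod_cast h1
  constructor <;> linarith

lemma two_sum {n : ℕ} (f : V n → ZMod 2) (u e : V n) :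
    W f u + W f (u + e)
      = 2 * ∑ x ∈ univ.filter (fun x : V n => ∀ _j : Fin 1, e ⬝ᵥ x = 0), sg (f x + u ⬝ᵥ x) := by
  unfold W
  rw [← Finset.sum_add_distrib, Finset.sum_filter, Finset.mul_sum]
  refine Finset.sum_congr rfl fun x _ => ?_
  rw [add_dotProduct, ← add_assoc, sg_add _ (e ⬝ᵥ x)]
  rcases two_cases (e ⬝ᵥ x) with h | h
  · rw [h, sg_zero]; simp; ring
  · rw [h, sg_one]; simp

lemma four_sum {n : ℕ} (f : V n → ZMod 2) (u a b : V n) :
    W f u + W f (u + a) + W f (u + b) + W f (u + a + b) = 4 * Q3 f u ![a, b, b] ![0, 0, 0] := by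
  unfold W Q3
  rw [← Finset.sum_add_distrib, ← Finset.sum_add_distrib, ← Finset.sum_add_distrib,
    Finset.sum_filter, Finset.mul_sum]
  refine Finset.sum_congr rfl fun x _ => ?_
  have e1 : sg (f x + (u + a) ⬝ᵥ x) = sg (f x + u ⬝ᵥ x) * sg (a ⬝ᵥ x) := by
    rw [add_dotProduct, ← add_assoc, sg_add _ (a ⬝ᵥ x)]
  have e2 : sg (f x + (u + b) ⬝ᵥ x) = sg (f x + u ⬝ᵥ x) * sg (b ⬝ᵥ x) := by
    rw [add_dotProduct, ← add_assoc, sg_add _ (b ⬝ᵥ x)]
  have e3 : sg (f x + (u + a + b) ⬝ᵥ x) = sg (f x + u ⬝ᵥ x) * sg (a ⬝ᵥ x) * sg (b ⬝ᵥ x) := by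
    rw [add_dotProduct, ← add_assoc, sg_add _ (b ⬝ᵥ x), add_dotProduct, ← add_assoc,
      sg_add _ (a ⬝ᵥ x)]
  rw [e1, e2, e3]
  have h3 : (∀ j : Fin 3, (![a, b, b] j : V n) ⬝ᵥ x = (![0, 0, 0] j : ZMod 2))
      ↔ a ⬝ᵥ x = 0 ∧ b ⬝ᵥ x = 0 := by
    simp [Fin.forall_fin_succ]
  simp_rw [h3]
  rcases two_cases (a ⬝ᵥ x) with h | h <;> rcases two_cases (b ⬝ᵥ x) with h' | h' <;>
    rw [h, h'] <;> simp [sg_zero, sg_one]
  ring

/-- The conclusion from `16|S| ≥ 3N`. -/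
lemma Good.fin {n : ℕ} {K : ℤ} {f : V n → ZMod 2} (h : Good n K f)
    {c : V n → ℤ} (hc : ∀ u, W f u = K * c u) (hb : ∀ u, -3 ≤ c u ∧ c u ≤ 3)
    (hsum : ∑ u, (c u) ^ 2 = 4 * 2 ^ n)
    {a : V n} {ε : ZMod 2} (ha : a ≠ 0) (hpar : ∀ u, Even (c u) ↔ a ⬝ᵥ u = ε)
    (hS : 3 * (2:ℤ) ^ n ≤ 16 * ((Sset f a ε).card : ℤ)) :
    16 * ∑ u, (W f u) ^ 4 ≤ 31 * (2 ^ n * (2 ^ n * 2 ^ n)) := by
  refine h.to_goal hc ?_
  have hKne : K ≠ 0 := ne_of_gt h.Kpos
  have hcard := card_hyper_not a ha ε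
  have h0 : ∑ u ∈ univ.filter (fun u => a ⬝ᵥ u = ε), (c u) ^ 2 = 4 * ((Sset f a ε).card : ℤ) := by
    have h1 := sum_H0 f a ε
    simp_rw [hc, mul_pow] at h1
    rw [← Finset.mul_sum, ← h.KN] at h1
    have h3 : K ^ 2 * (∑ u ∈ univ.filter (fun u => a ⬝ᵥ u = ε), (c u) ^ 2
        - 4 * ((Sset f a ε).card : ℤ)) = 0 := by linear_combination h1
    rcases mul_eq_zero.mp h3 with h4 | h4
    · exact absurd h4 (pow_ne_zero _ hKne)
    · linarith
  have hsplit2 := Finset.sum_filter_add_sum_filter_not univ (fun u => a ⬝ᵥ u = ε)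
    (fun u => (c u) ^ 2)
  have hsplit4 := Finset.sum_filter_add_sum_filter_not univ (fun u => a ⬝ᵥ u = ε)
    (fun u => (c u) ^ 4)
  have h4a : ∑ u ∈ univ.filter (fun u => a ⬝ᵥ u = ε), (c u) ^ 4
      = 4 * ∑ u ∈ univ.filter (fun u => a ⬝ᵥ u = ε), (c u) ^ 2 := by
    rw [Finset.mul_sum]
    refine Finset.sum_congr rfl fun u hu => ?_
    rw [Finset.mem_filter] at hu
    exact even_fourth (hb u).1 (hb u).2 ((hpar u).mpr hu.2)
  have h4b : ∑ u ∈ univ.filter (fun u => ¬ a ⬝ᵥ u = ε), (c u) ^ 4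
      = 10 * ∑ u ∈ univ.filter (fun u => ¬ a ⬝ᵥ u = ε), (c u) ^ 2
        - 9 * (((univ.filter (fun u : V n => ¬ a ⬝ᵥ u = ε)).card : ℕ) : ℤ) := by
    rw [Finset.mul_sum]
    have : 9 * (((univ.filter (fun u : V n => ¬ a ⬝ᵥ u = ε)).card : ℕ) : ℤ)
        = ∑ _u ∈ univ.filter (fun u : V n => ¬ a ⬝ᵥ u = ε), (9:ℤ) := by
      rw [Finset.sum_const, nsmul_eq_mul]; ring
    rw [this, ← Finset.sum_sub_distrib]
    refine Finset.sum_congr rfl fun u hu => ?_
    rw [Finset.mem_filter] at hu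
    exact odd_fourth (hb u).1 (hb u).2 (fun h' => hu.2 ((hpar u).mp h'))
  linarith

lemma Good.of_par {n : ℕ} {K : ℤ} {f : V n → ZMod 2} (h : Good n K f)
    {c : V n → ℤ} (hc : ∀ u, W f u = K * c u)
    (hpar : ∀ u, Even (c u) ↔ Even (c 0)) :
    16 * ∑ u, (W f u) ^ 4 ≤ 31 * (2 ^ n * (2 ^ n * 2 ^ n)) := by
  refine h.const_parity fun u => ?_
  have h1 : Even (c u + c 0) := by rw [Int.even_add]; exact hpar u
  obtain ⟨m, hm⟩ := h1
  refine ⟨m, ?_⟩
  rw [hc u, hc 0]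
  linear_combination K * hm

lemma pigeon {n : ℕ} (a : V n) (R : Finset (V n)) (hR : R.Nonempty) (hcard : R.card + 1 < n + 1) :
    ∃ (ν : V n) (κ : ZMod 2), ν ≠ 0 ∧ ν ⬝ᵥ a = 0 ∧ ∀ s ∈ R, ν ⬝ᵥ s = κ := by
  classical
  let Φ : V n × ZMod 2 → ZMod 2 × (R → ZMod 2) :=
    fun p => (p.1 ⬝ᵥ a, fun s => p.1 ⬝ᵥ (s : V n) + p.2)
  have hlt : Fintype.card (ZMod 2 × (R → ZMod 2)) < Fintype.card (V n × ZMod 2) := by
    rw [Fintype.card_prod, Fintype.card_prod, Fintype.card_fun, Fintype.card_fun, ZMod.card,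
      Fintype.card_coe, Fintype.card_fin, ← pow_succ', ← pow_succ]
    exact Nat.pow_lt_pow_right (by norm_num) hcard
  obtain ⟨p, q, hpq, he⟩ := Fintype.exists_ne_map_eq_of_card_lt Φ hlt
  have he1 : p.1 ⬝ᵥ a = q.1 ⬝ᵥ a := congrArg Prod.fst he
  have he2 : ∀ s ∈ R, p.1 ⬝ᵥ s + p.2 = q.1 ⬝ᵥ s + q.2 := fun s hs =>
    congrFun (congrArg Prod.snd he) ⟨s, hs⟩
  refine ⟨p.1 + q.1, p.2 + q.2, ?_, ?_, ?_⟩
  · intro h0
    have h1 : q.1 = p.1 := (add_eq_zero_iff' _ _).mp h0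
    obtain ⟨s, hs⟩ := hR
    have h2 := he2 s hs
    rw [h1] at h2
    exact hpq (Prod.ext h1.symm (add_left_cancel h2))
  · rw [add_dotProduct, he1]; exact zadd_self _
  · intro s hs
    have h2 := he2 s hs
    rw [add_dotProduct]
    have e1 := zadd_self (q.1 ⬝ᵥ s)
    have e2 := zadd_self p.2
    linear_combination h2 + e1 - e2

lemma pigeon' {n : ℕ} (a : V n) (R : Finset (V n)) (hcard : R.card + 1 < n + 1) (hn : 2 ≤ n) :
    ∃ (ν : V n) (κ : ZMod 2), ν ≠ 0 ∧ ν ⬝ᵥ a = 0 ∧ ∀ s ∈ R, ν ⬝ᵥ s = κ := by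
  classical
  by_cases hR : R.Nonempty
  · exact pigeon a R hR hcard
  · obtain ⟨ν, κ, h1, h2, _⟩ := pigeon a {0} ⟨0, by simp⟩ (by simp; omega)
    rw [Finset.not_nonempty_iff_eq_empty] at hR
    exact ⟨ν, κ, h1, h2, by simp [hR]⟩


/-! ### cubic functions in dimension 8 and 10 -/

lemma comp_isDeg {n d : ℕ} (F : V n → V n)
    (hF : ∀ i, ∃ P : MvPolynomial (Fin n) (ZMod 2), P.totalDegree ≤ d ∧
      ∀ x, F x i = MvPolynomial.eval x P) (v : V n) : IsDeg d n (fun x => v ⬝ᵥ F x) := by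
  choose P hP hP' using hF
  have h1 : (fun x => v ⬝ᵥ F x)
      = fun x => MvPolynomial.eval x (∑ i, v i • P i) := by
    ext x
    rw [map_sum]
    unfold dotProduct
    refine Finset.sum_congr rfl fun i _ => ?_
    rw [hP', MvPolynomial.smul_eval]
  rw [h1]
  refine isDeg_eval _ ((MvPolynomial.totalDegree_finsetSum _ _).trans ?_)
  refine Finset.sup_le fun i _ => ?_
  exact (MvPolynomial.totalDegree_smul_le _ _).trans (hP i)

lemma W_flat {n : ℕ} (f : V n → ZMod 2) (u : V n) (lr : Fin 0 → V n) (br : Fin 0 → ZMod 2) :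
    ∑ x ∈ univ.filter (fun x : V n => ∀ j, lr j ⬝ᵥ x = br j), sg (f x + u ⬝ᵥ x) = W f u := by
  unfold W
  refine Finset.sum_congr ?_ fun _ _ => rfl
  ext x; simp

lemma fourth8 (f : V 8 → ZMod 2) (hf : IsDeg 3 8 f) (hb : ∀ u, |W f u| < 4 * 8) :
    16 * ∑ u, (W f u) ^ 4 ≤ 31 * (2 ^ 8 * (2 ^ 8 * 2 ^ 8)) := by
  have h : Good 8 8 f :=
    { KN := by norm_num
      Kpos := by norm_num
      bound := hb
      div := by
        intro u
        have h1 := IsDeg.flat (d := 2) (k := 3) hf u (r := 0) Fin.elim0 Fin.elim0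
          (by intro t; omega)
        rw [W_flat] at h1
        exact h1 }
  refine h.const_parity fun u => ?_
  have h1 := two_sum f 0 u
  rw [zero_add] at h1
  have h2 := IsDeg.flat (d := 2) (k := 3) hf 0 (r := 1) (fun _ => u) (fun _ => 0)
    (by intro t; omega)
  obtain ⟨m, hm⟩ := h2
  refine ⟨m, ?_⟩
  rw [add_comm, h1, hm]
  ring

/-- `16|S| ≥ 3N` for cubic components in dimension 10, or `S` is empty -/
lemma S10 (f : V 10 → ZMod 2) (hf : IsDeg 3 10 f) (a : V 10) (ε : ZMod 2)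
    (h1 : 1 ≤ (Sset f a ε).card) : 192 ≤ (Sset f a ε).card := by
  by_contra hlt
  push Not at hlt
  have hDV : DV 2 (fun x => (f (x + a) + f x) + ε) :=
    DV.add 2 _ _ (hf.DV a) (DV.const ε 2)
  have hT : ∑ x, sg ((f (x + a) + f x) + ε) = 2 * ((Sset f a ε).card : ℤ) - 1024 := by
    have h2 : ∀ x : V 10, sg ((f (x + a) + f x) + ε)
        = 2 * (if f x + f (x + a) = ε then (1:ℤ) else 0) - 1 := by
      intro x
      have : ∀ p q e : ZMod 2, sg ((p + q) + e) = 2 * (if q + p = e then (1:ℤ) else 0) - 1 := by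
        decide
      exact this _ _ _
    rw [Finset.sum_congr rfl (fun x _ => h2 x), Finset.sum_sub_distrib, ← Finset.mul_sum,
      Sset, Finset.card_filter]
    push_cast
    simp
  have hq := quad_sq _ hDV
  rw [hT] at hq
  set s := (Sset f a ε).card with hs
  clear_value s
  rcases hq with h | ⟨j, hj, h⟩
  · have h3 : 2 * (s:ℤ) - 1024 = 0 := by
      exact pow_eq_zero_iff (two_ne_zero) |>.mp h
    omega
  · have hs1 : (1:ℤ) ≤ s := by exact_mod_cast h1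
    have hs2 : (s:ℤ) ≤ 191 := by
      have : s ≤ 191 := by omega
      exact_mod_cast this
    interval_cases j <;> norm_num at h
    all_goals first | nlinarith | skip
    -- remaining: j = 9
    all_goals
      rcases le_or_gt (s:ℤ) 149 with h4 | h4
      · nlinarith
      · have h5 : (150:ℤ) ≤ s := by omega
        nlinarith


lemma Good.finish {n : ℕ} {K : ℤ} {f : V n → ZMod 2} (h : Good n K f)
    (hQ : ∀ u l b, K ∣ 2 * Q3 f u l b)
    (hbig : ∀ (a : V n) (ε : ZMod 2), a ≠ 0 → 3 * (2:ℤ) ^ n ≤ 16 * ((Sset f a ε).card : ℤ) ∨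
      ∃ (ν : V n) (κ : ZMod 2), ν ≠ 0 ∧ ν ⬝ᵥ a = 0 ∧ ∀ x ∈ Sset f a ε, ¬ ν ⬝ᵥ x = κ) :
    16 * ∑ u, (W f u) ^ 4 ≤ 31 * (2 ^ n * (2 ^ n * 2 ^ n)) := by
  obtain ⟨c, hc, hb, hsum⟩ := h.exists_c
  have hp : ∀ u a b, 2 * K ∣ W f u + W f (u + a) + W f (u + b) + W f (u + a + b) := by
    intro u a b
    rw [four_sum]
    obtain ⟨m, hm⟩ := hQ u ![a, b, b] ![0, 0, 0]
    exact ⟨m, by linear_combination 2 * hm⟩
  obtain ⟨a, ε, hpar⟩ := h.affine_parity hp hc
  by_cases ha : a = 0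
  · refine h.of_par hc fun u => ?_
    rw [hpar u, hpar 0, ha]
    simp
  · refine h.fin hc hb hsum ha hpar ?_
    rcases hbig a ε ha with h1 | ⟨ν, κ, hν, hνa, hdis⟩
    · exact h1
    · exact h.key hQ hc ha hpar hν hνa hdis

lemma fourth10 (f : V 10 → ZMod 2) (hf : IsDeg 3 10 f) (hb : ∀ u, |W f u| < 4 * 16) :
    16 * ∑ u, (W f u) ^ 4 ≤ 31 * (2 ^ 10 * (2 ^ 10 * 2 ^ 10)) := by
  have h : Good 10 16 f :=
    { KN := by norm_num
      Kpos := by norm_num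
      bound := hb
      div := by
        intro u
        have h1 := IsDeg.flat (d := 2) (k := 4) hf u (r := 0) Fin.elim0 Fin.elim0
          (by intro t; omega)
        rw [W_flat] at h1
        exact h1 }
  refine h.finish ?_ ?_
  · intro u l b
    obtain ⟨m, hm⟩ := IsDeg.flat (d := 2) (k := 3) hf u (r := 3) l b (by intro t; omega)
    refine ⟨m, ?_⟩
    unfold Q3
    rw [hm]; ring
  · intro a ε ha
    by_cases h0 : (Sset f a ε).card = 0
    · right
      obtain ⟨ν, κ, h1, h2, _⟩ := pigeon' a ∅ (by simp) (by norm_num)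
      rw [Finset.card_eq_zero] at h0
      exact ⟨ν, κ, h1, h2, by simp [h0]⟩
    · left
      have h1 := S10 f hf a ε (Nat.one_le_iff_ne_zero.mpr h0)
      have h2 : (192:ℤ) ≤ ((Sset f a ε).card : ℤ) := by exact_mod_cast h1
      norm_num
      linarith

/-! ### dimension 6 -/

lemma sg_val (z : ZMod 2) : sg z = 1 - 2 * (z.val : ℤ) := by revert z; decide

lemma sum_val {α : Type*} (s : Finset α) (g : α → ZMod 2) :
    ((∑ x ∈ s, (g x).val : ℕ) : ZMod 2) = ∑ x ∈ s, g x := by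
  push_cast
  refine Finset.sum_congr rfl fun x _ => ?_
  exact ZMod.natCast_zmod_val _

lemma sum_sg_val {α : Type*} (s : Finset α) (g : α → ZMod 2) :
    ∑ x ∈ s, sg (g x) = (s.card : ℤ) - 2 * ((∑ x ∈ s, (g x).val : ℕ) : ℤ) := by
  rw [Finset.sum_congr rfl (fun x _ => sg_val (g x)), Finset.sum_sub_distrib, ← Finset.mul_sum]
  push_cast
  simp

lemma nat_even_of (m : ℕ) (h : (m : ZMod 2) = 0) : ∃ k, m = 2 * k := by
  rw [ZMod.natCast_eq_zero_iff] at h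
  exact h

lemma sum_lin6 (u : V 6) : ∑ x : V 6, u ⬝ᵥ x = 0 := by
  have h1 := char_sum u
  rw [sum_sg_val, card_V] at h1
  rw [← sum_val]
  split_ifs at h1
  · have h2 : (∑ x : V 6, (u ⬝ᵥ x).val) = 0 := by
      push_cast at h1
      have : (2:ℤ) * (∑ x : V 6, (u ⬝ᵥ x).val : ℕ) = 0 := by push_cast; linarith
      have h3 : ((∑ x : V 6, (u ⬝ᵥ x).val : ℕ) : ℤ) = 0 := by linarith
      exact_mod_cast h3
    rw [h2]; simp
  · have h2 : (∑ x : V 6, (u ⬝ᵥ x).val) = 32 := by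
      push_cast at h1
      have h3 : ((∑ x : V 6, (u ⬝ᵥ x).val : ℕ) : ℤ) = 32 := by push_cast; linarith
      exact_mod_cast h3
    rw [h2]; decide

lemma card_S_even {n : ℕ} (f : V n → ZMod 2) (a : V n) (ε : ZMod 2) (μ : V n) (hμ : μ ⬝ᵥ a = 1) :
    (Sset f a ε).card = 2 * ((Sset f a ε).filter (fun x => μ ⬝ᵥ x = 0)).card := by
  have h1 : ∀ x, x + a ∈ Sset f a ε ↔ x ∈ Sset f a ε := by
    intro x
    simp only [Sset, Finset.mem_filter, Finset.mem_univ, true_and, add_assoc, vadd_self, add_zero]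
    rw [add_comm]
  have h2 := half_sum (fun x => if x ∈ Sset f a ε then (1:ℤ) else 0) a μ
    (fun x => by simp only [h1]) hμ
  have h3 : ∑ x, (if x ∈ Sset f a ε then (1:ℤ) else 0) = ((Sset f a ε).card : ℤ) := by simp
  have h4 : ∑ x ∈ univ.filter (fun x => μ ⬝ᵥ x = 0), (if x ∈ Sset f a ε then (1:ℤ) else 0)
      = (((Sset f a ε).filter (fun x => μ ⬝ᵥ x = 0)).card : ℤ) := by
    rw [← Finset.sum_filter, Finset.sum_const, nsmul_eq_mul, mul_one]
    congr 2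
    ext x
    simp only [Finset.mem_filter, Finset.mem_univ, true_and]
    tauto
  rw [h3, h4] at h2
  exact_mod_cast h2

lemma fourth6 (f : V 6 → ZMod 2) (hf : ∑ x, f x = 0) (hb : ∀ u, |W f u| < 4 * 4) :
    16 * ∑ u, (W f u) ^ 4 ≤ 31 * (2 ^ 6 * (2 ^ 6 * 2 ^ 6)) := by
  have h : Good 6 4 f :=
    { KN := by norm_num
      Kpos := by norm_num
      bound := hb
      div := by
        intro u
        unfold W
        rw [sum_sg_val, card_V]
        have h1 : ∑ x : V 6, (f x + u ⬝ᵥ x) = 0 := by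
          rw [Finset.sum_add_distrib, hf, sum_lin6, add_zero]
        rw [← sum_val] at h1
        obtain ⟨k, hk⟩ := nat_even_of _ h1
        rw [hk]
        exact ⟨16 - k, by push_cast; ring⟩ }
  refine h.finish ?_ ?_
  · intro u l b
    unfold Q3
    rw [sum_sg_val]
    have h1 := count_dvd' (univ : Finset (Fin 3)) l b
    simp only [Finset.mem_univ, true_implies, Finset.card_univ, Fintype.card_fin] at h1
    obtain ⟨m, hm⟩ := h1
    rw [hm]
    exact ⟨4 * m - ((∑ x ∈ univ.filter (fun x : V 6 => ∀ j, l j ⬝ᵥ x = b j),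
      (f x + u ⬝ᵥ x).val : ℕ) : ℤ), by norm_num; ring⟩
  · intro a ε ha
    by_cases h0 : 12 ≤ (Sset f a ε).card
    · left
      have h2 : (12:ℤ) ≤ ((Sset f a ε).card : ℤ) := by exact_mod_cast h0
      norm_num
      linarith
    · right
      obtain ⟨μ, hμ'⟩ := exists_dot_one ha
      have hμ : μ ⬝ᵥ a = 1 := by rw [dotProduct_comm]; exact hμ'
      have h1 : (Sset f a ε).card = 2 * ((Sset f a ε).filter (fun x => μ ⬝ᵥ x = 0)).card :=
        card_S_even f a ε μ hμ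
      have hR : ((Sset f a ε).filter (fun x => μ ⬝ᵥ x = 0)).card + 1 < 6 + 1 := by
        push Not at h0
        rw [h1] at h0
        omega
      obtain ⟨ν, κ, h2, h3, h4⟩ := pigeon' a ((Sset f a ε).filter (fun x => μ ⬝ᵥ x = 0))
        hR (by norm_num)
      refine ⟨ν, κ + 1, h2, h3, fun x hx => ?_⟩
      have hinv : x + a ∈ Sset f a ε := by
        simp only [Sset, Finset.mem_filter, Finset.mem_univ, true_and] at hx ⊢
        rw [add_assoc, vadd_self, add_zero, add_comm]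
        exact hx
      have hx' : ν ⬝ᵥ x = κ := by
        rcases two_cases (μ ⬝ᵥ x) with h5 | h5
        · exact h4 x (Finset.mem_filter.mpr ⟨hx, h5⟩)
        · have h6 := h4 (x + a) (Finset.mem_filter.mpr ⟨hinv, by
            rw [dotProduct_add, h5, hμ]; exact zadd_self _⟩)
          rwa [dotProduct_add, h3, add_zero] at h6
      rw [hx']
      have : ∀ k : ZMod 2, ¬ k = k + 1 := by decide
      exact this κ

/-- Assembly. -/
lemma final {n : ℕ} {K : ℤ} {t : ℕ} (hn : 1 ≤ n) (F : V n → V n) (ht : 2 * (t:ℤ) = 2 ^ n - 4 * K)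
    (hcomp : ∀ v : V n, v ≠ 0 → (∀ u, |W (fun x => v ⬝ᵥ F x) u| < 4 * K) →
      16 * ∑ u, (W (fun x => v ⬝ᵥ F x) u) ^ 4 ≤ 31 * (2 ^ n * (2 ^ n * 2 ^ n))) :
    ∃ v : V n, v ≠ 0 ∧ ∃ (a : V n) (c : ZMod 2),
      (univ.filter (fun x : V n => v ⬝ᵥ F x ≠ a ⬝ᵥ x + c)).card ≤ t := by
  by_contra hcon
  push Not at hcon
  refine fourth_contra F hn fun v hv => hcomp v hv fun u => ?_
  exact bound_of (fun x => v ⬝ᵥ F x) ht (fun a c => hcon v hv a c) u


/-! ### the remaining small cases and the uniform statement -/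

lemma sum_lin {n : ℕ} (hn : 2 ≤ n) (u : V n) : ∑ x : V n, u ⬝ᵥ x = 0 := by
  have h1 := char_sum u
  rw [sum_sg_val, card_V] at h1
  rw [← sum_val]
  obtain ⟨m, rfl⟩ : ∃ m, n = m + 2 := ⟨n - 2, by omega⟩
  split_ifs at h1
  · have h2 : (∑ x : V (m + 2), (u ⬝ᵥ x).val) = 0 := by
      have : (2:ℤ) * ((∑ x : V (m + 2), (u ⬝ᵥ x).val : ℕ) : ℤ) = 0 := by
        push_cast at h1 ⊢
        linarith
      have h3 : ((∑ x : V (m + 2), (u ⬝ᵥ x).val : ℕ) : ℤ) = 0 := by linarith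
      exact_mod_cast h3
    rw [h2]; simp
  · have h2 : (∑ x : V (m + 2), (u ⬝ᵥ x).val) = 2 * 2 ^ m := by
      have h3 : ((∑ x : V (m + 2), (u ⬝ᵥ x).val : ℕ) : ℤ) = 2 * 2 ^ m := by
        push_cast at h1 ⊢
        rw [pow_add] at h1
        linarith
      exact_mod_cast h3
    rw [h2, Nat.cast_mul]
    have : ((2 : ℕ) : ZMod 2) = 0 := by decide
    rw [this, zero_mul]

lemma fourth4 (f : V 4 → ZMod 2) (hb : ∀ u, |W f u| < 4 * 2) :
    16 * ∑ u, (W f u) ^ 4 ≤ 31 * (2 ^ 4 * (2 ^ 4 * 2 ^ 4)) := by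
  have hW : ∀ u, W f u = 16 - 2 * ((∑ x : V 4, (f x + u ⬝ᵥ x).val : ℕ) : ℤ) := by
    intro u
    unfold W
    rw [sum_sg_val, card_V, show ((2 ^ 4 : ℕ) : ℤ) = 16 from rfl]
  have h : Good 4 2 f :=
    { KN := by norm_num
      Kpos := by norm_num
      bound := hb
      div := by
        intro u
        rw [hW u]
        exact ⟨8 - ((∑ x : V 4, (f x + u ⬝ᵥ x).val : ℕ) : ℤ), by ring⟩ }
  refine h.const_parity fun u => ?_
  rw [hW u, hW 0]
  have h1 : (((∑ x : V 4, (f x + u ⬝ᵥ x).val) + (∑ x : V 4, (f x + (0 : V 4) ⬝ᵥ x).val) : ℕ) : ZMod 2)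
      = 0 := by
    rw [Nat.cast_add, sum_val, sum_val, Finset.sum_add_distrib, Finset.sum_add_distrib,
      sum_lin (by norm_num), sum_lin (by norm_num), add_zero]
    exact zadd_self _
  obtain ⟨k, hk⟩ := nat_even_of _ h1
  refine ⟨8 - k, ?_⟩
  have hk' : ((∑ x : V 4, (f x + u ⬝ᵥ x).val : ℕ) : ℤ)
      + ((∑ x : V 4, (f x + (0 : V 4) ⬝ᵥ x).val : ℕ) : ℤ) = 2 * k := by exact_mod_cast hk
  linear_combination (-2) * hk'

lemma fourth2 (f : V 2 → ZMod 2) (hb : ∀ u, |W f u| < 4 * 1) :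
    16 * ∑ u, (W f u) ^ 4 ≤ 31 * (2 ^ 2 * (2 ^ 2 * 2 ^ 2)) := by
  have hW : ∀ u, W f u = 4 - 2 * ((∑ x : V 2, (f x + u ⬝ᵥ x).val : ℕ) : ℤ) := by
    intro u
    unfold W
    rw [sum_sg_val, card_V, show ((2 ^ 2 : ℕ) : ℤ) = 4 from rfl]
  have h : Good 2 1 f :=
    { KN := by norm_num
      Kpos := by norm_num
      bound := hb
      div := fun u => one_dvd _ }
  refine h.const_parity fun u => ?_
  rw [hW u, hW 0]
  exact ⟨4 - ((∑ x : V 2, (f x + u ⬝ᵥ x).val : ℕ) : ℤ)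
    - ((∑ x : V 2, (f x + (0 : V 2) ⬝ᵥ x).val : ℕ) : ℤ), by ring⟩

lemma fourth_quad {m : ℕ} (f : V (2 * (m + 1)) → ZMod 2) (hf : IsDeg 2 (2 * (m + 1)) f)
    (hb : ∀ u, |W f u| < 4 * 2 ^ m) :
    16 * ∑ u, (W f u) ^ 4
      ≤ 31 * (2 ^ (2 * (m + 1)) * (2 ^ (2 * (m + 1)) * 2 ^ (2 * (m + 1)))) := by
  have hdiv : ∀ u, (2:ℤ) * 2 ^ m ∣ W f u := by
    intro u
    have h1 := IsDeg.flat (d := 1) (k := m + 1) hf u (r := 0) Fin.elim0 Fin.elim0
      (by intro t; omega)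
    rw [W_flat, pow_succ, mul_comm] at h1
    exact h1
  have h : Good (2 * (m + 1)) (2 ^ m) f :=
    { KN := by ring
      Kpos := by positivity
      bound := hb
      div := fun u => (Dvd.intro_left 2 rfl).trans (hdiv u) }
  exact h.const_parity fun u => dvd_add (hdiv u) (hdiv 0)

/-- The uniform theorem. -/
theorem main_bound (n d : ℕ) (hn : Even n) (hn0 : 0 < n) (hd : d * (n / 2 - 2) < n)
    (F : V n → V n)
    (hF : ∀ i, ∃ P : MvPolynomial (Fin n) (ZMod 2), P.totalDegree ≤ d ∧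
      ∀ x, F x i = MvPolynomial.eval x P) :
    ∃ v : V n, v ≠ 0 ∧ ∃ (a : V n) (c : ZMod 2),
      (univ.filter (fun x : V n => v ⬝ᵥ F x ≠ a ⬝ᵥ x + c)).card ≤ 2 ^ (n - 1) - 2 ^ (n / 2) := by
  by_cases hd2 : d ≤ 2
  · obtain ⟨m, rfl⟩ : ∃ m, n = 2 * (m + 1) := by
      obtain ⟨r, hr⟩ := hn
      exact ⟨r - 1, by omega⟩
    have hF' : ∀ i, ∃ P : MvPolynomial (Fin (2 * (m + 1))) (ZMod 2), P.totalDegree ≤ 2 ∧
        ∀ x, F x i = MvPolynomial.eval x P := fun i => by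
      obtain ⟨P, h1, h2⟩ := hF i
      exact ⟨P, h1.trans hd2, h2⟩
    refine final (K := 2 ^ m) (by omega) F ?_ ?_
    · have e1 : 2 * (m + 1) - 1 = 2 * m + 1 := by omega
      have e2 : 2 * (m + 1) / 2 = m + 1 := by omega
      rw [e1, e2, Nat.cast_sub (Nat.pow_le_pow_right (by norm_num) (by omega))]
      push_cast
      ring
    · intro v _ hb
      exact fourth_quad _ (comp_isDeg F hF' v) hb
  · have hn12 : n < 12 := by
      by_contra h
      push Not at h hd2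
      obtain ⟨r, hr⟩ := hn
      have h1 : n / 2 - 2 = r - 2 := by omega
      rw [h1] at hd
      have h2 : 3 * (r - 2) ≤ d * (r - 2) := Nat.mul_le_mul_right _ hd2
      omega
    push Not at hd2
    have hcases : n = 2 ∨ n = 4 ∨ n = 6 ∨ n = 8 ∨ n = 10 := by
      obtain ⟨r, hr⟩ := hn
      omega
    rcases hcases with rfl | rfl | rfl | rfl | rfl
    · exact final (K := 1) (by norm_num) F (by norm_num) (fun v _ hb => fourth2 _ hb)
    · exact final (K := 2) (by norm_num) F (by norm_num) (fun v _ hb => fourth4 _ hb)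
    · refine final (K := 4) (by norm_num) F (by norm_num) (fun v _ hb => fourth6 _ ?_ hb)
      have h0 : ∑ x, F x = 0 := by
        ext i
        obtain ⟨P, h1, h2⟩ := hF i
        rw [Finset.sum_apply, Finset.sum_congr rfl (fun x _ => h2 x)]
        refine MvPolynomial.sum_eval_eq_zero P ?_
        rw [ZMod.card, Fintype.card_fin]
        norm_num at hd ⊢
        omega
      rw [← dotProduct_sum, h0, dotProduct_zero]
    · have hF' : ∀ i, ∃ P : MvPolynomial (Fin 8) (ZMod 2), P.totalDegree ≤ 3 ∧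
          ∀ x, F x i = MvPolynomial.eval x P := fun i => by
        obtain ⟨P, h1, h2⟩ := hF i
        exact ⟨P, h1.trans (by norm_num at hd; omega), h2⟩
      exact final (K := 8) (by norm_num) F (by norm_num)
        (fun v _ hb => fourth8 _ (comp_isDeg F hF' v) hb)
    · have hF' : ∀ i, ∃ P : MvPolynomial (Fin 10) (ZMod 2), P.totalDegree ≤ 3 ∧
          ∀ x, F x i = MvPolynomial.eval x P := fun i => by
        obtain ⟨P, h1, h2⟩ := hF i
        exact ⟨P, h1.trans (by norm_num at hd; omega), h2⟩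
      exact final (K := 16) (by norm_num) F (by norm_num)
        (fun v _ hb => fourth10 _ (comp_isDeg F hF' v) hb)

end Pool.MP_39d092_co.LD
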