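import Pool.Agent.Work.MP_39d092_co.GBStab
import Pool.Agent.Work.MP_39d092_co.LDFinal

set_option autoImplicit false

/-!
# MP_39d092_co, stability around functions with bent or semibent components: large coefficients
-/

namespace Pool.MP_39d092_co.GB
open Finset Matrix

section
variable {X : Type} [AddCommGroup X] [Fintype X] [DecidableEq X] {β : X → X → ℝ} {r : ℝ}
variable {G : X → X} {N : Finset X} {D : ℕ}

/-- a function of two variables near the graph of `G` has a large Walsh coefficient -/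
theorem Semi.exists_large (s : Semi β r G N D) (p : Pai X β r) (hr : 1 < r) (hD : 1 ≤ D)
    (S : Finset (X × X)) (hS : S.card = Fintype.card X) {δ : ℝ}
    (hk : (S.filter (fun z => z.2 ≠ G z.1)).card = 0 ∨
      ((∀ y, y ≠ 0 → ss β N y ≤ (1 - δ) * N.card) ∧
      (∀ y, y ≠ 0 → -((1 - δ) * N.card) ≤ 3 * ss β N y) ∧
      (132 * D + 128) * ((S.filter (fun z => z.2 ≠ G z.1)).card : ℝ) < δ * N.card)) :
    ∃ v, v ≠ 0 ∧ ∃ u, 2 * r ≤ |tr β S v u| := by
  by_contra hcon
  push Not at hcon
  set Γ : Finset (X × X) := univ.image (fun x => (x, G x)) with hΓ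
  have hinj : Function.Injective (fun x : X => (x, G x)) := fun x y h => congrArg Prod.fst h
  have hΓc : Γ.card = Fintype.card X := by
    rw [hΓ, Finset.card_image_of_injective _ hinj, Finset.card_univ]
  have hΓm : ∀ z : X × X, z ∈ Γ ↔ z.2 = G z.1 := by
    intro z
    rw [hΓ, Finset.mem_image]
    constructor
    · rintro ⟨x, -, rfl⟩; rfl
    · intro h
      exact ⟨z.1, Finset.mem_univ _, Prod.ext rfl h.symm⟩
  have hB : S.filter (fun z => z.2 ≠ G z.1) = S \ Γ := by
    ext z
    rw [Finset.mem_filter, Finset.mem_sdiff, hΓm]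
  rw [hB] at hk
  have hAB : (Γ \ S).card = (S \ Γ).card := Finset.card_sdiff_comm (hΓc.trans hS.symm)
  have hWa : ∀ v u, Wa β G v u = tr β Γ v u := by
    intro v u
    unfold Wa tr
    rw [hΓ, Finset.sum_image (fun x _ y _ h => hinj h)]
  have hsplit : ∀ v u, tr β S v u = Wa β G v u + (tr β (S \ Γ) v u - tr β (Γ \ S) v u) := by
    intro v u
    rw [hWa]
    unfold tr
    have e1 := Finset.sum_inter_add_sum_sdiff S Γ (fun z : X × X => β v z.2 * β u z.1)
    have e2 := Finset.sum_inter_add_sum_sdiff Γ S (fun z : X × X => β v z.2 * β u z.1)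
    rw [Finset.inter_comm Γ S] at e2
    linarith
  rcases Nat.eq_zero_or_pos (S \ Γ).card with h0 | hpos
  · have hA0 : Γ \ S = ∅ := by
      rw [← Finset.card_eq_zero, hAB, h0]
    have hB0 : S \ Γ = ∅ := Finset.card_eq_zero.mp h0
    have hNc := s.card_N p
    have hN : N.Nonempty := by
      rw [Finset.nonempty_iff_ne_empty]
      rintro rfl
      simp only [Finset.card_empty, Nat.cast_zero, mul_zero] at hNc
      nlinarith
    obtain ⟨v, hv⟩ := hN
    have hv0 : v ≠ 0 := fun h => s.zero (h ▸ hv)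
    have hex : ∃ u, Wa β G v u ^ 2 ≠ 0 := by
      by_contra hc
      push Not at hc
      have := p.second G v
      simp_rw [hc] at this
      rw [Finset.sum_const_zero] at this
      have h4 : 0 < r ^ 4 := pow_pos p.rpos 4
      linarith
    obtain ⟨u, hu⟩ := hex
    have h4 : Wa β G v u ^ 2 = 4 * r ^ 2 := (s.semi v hv u).resolve_left hu
    have h5 := hcon v hv0 u
    rw [hsplit, hA0, hB0] at h5
    have e : tr β (∅ : Finset (X × X)) v u = 0 := by unfold tr; simp
    rw [e, sub_zero, add_zero] at h5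
    have h6 : |Wa β G v u| ^ 2 < (2 * r) ^ 2 := by
      have := abs_nonneg (Wa β G v u)
      nlinarith
    rw [sq_abs, h4] at h6
    nlinarith
  · rcases hk with h0 | ⟨hk1, hk2, hk3⟩
    · omega
    · have hBm : ∀ z ∈ S \ Γ, G z.1 + z.2 ≠ 0 := by
        intro z hz h
        rw [Finset.mem_sdiff, hΓm] at hz
        exact hz.2 (p.eq_of h).symm
      have := s.main p hD (Γ \ S) (S \ Γ)
        (fun z hz => (hΓm z).mp (Finset.mem_sdiff.mp hz).1) hAB
        (fun v hv u => by rw [← hsplit]; exact hcon v hv u)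
        (fun z hz => hk1 _ (hBm z hz)) (fun z hz => hk2 _ (hBm z hz)) (by omega)
      rw [hAB] at this
      linarith

end

/-! ### The space `F_2^n` -/

/-- real sign -/
noncomputable def sR (a : ZMod 2) : ℝ := ((LD.sg a : ℤ) : ℝ)

lemma sR_add (a b : ZMod 2) : sR (a + b) = sR a * sR b := by
  unfold sR; rw [LD.sg_add]; push_cast; rfl

lemma sR_sq (a : ZMod 2) : sR a * sR a = 1 := by
  unfold sR; exact_mod_cast LD.sg_mul_self a

lemma sR_zero : sR 0 = 1 := by unfold sR; rw [LD.sg_zero]; norm_num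

lemma sR_one : sR 1 = -1 := by unfold sR; rw [LD.sg_one]; norm_num

/-- the standard pairing on `F_2^n` -/
noncomputable def bE (n : ℕ) (v x : Fin n → ZMod 2) : ℝ := sR (v ⬝ᵥ x)

lemma sum_bE {n : ℕ} {u : Fin n → ZMod 2} (hu : u ≠ 0) : ∑ x, bE n u x = 0 := by
  have h := LD.char_sum u
  rw [if_neg hu] at h
  unfold bE sR
  exact_mod_cast h

lemma sqrt_card {n : ℕ} (he : Even n) : ((2 : ℝ) ^ (n / 2)) ^ 2 = 2 ^ n := by
  rw [← pow_mul, Nat.div_mul_cancel he.two_dvd]

lemma paiE {n : ℕ} (he : Even n) : Pai (Fin n → ZMod 2) (bE n) (2 ^ (n / 2)) where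
  add_l u v x := by unfold bE; rw [add_dotProduct, sR_add]
  add_r u x y := by unfold bE; rw [dotProduct_add, sR_add]
  sq u x := sR_sq _
  sum_r u hu := sum_bE hu
  sum_l x hx := by
    have := sum_bE hx
    unfold bE at this ⊢
    simp_rw [dotProduct_comm _ x]
    exact this
  char2 x := LD.vadd_self x
  card := by
    rw [sqrt_card he]
    simp
  rpos := by positivity

/-- a character of `F_2^n` is given by a dot product -/
lemma char_dot {n : ℕ} (h : (Fin n → ZMod 2) → ℝ) (hadd : ∀ x y, h (x + y) = h x * h y)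
    (hv : ∀ x, h x * h x = 1) : ∃ a : Fin n → ZMod 2, ∀ x, h x = sR (a ⬝ᵥ x) := by
  classical
  have hc : ∀ x, h x = 1 ∨ h x = -1 := fun x => mul_self_eq_one_iff.mp (hv x)
  obtain ⟨a, ha⟩ := LD.additive_dot (fun x => if h x = 1 then 0 else 1) (by
    intro x y
    rcases hc x with h1 | h1 <;> rcases hc y with h2 | h2 <;>
      (simp only [hadd, h1, h2]; norm_num; try decide))
  refine ⟨a, fun x => ?_⟩
  have := ha x
  rw [← this]
  rcases hc x with h1 | h1
  · rw [h1, if_pos rfl, sR_zero]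
  · rw [h1, if_neg (by norm_num), sR_one]

/-- transfer -/
theorem transfer {n : ℕ} (he : Even n) (hn : 0 < n) {X : Type} [AddCommGroup X] [Fintype X]
    [DecidableEq X] {β : X → X → ℝ} {r : ℝ} (p : Pai X β r) (hrn : r = 2 ^ (n / 2))
    (F : (Fin n → ZMod 2) → (Fin n → ZMod 2))
    (L : ((Fin n → ZMod 2) × (Fin n → ZMod 2)) ≃+ X × X) (a b : X) (v u : X) (hv : v ≠ 0)
    (h : 2 * r ≤ |tr β (univ.image fun x => ((L (x, F x)).1 + a, (L (x, F x)).2 + b)) v u|) :
    ∃ v : Fin n → ZMod 2, v ≠ 0 ∧ ∃ (a : Fin n → ZMod 2) (c : ZMod 2),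
      (Finset.univ.filter
        (fun x : Fin n → ZMod 2 => v ⬝ᵥ F x ≠ a ⬝ᵥ x + c)).card ≤ 2 ^ (n - 1) - 2 ^ (n / 2) := by
  have hinj : Function.Injective (fun x => ((L (x, F x)).1 + a, (L (x, F x)).2 + b)) := by
    intro x y hxy
    have h1 : L (x, F x) = L (y, F y) := by
      have e1 : (L (x, F x)).1 + a = (L (y, F y)).1 + a := congrArg Prod.fst hxy
      have e2 : (L (x, F x)).2 + b = (L (y, F y)).2 + b := congrArg Prod.snd hxy
      exact Prod.ext (add_right_cancel e1) (add_right_cancel e2)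
    exact congrArg Prod.fst (L.injective h1)
  -- the two characters
  obtain ⟨a', ha'⟩ := char_dot (fun x : Fin n → ZMod 2 => β v (L (x, 0)).2 * β u (L (x, 0)).1)
    (fun x y => by
      have : L (x + y, 0) = L (x, 0) + L (y, 0) := by rw [← map_add]; simp
      simp only [this, Prod.snd_add, Prod.fst_add, p.add_r]
      ring)
    (fun x => by
      have h1 := p.sq v (L (x, 0)).2
      have h2 := p.sq u (L (x, 0)).1
      linear_combination (β u (L (x, 0)).1 * β u (L (x, 0)).1) * h1 + h2)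
  obtain ⟨v', hv'⟩ := char_dot (fun y : Fin n → ZMod 2 => β v (L (0, y)).2 * β u (L (0, y)).1)
    (fun x y => by
      have : L (0, x + y) = L (0, x) + L (0, y) := by rw [← map_add]; simp
      simp only [this, Prod.snd_add, Prod.fst_add, p.add_r]
      ring)
    (fun x => by
      have h1 := p.sq v (L (0, x)).2
      have h2 := p.sq u (L (0, x)).1
      linear_combination (β u (L (0, x)).1 * β u (L (0, x)).1) * h1 + h2)
  have hxy : ∀ x y : Fin n → ZMod 2, β v (L (x, y)).2 * β u (L (x, y)).1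
      = sR (a' ⬝ᵥ x) * sR (v' ⬝ᵥ y) := by
    intro x y
    have : L (x, y) = L (x, 0) + L (0, y) := by rw [← map_add]; simp
    have h1 := ha' x
    have h2 := hv' y
    rw [← h1, ← h2, this, Prod.snd_add, Prod.fst_add, p.add_r, p.add_r]
    ring
  have htr : tr β (univ.image fun x => ((L (x, F x)).1 + a, (L (x, F x)).2 + b)) v u
      = (β v b * β u a) * ∑ x, sR (v' ⬝ᵥ F x + a' ⬝ᵥ x) := by
    unfold tr
    rw [Finset.sum_image (fun x _ y _ hxy => hinj hxy), Finset.mul_sum]
    refine Finset.sum_congr rfl fun x _ => ?_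
    simp only
    rw [p.add_r, p.add_r, sR_add]
    have := hxy x (F x)
    linear_combination (β v b * β u a) * this
  have habs : |β v b * β u a| = 1 := by
    rcases p.cases v b with h1 | h1 <;> rcases p.cases u a with h2 | h2 <;> rw [h1, h2] <;>
      norm_num
  rw [htr, abs_mul, habs, one_mul] at h
  have hW : ∑ x, sR (v' ⬝ᵥ F x + a' ⬝ᵥ x) = ((LD.W (fun x => v' ⬝ᵥ F x) a' : ℤ) : ℝ) := by
    unfold LD.W sR
    push_cast
    rfl
  have hr0 := p.rpos
  have hv'0 : v' ≠ 0 := by
    rintro rfl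
    simp only [zero_dotProduct, zero_add] at h
    by_cases ha0 : a' = 0
    · subst ha0
      -- the character of `X × X` is trivial
      have htriv : ∀ z : X × X, β v z.2 * β u z.1 = 1 := by
        intro z
        have h1 := hxy (L.symm z).1 (L.symm z).2
        simp only [zero_dotProduct, sR_zero, mul_one, Prod.mk.eta, AddEquiv.apply_symm_apply] at h1
        exact h1
      have h2 : ∀ y : X, β v y = 1 := by
        intro y
        have := htriv (0, y)
        simpa [p.zero_r] using this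
      have h3 := p.sum_r v hv
      simp_rw [h2] at h3
      rw [Finset.sum_const, Finset.card_univ, nsmul_eq_mul, mul_one, p.card] at h3
      have := p.r2
      linarith
    · have := sum_bE (n := n) ha0
      unfold bE at this
      rw [this, abs_zero] at h
      linarith
  refine ⟨v', hv'0, a', ?_⟩
  by_contra hcon
  push Not at hcon
  -- numerical bounds
  have hpow : 2 ^ (n / 2) ≤ 2 ^ (n - 1) := by
    apply Nat.pow_le_pow_right (by norm_num)
    obtain ⟨m, hm⟩ := he
    omega
  have ht : 2 * (((2 ^ (n - 1) - 2 ^ (n / 2) : ℕ)) : ℤ) = 2 ^ n - 2 * 2 ^ (n / 2) := by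
    rw [Nat.cast_sub hpow]
    push_cast
    have : (2 : ℤ) ^ n = 2 * 2 ^ (n - 1) := by
      rw [← pow_succ']
      congr 1
      omega
    rw [this]
    ring
  have e0 := LD.card_ne (fun x => v' ⬝ᵥ F x) a' 0
  have e1 := LD.card_ne (fun x => v' ⬝ᵥ F x) a' 1
  rw [LD.sg_zero] at e0
  rw [LD.sg_one] at e1
  have h0' : ((2 ^ (n - 1) - 2 ^ (n / 2) : ℕ) : ℤ) <
      (((univ.filter (fun x => v' ⬝ᵥ F x ≠ a' ⬝ᵥ x + 0)).card : ℕ) : ℤ) := by
    exact_mod_cast hcon 0
  have h1' : ((2 ^ (n - 1) - 2 ^ (n / 2) : ℕ) : ℤ) <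
      (((univ.filter (fun x => v' ⬝ᵥ F x ≠ a' ⬝ᵥ x + 1)).card : ℕ) : ℤ) := by
    exact_mod_cast hcon 1
  have hlt : |LD.W (fun x => v' ⬝ᵥ F x) a'| < 2 * 2 ^ (n / 2) := by
    rw [abs_lt]
    constructor <;> linarith
  rw [hW, ← Int.cast_abs, hrn] at h
  have : ((|LD.W (fun x => v' ⬝ᵥ F x) a'| : ℤ) : ℝ) < 2 * 2 ^ (n / 2) := by
    exact_mod_cast hlt
  linarith

end Pool.MP_39d092_co.GB
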