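import Pool.Agent.Work.MP_39d092_co.GBFin
import Pool.Agent.Work.MP_39d092_co.GBAna

set_option autoImplicit false

/-!
# MP_39d092_co, stability: the general theorem on `F_2^n` and the Gold functions
-/

namespace Pool.MP_39d092_co.GB
open Finset Matrix

lemma filter_image_card {α β : Type} [Fintype α] [DecidableEq β] (f : α → β)
    (hf : Function.Injective f) (P : β → Prop) [DecidablePred P] :
    ((univ.image f).filter P).card = (univ.filter (fun x => P (f x))).card := by
  rw [Finset.filter_image, Finset.card_image_of_injective _ hf]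

/-- the general theorem -/
theorem general {n : ℕ} (he : Even n) (hn : 0 < n) (G : (Fin n → ZMod 2) → (Fin n → ZMod 2))
    (D : ℕ) (δ : ℝ)
    (h1 : ∀ v : Fin n → ZMod 2, v ≠ 0 → (∀ u, LD.W (fun x => v ⬝ᵥ G x) u ^ 2 = 2 ^ n) ∨
      (∀ u, LD.W (fun x => v ⬝ᵥ G x) u ^ 2 = 0 ∨ LD.W (fun x => v ⬝ᵥ G x) u ^ 2 = 2 ^ (n + 2)))
    (h2 : ∀ e y : Fin n → ZMod 2, e ≠ 0 → (univ.filter (fun x => G x + G (x + e) = y)).card ≤ D)
    (N : Finset (Fin n → ZMod 2))
    (hN : ∀ v, v ∈ N ↔ v ≠ 0 ∧ ¬ ∀ u, LD.W (fun x => v ⬝ᵥ G x) u ^ 2 = 2 ^ n)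
    (h3 : ∀ y : Fin n → ZMod 2, y ≠ 0 →
      δ * N.card ≤ 2 * ((N.filter (fun v => v ⬝ᵥ y = 1)).card : ℝ) ∧
      6 * ((N.filter (fun v => v ⬝ᵥ y = 1)).card : ℝ) ≤ (4 - δ) * N.card)
    (L : ((Fin n → ZMod 2) × (Fin n → ZMod 2)) ≃+ (Fin n → ZMod 2) × (Fin n → ZMod 2))
    (a b : Fin n → ZMod 2) (F : (Fin n → ZMod 2) → (Fin n → ZMod 2))
    (hk : (396 * D + 384) *
      ((univ.filter (fun x => (L (x, F x)).2 + b ≠ G ((L (x, F x)).1 + a))).card : ℝ) <
        δ * (2 ^ n - 1)) :
    ∃ v : Fin n → ZMod 2, v ≠ 0 ∧ ∃ (a : Fin n → ZMod 2) (c : ZMod 2),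
      (Finset.univ.filter
        (fun x : Fin n → ZMod 2 => v ⬝ᵥ F x ≠ a ⬝ᵥ x + c)).card ≤ 2 ^ (n - 1) - 2 ^ (n / 2) := by
  classical
  have p := paiE he
  have hrr : ((2 : ℝ) ^ (n / 2)) ^ 2 = 2 ^ n := sqrt_card he
  have hWW : ∀ v u, Wa (bE n) G v u = ((LD.W (fun x => v ⬝ᵥ G x) u : ℤ) : ℝ) := by
    intro v u
    unfold Wa LD.W bE
    push_cast
    refine Finset.sum_congr rfl fun x _ => ?_
    rw [← sR_add]; rfl
  have s : Semi (bE n) (2 ^ (n / 2)) G N D := by
    refine ⟨fun h => ((hN 0).mp h).1 rfl, ?_, ?_, h2⟩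
    · intro v hv hvN u
      have h4 : ∀ u, LD.W (fun x => v ⬝ᵥ G x) u ^ 2 = 2 ^ n := by
        by_contra hcon
        exact hvN ((hN v).mpr ⟨hv, hcon⟩)
      rw [hWW, hrr]
      exact_mod_cast h4 u
    · intro v hv u
      obtain ⟨hv0, hvn⟩ := (hN v).mp hv
      have h4 := (h1 v hv0).resolve_left hvn u
      rw [hWW, hrr]
      rcases h4 with h | h
      · left; exact_mod_cast h
      · right
        have e : (4 : ℝ) * 2 ^ n = 2 ^ (n + 2) := by rw [pow_add]; ring
        rw [e]
        exact_mod_cast h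
  have hinj : Function.Injective (fun x => ((L (x, F x)).1 + a, (L (x, F x)).2 + b)) := by
    intro x y hxy
    have h1 : L (x, F x) = L (y, F y) := by
      have e1 : (L (x, F x)).1 + a = (L (y, F y)).1 + a := congrArg Prod.fst hxy
      have e2 : (L (x, F x)).2 + b = (L (y, F y)).2 + b := congrArg Prod.snd hxy
      exact Prod.ext (add_right_cancel e1) (add_right_cancel e2)
    exact congrArg Prod.fst (L.injective h1)
  have hr1 : (1 : ℝ) < 2 ^ (n / 2) := by
    apply one_lt_pow₀ (by norm_num)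
    obtain ⟨m, hm⟩ := he
    omega
  have hD : 1 ≤ D := by
    have hne : ∃ e : Fin n → ZMod 2, e ≠ 0 := ⟨fun _ => 1, fun h => by
      have := congrFun h ⟨0, hn⟩
      simp at this⟩
    obtain ⟨e, he'⟩ := hne
    refine le_trans ?_ (h2 e (G 0 + G (0 + e)) he')
    rw [Nat.succ_le_iff, Finset.card_pos]
    exact ⟨0, Finset.mem_filter.mpr ⟨Finset.mem_univ _, rfl⟩⟩
  have hss : ∀ y, ss (bE n) N y
      = N.card - 2 * ((N.filter (fun v => v ⬝ᵥ y = 1)).card : ℝ) := by
    intro y
    unfold ss bE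
    have : ∀ v ∈ N, sR (v ⬝ᵥ y) = 1 - 2 * (if v ⬝ᵥ y = 1 then 1 else 0) := by
      intro v _
      rcases LD.two_cases (v ⬝ᵥ y) with h | h
      · rw [h, sR_zero, if_neg (by decide)]; ring
      · rw [h, sR_one, if_pos rfl]; ring
    rw [Finset.sum_congr rfl this, Finset.sum_sub_distrib, ← Finset.mul_sum, Finset.sum_boole]
    simp
  have hcN := s.card_N p
  rw [hrr] at hcN
  obtain ⟨v, hv, u, hu⟩ := s.exists_large p hr1 hD
    (univ.image fun x => ((L (x, F x)).1 + a, (L (x, F x)).2 + b))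
    (by rw [Finset.card_image_of_injective _ hinj, Finset.card_univ]) (δ := δ) (by
      right
      refine ⟨fun y hy => ?_, fun y hy => ?_, ?_⟩
      · rw [hss]; have := (h3 y hy).1; linarith
      · rw [hss]; have := (h3 y hy).2; linarith
      · rw [filter_image_card _ hinj]
        have h0 : (0 : ℝ) ≤ (396 * D + 384) *
          ((univ.filter (fun x => (L (x, F x)).2 + b ≠ G ((L (x, F x)).1 + a))).card : ℝ) := by
          positivity
        have h2n : (1 : ℝ) < 2 ^ n := one_lt_pow₀ (by norm_num) (by omega)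
        have hδ : 0 < δ := by
          by_contra hcon
          push Not at hcon
          have : δ * ((2 : ℝ) ^ n - 1) ≤ 0 :=
            mul_nonpos_of_nonpos_of_nonneg hcon (by linarith)
          linarith
        have := mul_le_mul_of_nonneg_left hcN hδ.le
        linarith)
  exact transfer he hn p rfl F L a b v u hv hu

section
variable {K : Type} [Field K] [Fintype K] [DecidableEq K] {ψ : K → ℝ} {G : K → K} {ω : K} {r : ℝ}

lemma GD.pai (g : GD K ψ G ω r) : Pai K (fun v x => ψ (v * x)) r where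
  add_l u v x := by rw [add_mul, g.add]
  add_r u x y := by rw [mul_add, g.add]
  sq u x := g.sq _
  sum_r u hu := g.sum u hu
  sum_l x hx := by simp_rw [mul_comm _ x]; exact g.sum x hx
  char2 := g.char2
  card := g.card
  rpos := g.rpos

/-- the semibent components of the Gold function -/
noncomputable def NG (G : K → K) : Finset K := open Classical in
  univ.filter (fun v => ∃ d, v * G d = 1)

lemma mem_NG {v : K} : v ∈ NG G ↔ ∃ d, v * G d = 1 := by
  classical
  unfold NG
  simp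

lemma GD.NG_eq (g : GD K ψ G ω r) {v : K} (hv : v ∈ NG G) : ∃ d, d ≠ 0 ∧ v = (G d)⁻¹ := by
  obtain ⟨d, hd⟩ := mem_NG.mp hv
  refine ⟨d, ?_, eq_inv_of_mul_eq_one_left hd⟩
  rintro rfl
  rw [(g.zero 0).mpr rfl, mul_zero] at hd
  exact zero_ne_one hd

lemma GD.semi (g : GD K ψ G ω r) : Semi (fun v x => ψ (v * x)) r G (NG G) 2 := by
  have hW : ∀ v u, Wa (fun v x => ψ (v * x)) G v u = Wt ψ G v u := by
    intro v u
    unfold Wa Wt
    exact Finset.sum_congr rfl fun x _ => (g.add _ _).symm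
  refine ⟨?_, ?_, ?_, ?_⟩
  · intro h
    obtain ⟨d, hd⟩ := mem_NG.mp h
    rw [zero_mul] at hd
    exact zero_ne_one hd
  · intro v hv hvN u
    rw [hW, g.W_sq hv]
    have : ∀ e : K, ψ (u * e) * (if e = 0 ∨ v * G e = 1 then r ^ 2 else 0)
        = if e = 0 then r ^ 2 else 0 := by
      intro e
      by_cases h0 : e = 0
      · subst h0
        rw [if_pos (Or.inl rfl), if_pos rfl, mul_zero, g.psi0, one_mul]
      · rw [if_neg, if_neg h0, mul_zero]
        rintro (h' | h')
        · exact h0 h'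
        · exact hvN (mem_NG.mpr ⟨e, h'⟩)
    simp_rw [this]
    rw [Finset.sum_ite_eq' Finset.univ (0 : K)]
    simp
  · intro v hv u
    obtain ⟨d, hd, rfl⟩ := g.NG_eq hv
    rw [hW, g.W_sq_V hd]
    rcases g.wt_cases d u with h | h
    · left; rw [h, mul_zero]
    · right; rw [h, mul_one]
  · intro e y he
    by_cases h : (univ.filter (fun x => G x + G (x + e) = y)).Nonempty
    · obtain ⟨x, hx⟩ := h
      rw [Finset.mem_filter] at hx
      have hsub : univ.filter (fun x => G x + G (x + e) = y) ⊆ {x, x + e} := by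
        intro z hz
        rw [Finset.mem_filter] at hz
        rcases g.apn x z e he (hx.2.trans hz.2.symm) with h | h
        · rw [h]; simp
        · rw [h]; simp
      exact (Finset.card_le_card hsub).trans Finset.card_le_two
    · rw [Finset.not_nonempty_iff_eq_empty] at h
      rw [h]
      simp

lemma GD.three (g : GD K ψ G ω r) (f : K → ℝ) :
    ∑ d ∈ (univ : Finset K).erase 0, f (G d)⁻¹ = 3 * ∑ v ∈ NG G, f v := by
  have hmaps : ∀ d ∈ (univ : Finset K).erase 0, (G d)⁻¹ ∈ NG G := by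
    intro d hd
    have hd0 := Finset.ne_of_mem_erase hd
    exact mem_NG.mpr ⟨d, inv_mul_cancel₀ fun h => hd0 ((g.zero d).mp h)⟩
  rw [← Finset.sum_fiberwise_of_maps_to hmaps, Finset.mul_sum]
  refine Finset.sum_congr rfl fun v hv => ?_
  obtain ⟨d, hd, rfl⟩ := g.NG_eq hv
  have h1 : ∀ e ∈ ((univ : Finset K).erase 0).filter (fun e => (G e)⁻¹ = (G d)⁻¹),
      f (G e)⁻¹ = f (G d)⁻¹ := by
    intro e he
    rw [(Finset.mem_filter.mp he).2]
  rw [Finset.sum_congr rfl h1, Finset.sum_const, nsmul_eq_mul]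
  have h2 : ((univ : Finset K).erase 0).filter (fun e => (G e)⁻¹ = (G d)⁻¹)
      = {d, d * ω, d * ω ^ 2} := by
    obtain ⟨d0, d1, d2, d3, d4⟩ := g.dist hd
    ext e
    rw [Finset.mem_filter, Finset.mem_erase, _root_.inv_inj, g.Gw d e hd]
    simp only [Finset.mem_univ, and_true, Finset.mem_insert, Finset.mem_singleton]
    constructor
    · exact fun h => h.2
    · intro h
      refine ⟨?_, h⟩
      rcases h with rfl | rfl | rfl
      · exact hd
      · exact d0
      · exact d1
  have h3 : ({d, d * ω, d * ω ^ 2} : Finset K).card = 3 := by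
    obtain ⟨d0, d1, d2, d3, d4⟩ := g.dist hd
    rw [Finset.card_eq_three]
    exact ⟨d, d * ω, d * ω ^ 2, d2.symm, d3.symm, d4.symm, rfl⟩
  rw [h2, h3]
  norm_num

lemma GD.card_NG (g : GD K ψ G ω r) : 3 * ((NG G).card : ℝ) = r ^ 2 - 1 := by
  have h := g.three (fun _ => 1)
  rw [Finset.sum_const, Finset.sum_const, nsmul_eq_mul, nsmul_eq_mul,
    Finset.card_erase_of_mem (Finset.mem_univ _), Finset.card_univ,
    Nat.cast_sub Fintype.card_pos, g.card] at h
  push_cast at h
  linarith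

lemma GD.ss_NG (g : GD K ψ G ω r) {y : K} (hy : y ≠ 0) :
    |3 * ss (fun v x => ψ (v * x)) (NG G) y| ≤ 2 * r + 1 := by
  have h := g.three (fun v => ψ (v * y))
  unfold ss
  rw [← h]
  exact g.sumV hy

end

/-- a numerical fact -/
lemma numeric {m k : ℕ} (hk : 0 < k) (h : 1200 * k ≤ (2 ^ m) ^ 2) :
    1176 * k + 6 * 2 ^ m + 4 < (2 ^ m) ^ 2 := by
  rcases Nat.lt_or_ge m 9 with h9 | h9
  · interval_cases m <;> norm_num at h ⊢ <;> omega
  · have h1 : 2 ^ 9 ≤ 2 ^ m := Nat.pow_le_pow_right (by norm_num) h9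
    set r := 2 ^ m
    nlinarith

/-- the theorem for the Gold functions -/
theorem gold {n : ℕ} (he : Even n) (hn : 0 < n) {K : Type} [Field K] [Fintype K]
    [DecidableEq K] (hK : Fintype.card K = 2 ^ n) {i : ℕ} (hi : Nat.Coprime i n)
    (L : ((Fin n → ZMod 2) × (Fin n → ZMod 2)) ≃+ K × K) (a b : K)
    (F : (Fin n → ZMod 2) → (Fin n → ZMod 2))
    (hk : 1200 * (univ.filter
      (fun x => (L (x, F x)).2 + b ≠ ((L (x, F x)).1 + a) ^ (2 ^ i + 1))).card ≤ 2 ^ n) :
    ∃ v : Fin n → ZMod 2, v ≠ 0 ∧ ∃ (a : Fin n → ZMod 2) (c : ZMod 2),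
      (Finset.univ.filter
        (fun x : Fin n → ZMod 2 => v ⬝ᵥ F x ≠ a ⬝ᵥ x + c)).card ≤ 2 ^ (n - 1) - 2 ^ (n / 2) := by
  classical
  obtain ⟨T, hT, hT1⟩ := exists_trace hn hK
  obtain ⟨ω, hω⟩ := exists_omega hn he hK
  have g := gold_GD hn he hK hi T hT hT1 ω hω
  have p := g.pai
  have s := g.semi
  have hinj : Function.Injective (fun x => ((L (x, F x)).1 + a, (L (x, F x)).2 + b)) := by
    intro x y hxy
    have h1 : L (x, F x) = L (y, F y) := by
      have e1 : (L (x, F x)).1 + a = (L (y, F y)).1 + a := congrArg Prod.fst hxy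
      have e2 : (L (x, F x)).2 + b = (L (y, F y)).2 + b := congrArg Prod.snd hxy
      exact Prod.ext (add_right_cancel e1) (add_right_cancel e2)
    exact congrArg Prod.fst (L.injective h1)
  have hr1 : (1 : ℝ) < 2 ^ (n / 2) := by
    apply one_lt_pow₀ (by norm_num)
    obtain ⟨m, hm⟩ := he
    omega
  set r : ℝ := 2 ^ (n / 2) with hr
  have hr2 : 0 < r ^ 2 - 1 := by nlinarith
  obtain ⟨v, hv, u, hu⟩ := s.exists_large p hr1 (by norm_num)
    (univ.image fun x => ((L (x, F x)).1 + a, (L (x, F x)).2 + b))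
    (by rw [Finset.card_image_of_injective _ hinj, Finset.card_univ, hK]; simp)
    (δ := 1 - 3 * (2 * r + 1) / (r ^ 2 - 1)) (by
      rw [filter_image_card _ hinj]
      rcases Nat.eq_zero_or_pos (univ.filter
        (fun x => (L (x, F x)).2 + b ≠ ((L (x, F x)).1 + a) ^ (2 ^ i + 1))).card with h0 | hpos
      · left; exact h0
      · right
        have hc := g.card_NG
        have e1 : (1 - (1 - 3 * (2 * r + 1) / (r ^ 2 - 1))) *
            ((NG (fun x : K => x ^ (2 ^ i + 1))).card : ℝ) = 2 * r + 1 := by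
          have : ((NG (fun x : K => x ^ (2 ^ i + 1))).card : ℝ) = (r ^ 2 - 1) / 3 := by linarith
          rw [this]
          field_simp
          ring
        refine ⟨fun y hy => ?_, fun y hy => ?_, ?_⟩
        · rw [e1]
          have := g.ss_NG hy
          rw [abs_le] at this
          linarith [this.2]
        · rw [e1]
          have := g.ss_NG hy
          rw [abs_le] at this
          linarith [this.1]
        · have e2 : (1 - 3 * (2 * r + 1) / (r ^ 2 - 1)) *
            ((NG (fun x : K => x ^ (2 ^ i + 1))).card : ℝ)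
            = (r ^ 2 - 1) / 3 - (2 * r + 1) := by linarith
          rw [e2]
          have h5 : (2 ^ (n / 2)) ^ 2 = 2 ^ n := by
            rw [← pow_mul, Nat.div_mul_cancel he.two_dvd]
          rw [← h5] at hk
          have h6 := numeric hpos hk
          have h7 : (1176 * ((univ.filter
            (fun x => (L (x, F x)).2 + b ≠ ((L (x, F x)).1 + a) ^ (2 ^ i + 1))).card : ℝ)
            + 6 * r + 4) < r ^ 2 := by
            rw [hr]
            exact_mod_cast h6
          push_cast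
          linarith)
  exact transfer he hn p rfl F L a b v u hv hu

end Pool.MP_39d092_co.GB
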