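import Mathlib

set_option autoImplicit false

/-!
# MP_39d092_co, stability around functions with bent or semibent components: abstract setting
-/

namespace Pool.MP_39d092_co.GB
open Finset

/-- a perfect pairing with values `1`, `-1` on a group of exponent two with `r ^ 2` elements -/
structure Pai (X : Type) [AddCommGroup X] [Fintype X] [DecidableEq X] (β : X → X → ℝ)
    (r : ℝ) : Prop where
  add_l : ∀ u v x, β (u + v) x = β u x * β v x
  add_r : ∀ u x y, β u (x + y) = β u x * β u y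
  sq : ∀ u x, β u x * β u x = 1
  sum_r : ∀ u, u ≠ 0 → ∑ x, β u x = 0
  sum_l : ∀ x, x ≠ 0 → ∑ u, β u x = 0
  char2 : ∀ x : X, x + x = 0
  card : (Fintype.card X : ℝ) = r ^ 2
  rpos : 0 < r

section
variable {X : Type} [AddCommGroup X] [Fintype X] [DecidableEq X] {β : X → X → ℝ} {r : ℝ}

/-- Walsh transform of `G` -/
noncomputable def Wa (β : X → X → ℝ) (G : X → X) (v u : X) : ℝ := ∑ x, β v (G x) * β u x

/-- autocorrelation -/
noncomputable def Au (β : X → X → ℝ) (G : X → X) (v e : X) : ℝ := ∑ z, β v (G z + G (z + e))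

/-- transform of a set -/
noncomputable def tr (β : X → X → ℝ) (P : Finset (X × X)) (v u : X) : ℝ :=
  ∑ p ∈ P, β v p.2 * β u p.1

/-- all components of `G` are bent or semibent, and `G` is differentially `D`-uniform -/
structure Semi (β : X → X → ℝ) (r : ℝ) (G : X → X) (N : Finset X) (D : ℕ) : Prop where
  zero : (0 : X) ∉ N
  bent : ∀ v, v ≠ 0 → v ∉ N → ∀ u, Wa β G v u ^ 2 = r ^ 2
  semi : ∀ v ∈ N, ∀ u, Wa β G v u ^ 2 = 0 ∨ Wa β G v u ^ 2 = 4 * r ^ 2
  unif : ∀ e y, e ≠ 0 → (univ.filter (fun x => G x + G (x + e) = y)).card ≤ D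

lemma Pai.cases (p : Pai X β r) (u x : X) : β u x = 1 ∨ β u x = -1 :=
  mul_self_eq_one_iff.mp (p.sq u x)

lemma Pai.zero_l (p : Pai X β r) (x : X) : β 0 x = 1 := by
  have h := p.add_l 0 0 x
  rw [add_zero] at h
  have := p.sq 0 x
  linarith

lemma Pai.zero_r (p : Pai X β r) (u : X) : β u 0 = 1 := by
  have h := p.add_r u 0 0
  rw [add_zero] at h
  have := p.sq u 0
  linarith

lemma Pai.sum_r' (p : Pai X β r) (u : X) : ∑ x, β u x = if u = 0 then r ^ 2 else 0 := by
  split_ifs with h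
  · subst h
    simp only [p.zero_l]
    rw [← p.card]
    simp
  · exact p.sum_r u h

lemma Pai.sum_l' (p : Pai X β r) (x : X) : ∑ u, β u x = if x = 0 then r ^ 2 else 0 := by
  split_ifs with h
  · subst h
    simp only [p.zero_r]
    rw [← p.card]
    simp
  · exact p.sum_l x h

lemma Pai.eq_of (p : Pai X β r) {x y : X} (h : x + y = 0) : x = y := by
  have h1 : x + y + y = 0 + y := by rw [h]
  rwa [add_assoc, p.char2, add_zero, zero_add] at h1

lemma Pai.add_iff (p : Pai X β r) {x y : X} : x + y = 0 ↔ x = y :=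
  ⟨p.eq_of, fun h => h ▸ p.char2 x⟩

lemma Pai.inv1 (p : Pai X β r) (G : X → X) (v x y : X) :
    ∑ u, Wa β G v u * (β v y * β u x) = r ^ 2 * β v (G x + y) := by
  have h1 : ∀ u, Wa β G v u * (β v y * β u x)
      = ∑ z, β v (G z + y) * β u (z + x) := by
    intro u
    rw [Wa, Finset.sum_mul]
    refine Finset.sum_congr rfl fun z _ => ?_
    rw [p.add_r, p.add_r]
    ring
  simp_rw [h1]
  rw [Finset.sum_comm]
  have h2 : ∀ z, ∑ u, β v (G z + y) * β u (z + x)
      = if z = x then r ^ 2 * β v (G x + y) else 0 := by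
    intro z
    rw [← Finset.mul_sum, p.sum_l']
    by_cases h : z = x
    · subst h
      rw [if_pos (p.char2 z), if_pos rfl]; ring
    · rw [if_neg (fun h' => h (p.eq_of h')), if_neg h]; ring
  simp_rw [h2]
  rw [Finset.sum_ite_eq' Finset.univ x]
  simp

lemma Pai.W_sq (p : Pai X β r) (G : X → X) (v u : X) :
    Wa β G v u ^ 2 = ∑ e, β u e * Au β G v e := by
  rw [pow_two]
  unfold Wa Au
  rw [Finset.sum_mul_sum]
  have h : ∀ x : X, ∑ y : X, β v (G x) * β u x * (β v (G y) * β u y)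
      = ∑ e : X, β u e * β v (G x + G (x + e)) := by
    intro x
    symm
    refine Fintype.sum_equiv (Equiv.addLeft x) _ _ (fun e => ?_)
    simp only [Equiv.coe_addLeft]
    rw [p.add_r, p.add_r u]
    have := p.sq u x
    linear_combination (-β u e * β v (G x) * β v (G (x + e))) * this
  rw [Finset.sum_congr rfl (fun x _ => h x), Finset.sum_comm]
  refine Finset.sum_congr rfl fun e _ => ?_
  rw [← Finset.mul_sum]

lemma Pai.inv2 (p : Pai X β r) (G : X → X) (v e : X) :
    ∑ u, Wa β G v u ^ 2 * β u e = r ^ 2 * Au β G v e := by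
  have h1 : ∀ u, Wa β G v u ^ 2 * β u e = ∑ e', Au β G v e' * β u (e' + e) := by
    intro u
    rw [p.W_sq, Finset.sum_mul]
    refine Finset.sum_congr rfl fun e' _ => ?_
    rw [p.add_r]
    ring
  simp_rw [h1]
  rw [Finset.sum_comm]
  have h2 : ∀ e', ∑ u, Au β G v e' * β u (e' + e)
      = if e' = e then r ^ 2 * Au β G v e else 0 := by
    intro z
    rw [← Finset.mul_sum, p.sum_l']
    by_cases h : z = e
    · subst h
      rw [if_pos (p.char2 z), if_pos rfl]; ring
    · rw [if_neg (fun h' => h (p.eq_of h')), if_neg h]; ring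
  simp_rw [h2]
  rw [Finset.sum_ite_eq' Finset.univ e]
  simp

lemma Pai.Au_zero_r (p : Pai X β r) (G : X → X) (v : X) : Au β G v 0 = r ^ 2 := by
  unfold Au
  simp only [add_zero, p.char2, p.zero_r]
  rw [← p.card]
  simp

lemma Pai.Au_zero_l (p : Pai X β r) (G : X → X) (e : X) : Au β G 0 e = r ^ 2 := by
  unfold Au
  simp only [p.zero_l]
  rw [← p.card]
  simp

lemma Pai.second (p : Pai X β r) (G : X → X) (v : X) : ∑ u, Wa β G v u ^ 2 = r ^ 4 := by
  have h := p.inv2 G v 0
  rw [p.Au_zero_r] at h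
  simp only [p.zero_r, mul_one] at h
  rw [h]; ring

lemma Pai.r2 (p : Pai X β r) : 0 < r ^ 2 := pow_pos p.rpos 2

lemma Pai.Au_bent (p : Pai X β r) {G : X → X} {v e : X} (he : e ≠ 0)
    (h : ∀ u, Wa β G v u ^ 2 = r ^ 2) : Au β G v e = 0 := by
  have h1 := p.inv2 G v e
  simp_rw [h] at h1
  rw [← Finset.mul_sum, p.sum_l e he, mul_zero] at h1
  have := p.r2
  rcases mul_eq_zero.mp h1.symm with h2 | h2
  · linarith
  · exact h2

lemma Pai.Au_sum (p : Pai X β r) (G : X → X) (e Y : X) :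
    ∑ v, β v Y * Au β G v e
      = r ^ 2 * ((univ.filter (fun x => G x + G (x + e) = Y)).card : ℝ) := by
  unfold Au
  simp_rw [Finset.mul_sum]
  rw [Finset.sum_comm]
  have h : ∀ z : X, ∑ v, β v Y * β v (G z + G (z + e))
      = if G z + G (z + e) = Y then r ^ 2 else 0 := by
    intro z
    simp_rw [← p.add_r]
    rw [p.sum_l']
    by_cases hz : G z + G (z + e) = Y
    · rw [if_pos hz, if_pos (by rw [hz]; exact p.char2 Y)]
    · rw [if_neg hz, if_neg (fun h' => hz (p.eq_of h').symm)]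
  simp_rw [h]
  rw [← Finset.sum_filter, Finset.sum_const, nsmul_eq_mul]
  ring

variable {G : X → X} {N : Finset X} {D : ℕ}

/-- only the zero component and the semibent ones matter -/
lemma Semi.split (s : Semi β r G N D) (p : Pai X β r) {e : X} (he : e ≠ 0) (f : X → ℝ → ℝ)
    (hf : ∀ v, f v 0 = 0) :
    ∑ v, f v (Au β G v e) = f 0 (r ^ 2) + ∑ v ∈ N, f v (Au β G v e) := by
  have h1 : ∑ v ∈ insert 0 N, f v (Au β G v e) = ∑ v, f v (Au β G v e) := by
    refine Finset.sum_subset (Finset.subset_univ _) fun v _ hv => ?_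
    rw [Finset.mem_insert, not_or] at hv
    rw [p.Au_bent he (s.bent v hv.1 hv.2), hf]
  rw [← h1, Finset.sum_insert s.zero, p.Au_zero_l]

/-- the sum over the semibent components -/
lemma Semi.Au_N (s : Semi β r G N D) (p : Pai X β r) {e : X} (he : e ≠ 0) (Y : X) :
    ∑ v ∈ N, β v Y * Au β G v e
      = r ^ 2 * (((univ.filter (fun x => G x + G (x + e) = Y)).card : ℝ) - 1) := by
  have h1 := s.split p he (fun v t => β v Y * t) (fun v => mul_zero _)
  have h2 := p.Au_sum G e Y
  rw [h2, p.zero_l] at h1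
  linarith

lemma Pai.fourth_W (p : Pai X β r) (G : X → X) (v : X) :
    ∑ u, Wa β G v u ^ 4 = r ^ 2 * ∑ e, Au β G v e ^ 2 := by
  have h1 : ∀ u, Wa β G v u ^ 4 = ∑ e, Au β G v e * (Wa β G v u ^ 2 * β u e) := by
    intro u
    have : Wa β G v u ^ 4 = Wa β G v u ^ 2 * Wa β G v u ^ 2 := by ring
    rw [this]
    nth_rewrite 2 [p.W_sq]
    rw [Finset.mul_sum]
    exact Finset.sum_congr rfl fun e _ => by ring
  simp_rw [h1]
  rw [Finset.sum_comm, Finset.mul_sum]
  refine Finset.sum_congr rfl fun e _ => ?_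
  rw [← Finset.mul_sum, p.inv2]
  ring

lemma Semi.Au_sq (s : Semi β r G N D) (p : Pai X β r) {v : X} (hv : v ∈ N) :
    ∑ e ∈ (univ : Finset X).erase 0, Au β G v e ^ 2 = 3 * r ^ 4 := by
  have h1 : ∑ u, Wa β G v u ^ 4 = 4 * r ^ 2 * ∑ u, Wa β G v u ^ 2 := by
    rw [Finset.mul_sum]
    refine Finset.sum_congr rfl fun u _ => ?_
    have e4 : Wa β G v u ^ 4 = Wa β G v u ^ 2 * Wa β G v u ^ 2 := by ring
    rw [e4]
    rcases s.semi v hv u with h | h
    · rw [h]; ring
    · rw [h]
  rw [p.second, p.fourth_W, ← Finset.add_sum_erase _ _ (Finset.mem_univ (0 : X)),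
    p.Au_zero_r] at h1
  have := p.r2
  have h2 : r ^ 2 * (∑ e ∈ (univ : Finset X).erase 0, Au β G v e ^ 2) = r ^ 2 * (3 * r ^ 4) := by
    linarith
  exact mul_left_cancel₀ (ne_of_gt this) h2

lemma Pai.Au_sq_lower (p : Pai X β r) (G : X → X) {e : X} (he : e ≠ 0) :
    2 * r ^ 4 ≤ ∑ v, Au β G v e ^ 2 := by
  have h1 : ∀ v, Au β G v e ^ 2
      = ∑ x, ∑ y, β v ((G x + G (x + e)) + (G y + G (y + e))) := by
    intro v
    rw [pow_two]
    unfold Au
    rw [Finset.sum_mul_sum]
    exact Finset.sum_congr rfl fun x _ => Finset.sum_congr rfl fun y _ => (p.add_r _ _ _).symm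
  simp_rw [h1]
  rw [Finset.sum_comm]
  have h2 : ∀ x, 2 * r ^ 2 ≤ ∑ v, ∑ y, β v ((G x + G (x + e)) + (G y + G (y + e))) := by
    intro x
    rw [Finset.sum_comm]
    simp_rw [p.sum_l', p.add_iff]
    rw [← Finset.sum_filter, Finset.sum_const, nsmul_eq_mul]
    have h3 : ({x, x + e} : Finset X) ⊆
        univ.filter (fun y => G x + G (x + e) = G y + G (y + e)) := by
      intro y hy
      rw [Finset.mem_insert, Finset.mem_singleton] at hy
      rw [Finset.mem_filter]
      refine ⟨Finset.mem_univ _, ?_⟩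
      rcases hy with rfl | rfl
      · rfl
      · rw [add_assoc, p.char2, add_zero, add_comm]
    have h4 : ({x, x + e} : Finset X).card = 2 := by
      rw [Finset.card_pair]
      intro h
      exact he (left_eq_add.mp h)
    have h5 := Finset.card_le_card h3
    rw [h4] at h5
    have h6 : (2 : ℝ) ≤ ((univ.filter (fun y => G x + G (x + e) = G y + G (y + e))).card : ℝ) := by
      exact_mod_cast h5
    exact mul_le_mul_of_nonneg_right h6 p.r2.le
  have h3 := Finset.sum_le_sum (fun x (_ : x ∈ (univ : Finset X)) => h2 x)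
  rw [Finset.sum_const, nsmul_eq_mul, Finset.card_univ, p.card] at h3
  linarith

/-- at least a third of the components are semibent -/
lemma Semi.card_N (s : Semi β r G N D) (p : Pai X β r) : r ^ 2 - 1 ≤ 3 * (N.card : ℝ) := by
  have h1 : ∑ e ∈ (univ : Finset X).erase 0, ∑ v, Au β G v e ^ 2
      = (r ^ 2 - 1) * r ^ 4 + 3 * r ^ 4 * N.card := by
    have h2 : ∀ e ∈ (univ : Finset X).erase 0, ∑ v, Au β G v e ^ 2
        = r ^ 4 + ∑ v ∈ N, Au β G v e ^ 2 := by
      intro e he
      have := s.split p (Finset.ne_of_mem_erase he) (fun _ t => t ^ 2) (fun _ => by ring)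
      rw [this]
      ring
    rw [Finset.sum_congr rfl h2, Finset.sum_add_distrib, Finset.sum_comm,
      Finset.sum_congr rfl (fun v hv => s.Au_sq p hv), Finset.sum_const, Finset.sum_const,
      nsmul_eq_mul, nsmul_eq_mul, Finset.card_erase_of_mem (Finset.mem_univ _), Finset.card_univ,
      Nat.cast_sub Fintype.card_pos, p.card]
    push_cast
    ring
  have h2 : (r ^ 2 - 1) * (2 * r ^ 4) ≤ ∑ e ∈ (univ : Finset X).erase 0, ∑ v, Au β G v e ^ 2 := by
    have h3 := Finset.sum_le_sum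
      (fun e (he : e ∈ (univ : Finset X).erase 0) => p.Au_sq_lower G (Finset.ne_of_mem_erase he))
    rw [Finset.sum_const, nsmul_eq_mul, Finset.card_erase_of_mem (Finset.mem_univ _),
      Finset.card_univ, Nat.cast_sub Fintype.card_pos, p.card] at h3
    push_cast at h3
    exact h3
  rw [h1] at h2
  have h4 : 0 < r ^ 4 := pow_pos p.rpos 4
  have h5 : r ^ 4 * (r ^ 2 - 1) ≤ r ^ 4 * (3 * (N.card : ℝ)) := by linarith
  exact le_of_mul_le_mul_left h5 h4

/-- the weight -/
noncomputable def ww (β : X → X → ℝ) (r : ℝ) (G : X → X) (v u : X) : ℝ :=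
  Wa β G v u ^ 2 / (4 * r ^ 2)

lemma Pai.W_ww (p : Pai X β r) (G : X → X) (v u : X) :
    Wa β G v u ^ 2 = 4 * r ^ 2 * ww β r G v u := by
  have := p.rpos.ne'
  unfold ww
  field_simp

lemma Semi.ww_cases (s : Semi β r G N D) (p : Pai X β r) {v : X} (hv : v ∈ N) (u : X) :
    ww β r G v u = 0 ∨ ww β r G v u = 1 := by
  have := p.rpos.ne'
  unfold ww
  rcases s.semi v hv u with h | h
  · left; rw [h]; ring
  · right; rw [h]; field_simp

lemma Semi.ww_le (s : Semi β r G N D) (p : Pai X β r) {v : X} (hv : v ∈ N) (u : X) :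
    ww β r G v u ≤ 1 := by
  rcases s.ww_cases p hv u with h | h <;> norm_num [h]

/-- the sum attached to a pair of points -/
noncomputable def ph (β : X → X → ℝ) (r : ℝ) (G : X → X) (N : Finset X) (Y e : X) : ℝ :=
  ∑ v ∈ N, ∑ u, ww β r G v u * (β v Y * β u e)

lemma Pai.ph_eq (p : Pai X β r) (G : X → X) (N : Finset X) (Y e : X) : ph β r G N Y e
    = (∑ v ∈ N, β v Y * Au β G v e) / 4 := by
  unfold ph
  rw [Finset.sum_div]
  refine Finset.sum_congr rfl fun v _ => ?_
  have h1 : ∀ u, ww β r G v u * (β v Y * β u e)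
      = β v Y / (4 * r ^ 2) * (Wa β G v u ^ 2 * β u e) := by
    intro u
    unfold ww
    ring
  simp_rw [h1]
  have := p.rpos.ne'
  rw [← Finset.mul_sum, p.inv2]
  field_simp

/-- the character sum over the semibent components -/
noncomputable def ss (β : X → X → ℝ) (N : Finset X) (Y : X) : ℝ := ∑ v ∈ N, β v Y

lemma Pai.ph_zero (p : Pai X β r) (G : X → X) (N : Finset X) (Y : X) :
    ph β r G N Y 0 = ss β N Y * (r ^ 2 / 4) := by
  rw [p.ph_eq]
  unfold ss
  simp_rw [p.Au_zero_r]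
  rw [← Finset.sum_mul]
  ring

lemma Pai.ss_zero (p : Pai X β r) (N : Finset X) : ss β N 0 = N.card := by
  unfold ss
  simp [p.zero_r]

lemma Semi.ph_ge (s : Semi β r G N D) (p : Pai X β r) {e : X} (he : e ≠ 0) (Y : X) :
    -(r ^ 2 / 4) ≤ ph β r G N Y e := by
  rw [p.ph_eq, s.Au_N p he]
  have h1 := p.r2
  have h2 : (0 : ℝ) ≤ ((univ.filter (fun x => G x + G (x + e) = Y)).card : ℝ) := Nat.cast_nonneg _
  have := mul_nonneg h1.le h2
  linarith

lemma Semi.ph_le (s : Semi β r G N D) (p : Pai X β r) {e : X} (he : e ≠ 0) (Y : X) :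
    ph β r G N Y e ≤ (r ^ 2 / 4) * (D - 1) := by
  rw [p.ph_eq, s.Au_N p he]
  have h1 := p.r2
  have h2 : ((univ.filter (fun x => G x + G (x + e) = Y)).card : ℝ) ≤ D := by
    exact_mod_cast s.unif e Y he
  have := mul_le_mul_of_nonneg_left h2 h1.le
  linarith

end

end Pool.MP_39d092_co.GB
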