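import Pool.Agent.Work.MP_39d092_co.GBPair

set_option autoImplicit false

/-!
# MP_39d092_co, stability around functions with bent or semibent components: main inequality
-/

namespace Pool.MP_39d092_co.GB
open Finset

/-- pointwise inequality -/
lemma pointwise {r w W a b : ℝ} (hr : 0 < r) (hw : w = 0 ∨ w = 1) (hW : W ^ 2 = 4 * r ^ 2 * w)
    (h : |W + (b - a)| < 2 * r) :
    w * (a * (a - b)) ≤ (3 / 16) * (W * (a - b)) + (8 / r ^ 2) * (w * a ^ 4) := by
  rcases hw with rfl | rfl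
  · have : W = 0 := by
      rw [mul_zero] at hW
      exact pow_eq_zero_iff (by norm_num) |>.mp hW
    rw [this]
    simp
  · have key : ∀ t c : ℝ, 0 ≤ t → t ≤ 4 * r →
        c * t ≤ (3 / 16) * (2 * r * t) + (8 / r ^ 2) * c ^ 4 := by
      intro t c ht0 ht
      have hr2 : 0 < r ^ 2 := by positivity
      have h4 : r ^ 3 * (c - 3 * r / 8) / 2 ≤ c ^ 4 := by
        have : 0 ≤ (c - r / 2) ^ 2 * ((c + r / 2) ^ 2 + r ^ 2 / 2) := by positivity
        nlinarith [this]
      have h5 : 4 * r * (c - 3 * r / 8) ≤ (8 / r ^ 2) * c ^ 4 := by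
        rw [div_mul_eq_mul_div, le_div_iff₀ hr2]
        nlinarith [h4]
      by_cases hc : c ≤ 3 * r / 8
      · have h6 : t * (c - 3 * r / 8) ≤ 0 := mul_nonpos_of_nonneg_of_nonpos ht0 (by linarith)
        have h7 : 0 ≤ (8 / r ^ 2) * c ^ 4 := by positivity
        nlinarith [h6, h7]
      · push Not at hc
        have h6 : t * (c - 3 * r / 8) ≤ 4 * r * (c - 3 * r / 8) :=
          mul_le_mul_of_nonneg_right ht (by linarith)
        nlinarith [h6, h5]
    have hW' : (W - 2 * r) * (W + 2 * r) = 0 := by nlinarith [hW]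
    rw [abs_lt] at h
    rcases mul_eq_zero.mp hW' with h1 | h1
    · have hWe : W = 2 * r := by linarith
      subst hWe
      have := key (a - b) a (by linarith [h.2]) (by linarith [h.1])
      nlinarith [this]
    · have hWe : W = -(2 * r) := by linarith
      subst hWe
      have := key (b - a) (-a) (by linarith [h.1]) (by linarith [h.2])
      have e : (-a) ^ 4 = a ^ 4 := by ring
      rw [e] at this
      nlinarith [this]

section
variable {X : Type} [AddCommGroup X] [Fintype X] [DecidableEq X] {β : X → X → ℝ} {r : ℝ}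
variable {G : X → X} {N : Finset X} {D : ℕ}

lemma Pai.sumWA (p : Pai X β r) (G : X → X) (N : Finset X) (A : Finset (X × X))
    (hA : ∀ z ∈ A, z.2 = G z.1) :
    ∑ v ∈ N, ∑ u, Wa β G v u * tr β A v u = r ^ 2 * N.card * A.card := by
  have h : ∀ v : X, ∑ u, Wa β G v u * tr β A v u = r ^ 2 * A.card := by
    intro v
    unfold tr
    simp_rw [Finset.mul_sum]
    rw [Finset.sum_comm]
    have : ∀ z ∈ A, ∑ u, Wa β G v u * (β v z.2 * β u z.1) = r ^ 2 := by
      intro z hz
      rw [p.inv1, hA z hz, p.char2, p.zero_r, mul_one]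
    rw [Finset.sum_congr rfl this, Finset.sum_const, nsmul_eq_mul]
    ring
  simp_rw [h]
  rw [Finset.sum_const, nsmul_eq_mul]
  ring

lemma Pai.sumWB (p : Pai X β r) (G : X → X) (N : Finset X) (B : Finset (X × X)) :
    ∑ v ∈ N, ∑ u, Wa β G v u * tr β B v u = r ^ 2 * ∑ z ∈ B, ss β N (G z.1 + z.2) := by
  have h : ∀ v : X, ∑ u, Wa β G v u * tr β B v u
      = ∑ z ∈ B, r ^ 2 * β v (G z.1 + z.2) := by
    intro v
    unfold tr
    simp_rw [Finset.mul_sum]
    rw [Finset.sum_comm]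
    exact Finset.sum_congr rfl fun z _ => p.inv1 _ _ _ _
  simp_rw [h]
  rw [Finset.sum_comm, Finset.mul_sum]
  refine Finset.sum_congr rfl fun z _ => ?_
  rw [← Finset.mul_sum]
  rfl

/-- transform of an indexed family -/
noncomputable def hx {ι : Type} (β : X → X → ℝ) (I : Finset ι) (f : ι → X × X) (v u : X) : ℝ :=
  ∑ i ∈ I, β v (f i).2 * β u (f i).1

lemma Pai.hx_mul (p : Pai X β r) {ι κ : Type} (I : Finset ι) (J : Finset κ) (f : ι → X × X)
    (f' : κ → X × X) (v u : X) :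
    hx β I f v u * hx β J f' v u = hx β (I ×ˢ J) (fun z => f z.1 + f' z.2) v u := by
  unfold hx
  rw [Finset.sum_mul_sum, ← Finset.sum_product']
  refine Finset.sum_congr rfl fun z _ => ?_
  simp only [Prod.snd_add, Prod.fst_add]
  rw [p.add_r, p.add_r]
  ring

lemma Pai.hx_sum (p : Pai X β r) {ι : Type} (I : Finset ι) (f : ι → X × X) :
    ∑ v, ∑ u, hx β I f v u = r ^ 4 * ((I.filter (fun i => f i = 0)).card : ℝ) := by
  unfold hx
  have h1 : ∀ v : X, ∑ u, ∑ i ∈ I, β v (f i).2 * β u (f i).1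
      = ∑ i ∈ I, ∑ u, β v (f i).2 * β u (f i).1 := fun v => Finset.sum_comm
  simp_rw [h1]
  rw [Finset.sum_comm]
  have h2 : ∀ i ∈ I, ∑ v, ∑ u, β v (f i).2 * β u (f i).1
      = if f i = 0 then r ^ 4 else 0 := by
    intro i _
    simp_rw [← Finset.mul_sum]
    rw [← Finset.sum_mul, p.sum_l', p.sum_l']
    by_cases h4 : (f i).2 = 0
    · by_cases h5 : (f i).1 = 0
      · rw [if_pos h4, if_pos h5, if_pos (Prod.ext h5 h4)]; ring
      · rw [if_neg h5, mul_zero, if_neg]
        intro h6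
        exact h5 (by rw [h6]; rfl)
    · rw [if_neg h4, zero_mul, if_neg]
      intro h6
      exact h4 (by rw [h6]; rfl)
  rw [Finset.sum_congr rfl h2, ← Finset.sum_filter, Finset.sum_const, nsmul_eq_mul]
  ring

lemma Semi.quad (s : Semi β r G N D) (p : Pai X β r) (A : Finset (X × X))
    (hA : ∀ z ∈ A, z.2 = G z.1) :
    (((A ×ˢ A) ×ˢ (A ×ˢ A)).filter
      (fun z => (z.1.1 + z.1.2) + (z.2.1 + z.2.2) = 0)).card ≤ (D + 1) * A.card ^ 2 := by
  have hext : ∀ z ∈ A, ∀ z' ∈ A, z.1 = z'.1 → z = z' := by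
    intro z hz z' hz' h
    exact Prod.ext h (by rw [hA z hz, hA z' hz', h])
  rw [Finset.card_filter, Finset.sum_product]
  have h1 : ∀ z ∈ A ×ˢ A, (∑ z' ∈ A ×ˢ A, if (z.1 + z.2) + (z'.1 + z'.2) = 0 then 1 else 0)
      ≤ (if z.2 = z.1 then A.card else 0) + D := by
    intro z hz
    rw [Finset.mem_product] at hz
    rw [← Finset.card_filter]
    by_cases hzz : z.2 = z.1
    · rw [if_pos hzz]
      have h2 : ((A ×ˢ A).filter (fun z' => (z.1 + z.2) + (z'.1 + z'.2) = 0)).card ≤ A.card := by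
        refine Finset.card_le_card_of_injOn (fun z' => z'.1) ?_ ?_
        · intro z' hz'
          rw [Finset.mem_coe, Finset.mem_filter, Finset.mem_product] at hz'
          exact hz'.1.1
        · intro a ha b hb hab
          rw [Finset.mem_coe, Finset.mem_filter, Finset.mem_product] at ha hb
          have hab' : a.1 = b.1 := hab
          refine Prod.ext hab' (hext _ ha.1.2 _ hb.1.2 ?_)
          have e1 : (z.1 + z.2 + (a.1 + a.2)).1 = 0 := by rw [ha.2]; rfl
          have e2 : (z.1 + z.2 + (b.1 + b.2)).1 = 0 := by rw [hb.2]; rfl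
          simp only [Prod.fst_add] at e1 e2
          rw [hab'] at e1
          have e3 := e1.trans e2.symm
          exact add_left_cancel (add_left_cancel e3)
      omega
    · rw [if_neg hzz, zero_add]
      have he : z.1.1 + z.2.1 ≠ 0 := by
        intro h0
        exact hzz (hext _ hz.2 _ hz.1 (p.eq_of h0).symm)
      refine le_trans ?_ (s.unif (z.1.1 + z.2.1) (G z.1.1 + G z.2.1) he)
      refine Finset.card_le_card_of_injOn (fun z' => z'.1.1) ?_ ?_
      · intro z' hz'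
        rw [Finset.mem_coe, Finset.mem_filter, Finset.mem_product] at hz'
        rw [Finset.mem_coe, Finset.mem_filter]
        refine ⟨Finset.mem_univ _, ?_⟩
        have e1 : (z.1 + z.2 + (z'.1 + z'.2)).1 = 0 := by rw [hz'.2]; rfl
        have e2 : (z.1 + z.2 + (z'.1 + z'.2)).2 = 0 := by rw [hz'.2]; rfl
        simp only [Prod.fst_add, Prod.snd_add] at e1 e2
        have e3 := p.eq_of e1
        have e4 := p.eq_of e2
        rw [hA _ hz.1, hA _ hz.2, hA _ hz'.1.1, hA _ hz'.1.2] at e4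
        show G z'.1.1 + G (z'.1.1 + (z.1.1 + z.2.1)) = G z.1.1 + G z.2.1
        rw [e3, ← add_assoc, p.char2, zero_add, e4]
      · intro a ha b hb hab
        rw [Finset.mem_coe, Finset.mem_filter, Finset.mem_product] at ha hb
        have hab' : a.1 = b.1 := hext _ ha.1.1 _ hb.1.1 hab
        refine Prod.ext hab' (hext _ ha.1.2 _ hb.1.2 ?_)
        have e1 : (z.1 + z.2 + (a.1 + a.2)).1 = 0 := by rw [ha.2]; rfl
        have e2 : (z.1 + z.2 + (b.1 + b.2)).1 = 0 := by rw [hb.2]; rfl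
        simp only [Prod.fst_add] at e1 e2
        rw [hab'] at e1
        have e3 := e1.trans e2.symm
        exact add_left_cancel (add_left_cancel e3)
  refine (Finset.sum_le_sum h1).trans ?_
  rw [Finset.sum_add_distrib, Finset.sum_const, Finset.card_product, smul_eq_mul,
    Finset.sum_product]
  have h3 : ∀ x ∈ A, (∑ y ∈ A, if y = x then A.card else 0) = A.card := by
    intro x hx
    rw [Finset.sum_ite_eq' A x, if_pos hx]
  rw [Finset.sum_congr rfl h3, Finset.sum_const, smul_eq_mul]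
  apply le_of_eq
  ring

lemma Semi.fourth (s : Semi β r G N D) (p : Pai X β r) (A : Finset (X × X))
    (hA : ∀ z ∈ A, z.2 = G z.1) :
    ∑ v ∈ N, ∑ u, ww β r G v u * tr β A v u ^ 4 ≤ r ^ 4 * ((D + 1) * (A.card : ℝ) ^ 2) := by
  have h1 : ∑ v ∈ N, ∑ u, ww β r G v u * tr β A v u ^ 4
      ≤ ∑ v ∈ N, ∑ u, tr β A v u ^ 4 := by
    refine Finset.sum_le_sum fun v hv => Finset.sum_le_sum fun u _ => ?_
    have := s.ww_le p hv u
    have h4 : 0 ≤ tr β A v u ^ 4 := by positivity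
    nlinarith [mul_le_mul_of_nonneg_right this h4]
  have h2 : ∑ v ∈ N, ∑ u, tr β A v u ^ 4 ≤ ∑ v, ∑ u, tr β A v u ^ 4 :=
    Finset.sum_le_sum_of_subset_of_nonneg (Finset.subset_univ _)
      fun v _ _ => Finset.sum_nonneg fun u _ => by positivity
  have h3 : ∑ v, ∑ u, tr β A v u ^ 4 = r ^ 4 * ((((A ×ˢ A) ×ˢ (A ×ˢ A)).filter
      (fun z => (z.1.1 + z.1.2) + (z.2.1 + z.2.2) = 0)).card : ℝ) := by
    rw [← p.hx_sum]
    refine Finset.sum_congr rfl fun v _ => Finset.sum_congr rfl fun u _ => ?_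
    have e0 : tr β A v u = hx β A (fun z => z) v u := rfl
    rw [e0]
    have : hx β A (fun z => z) v u ^ 4 = (hx β A (fun z => z) v u * hx β A (fun z => z) v u) *
        (hx β A (fun z => z) v u * hx β A (fun z => z) v u) := by ring
    rw [this, p.hx_mul, p.hx_mul]
  have h4 : ((((A ×ˢ A) ×ˢ (A ×ˢ A)).filter
      (fun z => (z.1.1 + z.1.2) + (z.2.1 + z.2.2) = 0)).card : ℝ)
        ≤ (D + 1) * (A.card : ℝ) ^ 2 := by
    exact_mod_cast s.quad p A hA
  refine h1.trans (h2.trans ?_)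
  rw [h3]
  exact mul_le_mul_of_nonneg_left h4 (by positivity)

lemma Pai.pairs (p : Pai X β r) (G : X → X) (N : Finset X) (P Q : Finset (X × X)) :
    ∑ v ∈ N, ∑ u, ww β r G v u * (tr β P v u * tr β Q v u)
      = ∑ z ∈ P, ∑ z' ∈ Q, ph β r G N (z.2 + z'.2) (z.1 + z'.1) := by
  have h1 : ∀ v u : X, ww β r G v u * (tr β P v u * tr β Q v u)
      = ∑ z ∈ P, ∑ z' ∈ Q, ww β r G v u * (β v (z.2 + z'.2) * β u (z.1 + z'.1)) := by
    intro v u
    unfold tr
    rw [Finset.sum_mul_sum, Finset.mul_sum]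
    refine Finset.sum_congr rfl fun z _ => ?_
    rw [Finset.mul_sum]
    refine Finset.sum_congr rfl fun z' _ => ?_
    rw [p.add_r, p.add_r]
    ring
  simp_rw [h1]
  unfold ph
  have h2 : ∀ v : X, ∑ u, ∑ z ∈ P, ∑ z' ∈ Q,
      ww β r G v u * (β v (z.2 + z'.2) * β u (z.1 + z'.1))
      = ∑ z ∈ P, ∑ z' ∈ Q, ∑ u,
      ww β r G v u * (β v (z.2 + z'.2) * β u (z.1 + z'.1)) := by
    intro v
    rw [Finset.sum_comm]
    exact Finset.sum_congr rfl fun z _ => Finset.sum_comm
  simp_rw [h2]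
  rw [Finset.sum_comm]
  exact Finset.sum_congr rfl fun z _ => Finset.sum_comm

lemma Semi.pairsAA (s : Semi β r G N D) (p : Pai X β r) (A : Finset (X × X))
    (hA : ∀ z ∈ A, z.2 = G z.1) :
    (r ^ 2 / 4) * (N.card * A.card - (A.card : ℝ) ^ 2) ≤
      ∑ z ∈ A, ∑ z' ∈ A, ph β r G N (z.2 + z'.2) (z.1 + z'.1) := by
  have h1 : ∀ z ∈ A, (r ^ 2 / 4) * (N.card - A.card) ≤
      ∑ z' ∈ A, ph β r G N (z.2 + z'.2) (z.1 + z'.1) := by
    intro z hz
    have h2 : ∀ z' ∈ A, (if z' = z then (r ^ 2 / 4) * N.card else 0) - (r ^ 2 / 4) ≤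
        ph β r G N (z.2 + z'.2) (z.1 + z'.1) := by
      intro z' hz'
      by_cases h : z' = z
      · subst h
        rw [if_pos rfl, p.char2, p.char2, p.ph_zero, p.ss_zero]
        have := p.r2
        linarith
      · rw [if_neg h]
        have he : z.1 + z'.1 ≠ 0 := by
          intro h0
          apply h
          have h3 := p.eq_of h0
          exact Prod.ext h3.symm (by rw [hA z' hz', hA z hz, h3])
        have := s.ph_ge p he (z.2 + z'.2)
        linarith
    have h3 := Finset.sum_le_sum h2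
    rw [Finset.sum_sub_distrib, Finset.sum_ite_eq' A z, if_pos hz, Finset.sum_const,
      nsmul_eq_mul] at h3
    linarith
  have := Finset.sum_le_sum h1
  rw [Finset.sum_const, nsmul_eq_mul] at this
  nlinarith [this]

lemma Semi.pairsAB (s : Semi β r G N D) (p : Pai X β r) (hD : 1 ≤ D) (A B : Finset (X × X))
    (hA : ∀ z ∈ A, z.2 = G z.1) :
    ∑ z ∈ A, ∑ z' ∈ B, ph β r G N (z.2 + z'.2) (z.1 + z'.1)
      ≤ (r ^ 2 / 4) * (∑ z' ∈ B, (if (z'.1, G z'.1) ∈ A then ss β N (G z'.1 + z'.2) else 0)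
        + (D - 1) * (A.card * B.card)) := by
  rw [Finset.sum_comm]
  have hD' : (1 : ℝ) ≤ D := by exact_mod_cast hD
  have h1 : ∀ z' ∈ B, ∑ z ∈ A, ph β r G N (z.2 + z'.2) (z.1 + z'.1)
      ≤ (r ^ 2 / 4) * (if (z'.1, G z'.1) ∈ A then ss β N (G z'.1 + z'.2) else 0)
        + (r ^ 2 / 4) * (D - 1) * A.card := by
    intro z' _
    have h2 : ∀ z ∈ A, ph β r G N (z.2 + z'.2) (z.1 + z'.1) ≤
        (if z = (z'.1, G z'.1) then (r ^ 2 / 4) * ss β N (G z'.1 + z'.2) else 0)
          + (r ^ 2 / 4) * (D - 1) := by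
      intro z hz
      have h5 : 0 ≤ (r ^ 2 / 4) * ((D : ℝ) - 1) :=
        mul_nonneg (by have := p.r2; positivity) (by linarith)
      by_cases h : z = (z'.1, G z'.1)
      · rw [if_pos h, h]
        simp only
        rw [p.char2, p.ph_zero]
        linarith
      · rw [if_neg h, zero_add]
        have he : z.1 + z'.1 ≠ 0 := by
          intro h0
          apply h
          have h3 := p.eq_of h0
          exact Prod.ext h3 (by rw [hA z hz, h3])
        exact s.ph_le p he _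
    have h3 := Finset.sum_le_sum h2
    rw [Finset.sum_add_distrib, Finset.sum_ite_eq' A, Finset.sum_const, nsmul_eq_mul] at h3
    have h4 : (if (z'.1, G z'.1) ∈ A then (r ^ 2 / 4) * ss β N (G z'.1 + z'.2) else 0)
        = (r ^ 2 / 4) * (if (z'.1, G z'.1) ∈ A then ss β N (G z'.1 + z'.2) else 0) := by
      split_ifs <;> simp
    rw [h4] at h3
    linarith
  have := Finset.sum_le_sum h1
  rw [Finset.sum_add_distrib, ← Finset.mul_sum, Finset.sum_const, nsmul_eq_mul] at this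
  refine this.trans (le_of_eq ?_)
  ring

/-- the main inequality -/
theorem Semi.main (s : Semi β r G N D) (p : Pai X β r) (hD : 1 ≤ D) (A B : Finset (X × X))
    (hA : ∀ z ∈ A, z.2 = G z.1) (hAB : A.card = B.card)
    (h : ∀ v, v ≠ 0 → ∀ u, |Wa β G v u + (tr β B v u - tr β A v u)| < 2 * r)
    {δ : ℝ} (h1 : ∀ z ∈ B, ss β N (G z.1 + z.2) ≤ (1 - δ) * N.card)
    (h2 : ∀ z ∈ B, -((1 - δ) * N.card) ≤ 3 * ss β N (G z.1 + z.2))
    (hk : 0 < A.card) : δ * N.card ≤ (132 * D + 128) * (A.card : ℝ) := by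
  have hr := p.rpos
  have hV : ∀ v ∈ N, v ≠ 0 := fun v hv h0 => s.zero (h0 ▸ hv)
  have e1 : ∑ v ∈ N, ∑ u, ww β r G v u * (tr β A v u * (tr β A v u - tr β B v u)) ≤
      ∑ v ∈ N, ∑ u, ((3 / 16) * (Wa β G v u * (tr β A v u - tr β B v u)) +
          (8 / r ^ 2) * (ww β r G v u * tr β A v u ^ 4)) := by
    refine Finset.sum_le_sum fun v hv => Finset.sum_le_sum fun u _ => ?_
    exact pointwise hr (s.ww_cases p hv u) (p.W_ww G v u) (h v (hV v hv) u)
  have e2 : ∑ v ∈ N, ∑ u, ww β r G v u * (tr β A v u * (tr β A v u - tr β B v u)) =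
      ∑ z ∈ A, ∑ z' ∈ A, ph β r G N (z.2 + z'.2) (z.1 + z'.1) -
      ∑ z ∈ A, ∑ z' ∈ B, ph β r G N (z.2 + z'.2) (z.1 + z'.1) := by
    rw [← p.pairs, ← p.pairs, ← Finset.sum_sub_distrib]
    refine Finset.sum_congr rfl fun d _ => ?_
    rw [← Finset.sum_sub_distrib]
    refine Finset.sum_congr rfl fun u _ => ?_
    ring
  have e3 : ∑ v ∈ N, ∑ u, ((3 / 16) * (Wa β G v u * (tr β A v u - tr β B v u)) +
          (8 / r ^ 2) * (ww β r G v u * tr β A v u ^ 4)) =
      (3 / 16) * (∑ v ∈ N, ∑ u, Wa β G v u * tr β A v u -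
        ∑ v ∈ N, ∑ u, Wa β G v u * tr β B v u) +
      (8 / r ^ 2) * ∑ v ∈ N, ∑ u, ww β r G v u * tr β A v u ^ 4 := by
    simp_rw [Finset.sum_add_distrib, ← Finset.mul_sum, mul_sub, Finset.sum_sub_distrib]
    ring
  have h4 := s.pairsAA p A hA
  have h5 := s.pairsAB p hD A B hA
  have h6 := p.sumWA G N A hA
  have h7 := p.sumWB G N B
  have h8 := s.fourth p A hA
  rw [e2, e3, h6, h7] at e1
  rw [← hAB] at h5
  have hk' : (0 : ℝ) < A.card := by exact_mod_cast hk
  have hT : -((1 - δ) * N.card * A.card) ≤ 3 * ∑ z ∈ B, ss β N (G z.1 + z.2) -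
      4 * ∑ z' ∈ B, (if (z'.1, G z'.1) ∈ A then ss β N (G z'.1 + z'.2) else 0) := by
    rw [hAB, Finset.mul_sum, Finset.mul_sum, ← Finset.sum_sub_distrib]
    have h9 : ∀ z ∈ B, -((1 - δ) * N.card) ≤ 3 * ss β N (G z.1 + z.2) -
        4 * (if (z.1, G z.1) ∈ A then ss β N (G z.1 + z.2) else 0) := by
      intro z hz
      split_ifs
      · have := h1 z hz; linarith
      · have := h2 z hz; linarith
    have h10 := Finset.sum_le_sum h9
    rw [Finset.sum_const, nsmul_eq_mul] at h10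
    linarith
  set k : ℝ := (A.card : ℝ) with hkdef
  set M : ℝ := (N.card : ℝ) with hMdef
  set T : ℝ := ∑ z ∈ B, ss β N (G z.1 + z.2) with hTdef
  set T0 : ℝ := ∑ z' ∈ B, (if (z'.1, G z'.1) ∈ A then ss β N (G z'.1 + z'.2) else 0) with hT0def
  have hr2 : 0 < r ^ 2 := by positivity
  have h9 : (8 / r ^ 2) * ∑ v ∈ N, ∑ u, ww β r G v u * tr β A v u ^ 4
      ≤ 8 * r ^ 2 * ((D + 1) * k ^ 2) := by
    have : (8 / r ^ 2) * (r ^ 4 * ((D + 1) * k ^ 2)) = 8 * r ^ 2 * ((D + 1) * k ^ 2) := by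
      field_simp
    rw [← this]
    exact mul_le_mul_of_nonneg_left h8 (by positivity)
  have h10 : (r ^ 2 / 4) * (M * k - k ^ 2) - (r ^ 2 / 4) * (T0 + (D - 1) * (k * k)) ≤
      (3 / 16) * (r ^ 2 * M * k - r ^ 2 * T) + 8 * r ^ 2 * ((D + 1) * k ^ 2) := by
    linarith
  have h11 : r ^ 2 * (M * k + 3 * T - 4 * T0) ≤ r ^ 2 * ((132 * D + 128) * k * k) := by
    linarith [h10]
  have h12 := le_of_mul_le_mul_left h11 hr2
  have h13 : δ * M * k ≤ (132 * D + 128) * k * k := by linarith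
  exact le_of_mul_le_mul_right h13 hk'

end

end Pool.MP_39d092_co.GB
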