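import Mathlib

set_option autoImplicit false

namespace Pool.MP_39d092_co.LD
open Finset Matrix

abbrev V (n : ℕ) := Fin n → ZMod 2

def sg (a : ZMod 2) : ℤ := if a = 0 then 1 else -1

lemma sg_add (a b : ZMod 2) : sg (a + b) = sg a * sg b := by revert a b; decide
lemma sg_zero : sg 0 = 1 := by decide
lemma sg_one : sg 1 = -1 := by decide
lemma sg_mul_self (a : ZMod 2) : sg a * sg a = 1 := by revert a; decide
lemma two_cases (a : ZMod 2) : a = 0 ∨ a = 1 := by revert a; decide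
lemma zadd_self (a : ZMod 2) : a + a = 0 := by revert a; decide
lemma vadd_self {n : ℕ} (a : V n) : a + a = 0 := by ext i; exact zadd_self _
lemma sg_sq (a : ZMod 2) : sg a ^ 2 = 1 := by rw [sq, sg_mul_self]
lemma abs_sg (a : ZMod 2) : |sg a| = 1 := by revert a; decide

lemma sum_shift {n : ℕ} {M : Type*} [AddCommMonoid M] (d : V n) (g : V n → M) :
    ∑ x, g (x + d) = ∑ x, g x :=
  Fintype.sum_equiv (Equiv.addRight d) _ _ (fun _ => rfl)

lemma exists_dot_one {n : ℕ} {u : V n} (hu : u ≠ 0) : ∃ e : V n, u ⬝ᵥ e = 1 := by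
  obtain ⟨i, hi⟩ := Function.ne_iff.mp hu
  refine ⟨Pi.single i 1, ?_⟩
  rw [dotProduct_single]
  rcases two_cases (u i) with h | h
  · exact absurd h hi
  · rw [h]; simp

lemma card_V (n : ℕ) : (Finset.univ : Finset (V n)).card = 2 ^ n := by
  simp [Finset.card_univ]

lemma char_sum {n : ℕ} (u : V n) :
    ∑ x : V n, sg (u ⬝ᵥ x) = if u = 0 then (2:ℤ) ^ n else 0 := by
  split_ifs with h
  · subst h
    simp [sg_zero]
  · obtain ⟨e, he⟩ := exists_dot_one h
    have h1 := sum_shift e (fun x => sg (u ⬝ᵥ x))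
    have h2 : ∑ x : V n, sg (u ⬝ᵥ (x + e)) = - ∑ x : V n, sg (u ⬝ᵥ x) := by
      rw [← Finset.sum_neg_distrib]
      refine Finset.sum_congr rfl fun x _ => ?_
      rw [dotProduct_add, he, sg_add, sg_one]; ring
    rw [h2] at h1
    linarith

/-- transform -/
def T {n : ℕ} (φ : V n → ℤ) (u : V n) : ℤ := ∑ x, φ x * sg (u ⬝ᵥ x)

lemma add_eq_zero_iff' {n : ℕ} (x y : V n) : x + y = 0 ↔ y = x := by
  constructor
  · intro h
    have : x + (x + y) = x + 0 := by rw [h]
    rw [← add_assoc, vadd_self, zero_add, add_zero] at this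
    exact this
  · rintro rfl; exact vadd_self _

lemma parseval {n : ℕ} (φ : V n → ℤ) :
    ∑ u, (T φ u) ^ 2 = 2 ^ n * ∑ x, (φ x) ^ 2 := by
  have h1 : ∀ u : V n, (T φ u) ^ 2 = ∑ x, ∑ y, φ x * φ y * sg ((x + y) ⬝ᵥ u) := by
    intro u
    rw [sq, T, Finset.sum_mul_sum]
    refine Finset.sum_congr rfl fun x _ => Finset.sum_congr rfl fun y _ => ?_
    rw [add_dotProduct, sg_add, dotProduct_comm x u, dotProduct_comm y u]; ring
  simp_rw [h1]
  rw [Finset.sum_comm]
  have h2 : ∀ x : V n, ∑ u : V n, ∑ y : V n, φ x * φ y * sg ((x + y) ⬝ᵥ u) = 2 ^ n * (φ x) ^ 2 := by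
    intro x
    rw [Finset.sum_comm]
    have h3 : ∀ y : V n, ∑ u : V n, φ x * φ y * sg ((x + y) ⬝ᵥ u)
        = if y = x then φ x * φ y * 2 ^ n else 0 := by
      intro y
      rw [← Finset.mul_sum, char_sum]
      by_cases h : y = x
      · subst h
        simp [vadd_self]
      · have h' : ¬ (x + y = 0) := fun h'' => h ((add_eq_zero_iff' x y).mp h'')
        simp [h, h']
    simp_rw [h3]
    rw [Finset.sum_ite_eq']
    simp; ring
  rw [Finset.sum_congr rfl (fun x _ => h2 x), Finset.mul_sum]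

/-- Walsh transform -/
def W {n : ℕ} (f : V n → ZMod 2) (u : V n) : ℤ := ∑ x, sg (f x + u ⬝ᵥ x)

lemma W_eq_T {n : ℕ} (f : V n → ZMod 2) (u : V n) : W f u = T (fun x => sg (f x)) u := by
  unfold W T
  refine Finset.sum_congr rfl fun x _ => ?_
  rw [sg_add]

/-- autocorrelation -/
def Del {n : ℕ} (f : V n → ZMod 2) (d : V n) : ℤ := ∑ x, sg (f x + f (x + d))

lemma W_sq {n : ℕ} (f : V n → ZMod 2) (u : V n) : (W f u) ^ 2 = T (Del f) u := by
  rw [sq]
  unfold W T Del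
  rw [Finset.sum_mul_sum]
  have h : ∀ x : V n, ∑ y : V n, sg (f x + u ⬝ᵥ x) * sg (f y + u ⬝ᵥ y)
      = ∑ d : V n, sg (f x + f (x + d)) * sg (u ⬝ᵥ d) := by
    intro x
    symm
    refine Fintype.sum_equiv (Equiv.addLeft x) _ _ (fun d => ?_)
    simp only [Equiv.coe_addLeft]
    rw [dotProduct_add, ← sg_add, ← sg_add]
    congr 1
    have := zadd_self (u ⬝ᵥ x)
    linear_combination (-1 : ZMod 2) * this
  rw [Finset.sum_congr rfl (fun x _ => h x), Finset.sum_comm]
  refine Finset.sum_congr rfl fun d _ => ?_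
  rw [Finset.sum_mul]

lemma fourth {n : ℕ} (f : V n → ZMod 2) :
    ∑ u, (W f u) ^ 4 = 2 ^ n * ∑ d, (Del f d) ^ 2 := by
  rw [← parseval]
  refine Finset.sum_congr rfl fun u _ => ?_
  rw [← W_sq]; ring

lemma second {n : ℕ} (f : V n → ZMod 2) :
    ∑ u, (W f u) ^ 2 = 2 ^ n * 2 ^ n := by
  have := parseval (fun x : V n => sg (f x))
  simp_rw [← W_eq_T] at this
  rw [this]
  simp [sg_sq]

/-- The average fourth moment over all components. -/
lemma del_sum {n : ℕ} (F : V n → V n) (d : V n) :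
    ∑ v : V n, (Del (fun x => v ⬝ᵥ F x) d) ^ 2
      = 2 ^ n * ∑ x : V n, (((univ.filter fun y => F x + F (x + d) = F y + F (y + d)).card : ℕ) : ℤ) := by
  have h1 : ∀ v : V n, (Del (fun x => v ⬝ᵥ F x) d) ^ 2
      = ∑ x, ∑ y, sg (((F x + F (x + d)) + (F y + F (y + d))) ⬝ᵥ v) := by
    intro v
    rw [sq, Del, Finset.sum_mul_sum]
    refine Finset.sum_congr rfl fun x _ => Finset.sum_congr rfl fun y _ => ?_
    rw [← sg_add]
    congr 1
    simp only [add_dotProduct, dotProduct_comm v]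
  simp_rw [h1]
  rw [Finset.sum_comm, Finset.mul_sum]
  refine Finset.sum_congr rfl fun x _ => ?_
  rw [Finset.sum_comm]
  simp_rw [char_sum]
  rw [Finset.card_filter]
  push_cast
  rw [Finset.mul_sum]
  refine Finset.sum_congr rfl fun y _ => ?_
  by_cases h : F x + F (x + d) = F y + F (y + d)
  · have h' : (F x + F (x + d)) + (F y + F (y + d)) = 0 := (add_eq_zero_iff' _ _).mpr h.symm
    rw [if_pos h', if_pos h]; ring
  · have h' : ¬ ((F x + F (x + d)) + (F y + F (y + d)) = 0) :=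
      fun h'' => h ((add_eq_zero_iff' _ _).mp h'').symm
    rw [if_neg h', if_neg h]; ring

lemma del_lower {n : ℕ} (F : V n → V n) (d : V n) (hd : d ≠ 0) :
    2 ^ n * (2 ^ n * 2) ≤ ∑ v : V n, (Del (fun x => v ⬝ᵥ F x) d) ^ 2 := by
  rw [del_sum]
  refine mul_le_mul_of_nonneg_left ?_ (by positivity)
  have : (2:ℤ) ^ n * 2 = ∑ x : V n, (2:ℤ) := by
    simp
  rw [this]
  refine Finset.sum_le_sum fun x _ => ?_
  have h : ({x, x + d} : Finset (V n)) ⊆ univ.filter fun y => F x + F (x + d) = F y + F (y + d) := by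
    intro y hy
    rw [Finset.mem_insert, Finset.mem_singleton] at hy
    rw [Finset.mem_filter]
    refine ⟨Finset.mem_univ _, ?_⟩
    rcases hy with rfl | rfl
    · rfl
    · rw [add_assoc, vadd_self, add_zero, add_comm]
  have h2 : ({x, x + d} : Finset (V n)).card = 2 := by
    rw [Finset.card_pair]
    intro h
    apply hd
    have : x + (x + d) = x + x := by rw [← h]
    rw [← add_assoc, vadd_self, zero_add] at this
    exact this
  have := Finset.card_le_card h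
  rw [h2] at this
  exact_mod_cast this

lemma del_zero {n : ℕ} (F : V n → V n) :
    ∑ v : V n, (Del (fun x => v ⬝ᵥ F x) 0) ^ 2 = 2 ^ n * (2 ^ n * 2 ^ n) := by
  rw [del_sum]
  congr 1
  simp [vadd_self]

lemma fourth_total {n : ℕ} (F : V n → V n) :
    (2:ℤ) ^ n * (2 ^ n * (2 ^ n * 2 ^ n) + (2 ^ n - 1) * (2 ^ n * (2 ^ n * 2)))
      ≤ ∑ v : V n, ∑ u, (W (fun x => v ⬝ᵥ F x) u) ^ 4 := by
  simp_rw [fourth]
  rw [← Finset.mul_sum, Finset.sum_comm]
  refine mul_le_mul_of_nonneg_left ?_ (by positivity)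
  rw [← Finset.add_sum_erase _ _ (Finset.mem_univ (0 : V n)), del_zero]
  refine add_le_add le_rfl ?_
  have h : ((2:ℤ) ^ n - 1) * (2 ^ n * (2 ^ n * 2))
      = ∑ _d ∈ (univ : Finset (V n)).erase 0, ((2:ℤ) ^ n * (2 ^ n * 2)) := by
    rw [Finset.sum_const, Finset.card_erase_of_mem (Finset.mem_univ _), card_V, nsmul_eq_mul,
      Nat.cast_sub Nat.one_le_two_pow]
    push_cast
    ring
  rw [h]
  refine Finset.sum_le_sum fun d hd => ?_
  exact del_lower F d (Finset.ne_of_mem_erase hd)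

lemma fourth_zero {n : ℕ} (F : V n → V n) :
    ∑ u, (W (fun x => (0 : V n) ⬝ᵥ F x) u) ^ 4 = 2 ^ n * (2 ^ n * (2 ^ n * 2 ^ n)) := by
  rw [fourth]
  congr 1
  have : ∀ d : V n, (Del (fun x => (0 : V n) ⬝ᵥ F x) d) ^ 2 = 2 ^ n * 2 ^ n := by
    intro d
    unfold Del
    simp only [zero_dotProduct, add_zero, sg_zero]
    simp [sq]
  simp_rw [this]
  simp

/-- If every nonzero component has small fourth moment, contradiction. -/
lemma fourth_contra {n : ℕ} (F : V n → V n) (hn : 1 ≤ n)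
    (h : ∀ v : V n, v ≠ 0 → 16 * ∑ u, (W (fun x => v ⬝ᵥ F x) u) ^ 4 ≤ 31 * (2 ^ n * (2 ^ n * 2 ^ n))) :
    False := by
  have h1 := fourth_total F
  rw [← Finset.add_sum_erase _ _ (Finset.mem_univ (0 : V n)), fourth_zero] at h1
  have h2 : 16 * ∑ v ∈ (univ : Finset (V n)).erase 0, ∑ u, (W (fun x => v ⬝ᵥ F x) u) ^ 4
      ≤ ((2:ℤ) ^ n - 1) * (31 * (2 ^ n * (2 ^ n * 2 ^ n))) := by
    rw [Finset.mul_sum]
    have h3 : ((2:ℤ) ^ n - 1) * (31 * (2 ^ n * (2 ^ n * 2 ^ n)))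
        = ∑ _d ∈ (univ : Finset (V n)).erase 0, (31 * ((2:ℤ) ^ n * (2 ^ n * 2 ^ n))) := by
      rw [Finset.sum_const, Finset.card_erase_of_mem (Finset.mem_univ _), card_V, nsmul_eq_mul,
        Nat.cast_sub Nat.one_le_two_pow]
      push_cast
      ring
    rw [h3]
    exact Finset.sum_le_sum fun d hd => h d (Finset.ne_of_mem_erase hd)
  have hN : (2:ℤ) ≤ 2 ^ n := by
    calc (2:ℤ) = 2 ^ 1 := by norm_num
      _ ≤ 2 ^ n := pow_le_pow_right₀ (by norm_num) hn
  set N : ℤ := 2 ^ n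
  have h4 : 0 < (N - 1) * (N * (N * N)) := by
    have : 0 < N := by linarith
    have : 0 < N - 1 := by linarith
    positivity
  nlinarith [h1, h2, h4]

end Pool.MP_39d092_co.LD
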