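import Pool.Agent.Work.MP_39d092_co.LDBasic

set_option autoImplicit false

namespace Pool.MP_39d092_co.LD
open Finset Matrix

/-- Numerical frame of a component of a function beating the bound. -/
structure Good (n : ℕ) (K : ℤ) (f : V n → ZMod 2) : Prop where
  KN : 4 * K ^ 2 = 2 ^ n
  Kpos : 0 < K
  bound : ∀ u, |W f u| < 4 * K
  div : ∀ u, K ∣ W f u

lemma Good.exists_c {n : ℕ} {K : ℤ} {f : V n → ZMod 2} (h : Good n K f) :
    ∃ c : V n → ℤ, (∀ u, W f u = K * c u) ∧ (∀ u, -3 ≤ c u ∧ c u ≤ 3) ∧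
      ∑ u, (c u) ^ 2 = 4 * 2 ^ n := by
  choose c hc using h.div
  refine ⟨c, hc, ?_, ?_⟩
  · intro u
    have h1 := h.bound u
    rw [hc u, abs_mul, abs_of_pos h.Kpos] at h1
    have h2 : |c u| < 4 := by
      have := h.Kpos
      nlinarith
    rw [abs_lt] at h2
    constructor <;> linarith [h2.1, h2.2]
  · have h1 := second f
    simp_rw [hc, mul_pow] at h1
    rw [← Finset.mul_sum, ← h.KN] at h1
    have h2 : K ^ 2 * (∑ u, (c u) ^ 2 - 4 * (4 * K ^ 2)) = 0 := by linear_combination h1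
    have hK : K ^ 2 ≠ 0 := pow_ne_zero _ (ne_of_gt h.Kpos)
    rcases mul_eq_zero.mp h2 with h3 | h3
    · exact absurd h3 hK
    · rw [← h.KN]; linarith

lemma Good.to_goal {n : ℕ} {K : ℤ} {f : V n → ZMod 2} (h : Good n K f) {c : V n → ℤ}
    (hc : ∀ u, W f u = K * c u) (h4 : ∑ u, (c u) ^ 4 ≤ 31 * 2 ^ n) :
    16 * ∑ u, (W f u) ^ 4 ≤ 31 * (2 ^ n * (2 ^ n * 2 ^ n)) := by
  simp_rw [hc, mul_pow]
  rw [← Finset.mul_sum]
  have h1 : (16:ℤ) * K ^ 4 = 2 ^ n * 2 ^ n := by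
    rw [← h.KN]; ring
  have h2 : 0 ≤ K ^ 4 := by positivity
  calc 16 * (K ^ 4 * ∑ u, (c u) ^ 4) = (16 * K ^ 4) * ∑ u, (c u) ^ 4 := by ring
    _ ≤ (16 * K ^ 4) * (31 * 2 ^ n) := mul_le_mul_of_nonneg_left h4 (by positivity)
    _ = _ := by rw [h1]; ring

lemma odd_fourth {c : ℤ} (h1 : -3 ≤ c) (h2 : c ≤ 3) (h : ¬ Even c) : c ^ 4 = 10 * c ^ 2 - 9 := by
  interval_cases c <;> first | rfl | (exfalso; apply h; decide)

lemma even_fourth {c : ℤ} (h1 : -3 ≤ c) (h2 : c ≤ 3) (h : Even c) : c ^ 4 = 4 * c ^ 2 := by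
  interval_cases c <;> first | rfl | (exfalso; revert h; decide)

/-- Constant parity. -/
lemma Good.const_parity {n : ℕ} {K : ℤ} {f : V n → ZMod 2} (h : Good n K f)
    (hp : ∀ u, 2 * K ∣ W f u + W f 0) :
    16 * ∑ u, (W f u) ^ 4 ≤ 31 * (2 ^ n * (2 ^ n * 2 ^ n)) := by
  obtain ⟨c, hc, hb, h2⟩ := h.exists_c
  refine h.to_goal hc ?_
  have hpar : ∀ u, Even (c u) ↔ Even (c 0) := by
    intro u
    obtain ⟨m, hm⟩ := hp u
    rw [hc u, hc 0] at hm
    have : K * (c u + c 0 - 2 * m) = 0 := by linear_combination hm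
    rcases mul_eq_zero.mp this with h3 | h3
    · exact absurd h3 (ne_of_gt h.Kpos)
    · have h4 : c u + c 0 = 2 * m := by linarith
      have h5 : Even (c u + c 0) := by rw [h4]; exact even_two_mul m
      rwa [Int.even_add] at h5
  have hN : (0:ℤ) < 2 ^ n := by positivity
  by_cases h0 : Even (c 0)
  · have : ∀ u, (c u) ^ 4 = 4 * (c u) ^ 2 := fun u =>
      even_fourth (hb u).1 (hb u).2 ((hpar u).mpr h0)
    rw [Finset.sum_congr rfl (fun u _ => this u), ← Finset.mul_sum, h2]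
    linarith
  · have : ∀ u, (c u) ^ 4 = 10 * (c u) ^ 2 - 9 := fun u =>
      odd_fourth (hb u).1 (hb u).2 (fun h' => h0 ((hpar u).mp h'))
    rw [Finset.sum_congr rfl (fun u _ => this u), Finset.sum_sub_distrib, ← Finset.mul_sum, h2]
    simp
    linarith

/-- Additive maps are dot products. -/
lemma additive_dot {n : ℕ} (g : V n → ZMod 2) (hg : ∀ a b, g (a + b) = g a + g b) :
    ∃ a : V n, ∀ u, g u = a ⬝ᵥ u := by
  have g0 : g 0 = 0 := by
    have := hg 0 0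
    rw [add_zero] at this
    have h2 := zadd_self (g 0)
    rw [h2] at this
    exact this
  let G : V n →+ ZMod 2 := ⟨⟨g, g0⟩, hg⟩
  refine ⟨fun i => g (Pi.single i 1), fun u => ?_⟩
  have h1 : u = ∑ i, Pi.single i (u i) := (Finset.univ_sum_single u).symm
  have h2 : G u = ∑ i, G (Pi.single i (u i)) := by
    conv_lhs => rw [h1]
    rw [map_sum]
  change G u = _
  rw [h2]
  unfold dotProduct
  refine Finset.sum_congr rfl fun i _ => ?_
  rcases two_cases (u i) with h | h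
  · rw [h]; simp
  · rw [h, mul_one]; rfl

lemma zmod_even (c : ℤ) : Even c ↔ ((c : ℤ) : ZMod 2) = 0 := by
  rw [even_iff_two_dvd]
  exact_mod_cast (ZMod.intCast_zmod_eq_zero_iff_dvd c 2).symm

lemma Good.affine_parity {n : ℕ} {K : ℤ} {f : V n → ZMod 2} (h : Good n K f)
    (hp : ∀ u a b, 2 * K ∣ W f u + W f (u + a) + W f (u + b) + W f (u + a + b))
    {c : V n → ℤ} (hc : ∀ u, W f u = K * c u) :
    ∃ a : V n, ∃ ε : ZMod 2, ∀ u, Even (c u) ↔ a ⬝ᵥ u = ε := by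
  have h1 : ∀ u a b, ((c u : ℤ) : ZMod 2) + ((c (u + a) : ℤ) : ZMod 2)
      + ((c (u + b) : ℤ) : ZMod 2) + ((c (u + a + b) : ℤ) : ZMod 2) = 0 := by
    intro u a b
    obtain ⟨m, hm⟩ := hp u a b
    rw [hc u, hc, hc, hc] at hm
    have : K * (c u + c (u + a) + c (u + b) + c (u + a + b) - 2 * m) = 0 := by
      linear_combination hm
    rcases mul_eq_zero.mp this with h3 | h3
    · exact absurd h3 (ne_of_gt h.Kpos)
    · have h4 : c u + c (u + a) + c (u + b) + c (u + a + b) = 2 * m := by linarith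
      have h5 : Even (c u + c (u + a) + c (u + b) + c (u + a + b)) := by
        rw [h4]; exact even_two_mul m
      rw [zmod_even] at h5
      push_cast at h5
      exact h5
  obtain ⟨a, ha⟩ := additive_dot (fun u => ((c u : ℤ) : ZMod 2) + ((c 0 : ℤ) : ZMod 2)) (by
    intro a b
    have := h1 0 a b
    simp only [zero_add] at this
    have e1 := zadd_self ((c a : ℤ) : ZMod 2)
    have e2 := zadd_self ((c b : ℤ) : ZMod 2)
    have e3 := zadd_self ((c 0 : ℤ) : ZMod 2)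
    linear_combination this - e1 - e2 - e3)
  refine ⟨a, ((c 0 : ℤ) : ZMod 2), fun u => ?_⟩
  rw [zmod_even, ← ha u]
  constructor
  · intro h
    rw [h, zero_add]
  · intro h
    have := congrArg (fun z => z + ((c 0 : ℤ) : ZMod 2)) h
    simp only [add_assoc] at this
    rw [zadd_self, add_zero] at this
    exact this

/-- anti-invariance kills the transform -/
lemma T_zero {n : ℕ} (φ : V n → ℤ) (a u : V n) (s : ZMod 2) (hφ : ∀ x, φ (x + a) = sg s * φ x)
    (hu : u ⬝ᵥ a = s + 1) : T φ u = 0 := by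
  have h1 := sum_shift a (fun x => φ x * sg (u ⬝ᵥ x))
  have h2 : ∑ x, φ (x + a) * sg (u ⬝ᵥ (x + a)) = - T φ u := by
    unfold T
    rw [← Finset.sum_neg_distrib]
    refine Finset.sum_congr rfl fun x _ => ?_
    rw [hφ, dotProduct_add, hu, sg_add, sg_add, sg_one]
    have := sg_mul_self s
    linear_combination (-(φ x * sg (u ⬝ᵥ x))) * this
  rw [h2] at h1
  change - T φ u = T φ u at h1
  linarith

lemma half_sum {n : ℕ} (g : V n → ℤ) (a μ : V n) (hg : ∀ x, g (x + a) = g x) (hμ : μ ⬝ᵥ a = 1) :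
    ∑ x, g x = 2 * ∑ x ∈ univ.filter (fun x => μ ⬝ᵥ x = 0), g x := by
  have h1 : ∑ x, g x = ∑ x ∈ univ.filter (fun x => μ ⬝ᵥ x = 0), g x
      + ∑ x ∈ univ.filter (fun x => ¬ μ ⬝ᵥ x = 0), g x :=
    (Finset.sum_filter_add_sum_filter_not _ _ _).symm
  have h2 : ∑ x ∈ univ.filter (fun x => ¬ μ ⬝ᵥ x = 0), g x
      = ∑ x ∈ univ.filter (fun x => μ ⬝ᵥ x = 0), g x := by
    rw [Finset.sum_filter, Finset.sum_filter, ← sum_shift a]
    refine Finset.sum_congr rfl fun x _ => ?_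
    rw [dotProduct_add, hμ, hg]
    rcases two_cases (μ ⬝ᵥ x) with h | h
    · rw [h]; simp
    · rw [h]; simp [zadd_self]
  rw [h1, h2]; ring

lemma card_hyper {n : ℕ} (ν : V n) (hν : ν ≠ 0) (κ : ZMod 2) :
    2 * (((univ.filter (fun x : V n => ν ⬝ᵥ x = κ)).card : ℕ) : ℤ) = 2 ^ n := by
  obtain ⟨e, he⟩ := exists_dot_one hν
  have h1 : ∑ x : V n, (1:ℤ) = ∑ x ∈ univ.filter (fun x : V n => ν ⬝ᵥ x = κ), 1
      + ∑ x ∈ univ.filter (fun x : V n => ¬ ν ⬝ᵥ x = κ), 1 :=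
    (Finset.sum_filter_add_sum_filter_not _ _ _).symm
  have h2 : ∑ x ∈ univ.filter (fun x : V n => ¬ ν ⬝ᵥ x = κ), (1:ℤ)
      = ∑ x ∈ univ.filter (fun x : V n => ν ⬝ᵥ x = κ), 1 := by
    rw [Finset.sum_filter, Finset.sum_filter, ← sum_shift e]
    refine Finset.sum_congr rfl fun x _ => ?_
    rw [dotProduct_add, he]
    have : ∀ s k : ZMod 2, (¬ s + 1 = k) ↔ s = k := by decide
    by_cases h : ν ⬝ᵥ x = κ
    · rw [if_pos ((this _ _).mpr h), if_pos h]
    · rw [if_neg (fun h' => h ((this _ _).mp h')), if_neg h]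
  rw [h2] at h1
  simp at h1
  linarith

end Pool.MP_39d092_co.LD
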