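import Pool.Agent.Work.MP_39d092_co.LDComp

set_option autoImplicit false

namespace Pool.MP_39d092_co.LD
open Finset Matrix

lemma sg_sum {α : Type*} (T : Finset α) (g : α → ZMod 2) :
    sg (∑ j ∈ T, g j) = ∏ j ∈ T, sg (g j) := by
  classical
  induction T using Finset.induction_on with
  | empty => simp [sg_zero]
  | insert a s ha ih => rw [Finset.sum_insert ha, Finset.prod_insert ha, sg_add, ih]

lemma sum_dot {α : Type*} {n : ℕ} (T : Finset α) (l : α → V n) (x : V n) :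
    (∑ j ∈ T, l j) ⬝ᵥ x = ∑ j ∈ T, l j ⬝ᵥ x := by
  rw [_root_.sum_dotProduct]

/-- number of solutions of a system of linear equations -/
lemma count_dvd {n : ℕ} {α : Type*} (E : Finset α) (l : α → V n) (b : α → ZMod 2) :
    (2:ℤ) ^ n ∣ 2 ^ E.card *
      (((univ.filter (fun x : V n => ∀ j ∈ E, l j ⬝ᵥ x = b j)).card : ℕ) : ℤ) := by
  classical
  have h1 : ∀ x : V n, ∏ j ∈ E, (1 + sg (l j ⬝ᵥ x + b j))
      = if (∀ j ∈ E, l j ⬝ᵥ x = b j) then 2 ^ E.card else 0 := by
    intro x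
    split_ifs with h
    · rw [Finset.prod_congr rfl (g := fun _ => (2:ℤ)), Finset.prod_const]
      intro j hj
      rw [h j hj, zadd_self, sg_zero]; norm_num
    · push Not at h
      obtain ⟨j, hj, hne⟩ := h
      refine Finset.prod_eq_zero hj ?_
      have : ∀ p q : ZMod 2, p ≠ q → 1 + sg (p + q) = 0 := by decide
      exact this _ _ hne
  have h2 : (2:ℤ) ^ E.card *
      (((univ.filter (fun x : V n => ∀ j ∈ E, l j ⬝ᵥ x = b j)).card : ℕ) : ℤ)
      = ∑ x : V n, ∏ j ∈ E, (1 + sg (l j ⬝ᵥ x + b j)) := by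
    simp_rw [h1]
    rw [Finset.card_filter]
    push_cast
    rw [Finset.mul_sum]
    refine Finset.sum_congr rfl fun x _ => ?_
    split_ifs <;> simp
  rw [h2]
  simp_rw [Finset.prod_one_add]
  rw [Finset.sum_comm]
  refine Finset.dvd_sum fun T _ => ?_
  have h3 : ∀ x : V n, ∏ j ∈ T, sg (l j ⬝ᵥ x + b j) = sg ((∑ j ∈ T, l j) ⬝ᵥ x) * sg (∑ j ∈ T, b j) := by
    intro x
    rw [← sg_sum, Finset.sum_add_distrib, sg_add, sum_dot]
  simp_rw [h3]
  rw [← Finset.sum_mul, char_sum]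
  refine Dvd.dvd.mul_right ?_ _
  split_ifs
  · exact dvd_rfl
  · exact dvd_zero _

lemma count_dvd' {n : ℕ} {α : Type*} (E : Finset α) (l : α → V n) (b : α → ZMod 2) :
    (2:ℤ) ^ (n - E.card) ∣
      (((univ.filter (fun x : V n => ∀ j ∈ E, l j ⬝ᵥ x = b j)).card : ℕ) : ℤ) := by
  rcases le_or_gt E.card n with h | h
  · have h1 := count_dvd E l b
    have h2 : (2:ℤ) ^ n = 2 ^ E.card * 2 ^ (n - E.card) := by
      rw [← pow_add]; congr 1; omega
    rw [h2] at h1
    exact (mul_dvd_mul_iff_left (by positivity)).mp h1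
  · rw [Nat.sub_eq_zero_of_le h.le, pow_zero]
    exact one_dvd _

lemma prod_eq_one_iff {α : Type*} (s : Finset α) (g : α → ZMod 2) :
    ∏ k ∈ s, g k = 1 ↔ ∀ k ∈ s, g k = 1 := by
  constructor
  · intro h k hk
    rcases two_cases (g k) with h0 | h1
    · exfalso
      rw [Finset.prod_eq_zero hk h0] at h
      exact zero_ne_one h
    · exact h1
  · intro h
    exact Finset.prod_eq_one h

/-- 2-divisibility of exponential sums of low degree functions over flats -/
lemma div_sum {n d r k : ℕ} {ι : Type} [Fintype ι] (l : ι → Fin d → V n)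
    (b : ι → Fin d → ZMod 2) (lr : Fin r → V n) (br : Fin r → ZMod 2)
    (hk : ∀ t, k ≤ t + (n - (r + t * d))) :
    (2:ℤ) ^ k ∣ ∑ x ∈ univ.filter (fun x : V n => ∀ j, lr j ⬝ᵥ x = br j),
      sg (∑ i, ∏ j, (l i j ⬝ᵥ x + b i j)) := by
  classical
  have h1 : ∀ x : V n, sg (∑ i, ∏ j, (l i j ⬝ᵥ x + b i j))
      = ∑ T : Finset ι, (-2) ^ T.card *
        (if (∀ i ∈ T, ∀ j, l i j ⬝ᵥ x = b i j + 1) then 1 else 0) := by
    intro x
    rw [sg_sum]
    have h2 : ∀ i, sg (∏ j, (l i j ⬝ᵥ x + b i j))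
        = 1 + (-2) * (if ∀ j, l i j ⬝ᵥ x = b i j + 1 then 1 else 0) := by
      intro i
      have h3 : (∏ j, (l i j ⬝ᵥ x + b i j) = 1) ↔ ∀ j, l i j ⬝ᵥ x = b i j + 1 := by
        rw [prod_eq_one_iff]
        have : ∀ p q : ZMod 2, p + q = 1 ↔ p = q + 1 := by decide
        simp [this]
      rcases two_cases (∏ j, (l i j ⬝ᵥ x + b i j)) with h0 | h0
      · have : ¬ ∀ j, l i j ⬝ᵥ x = b i j + 1 := by
          rw [← h3, h0]; exact zero_ne_one
        rw [h0, if_neg this, sg_zero]; norm_num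
      · rw [h0, if_pos (h3.mp h0), sg_one]; norm_num
    simp_rw [h2]
    rw [Finset.prod_one_add, Finset.powerset_univ]
    refine Finset.sum_congr rfl fun T _ => ?_
    rw [Finset.prod_mul_distrib, Finset.prod_const]
    congr 1
    rw [Finset.prod_ite_zero]
    simp
  simp_rw [h1]
  rw [Finset.sum_comm]
  refine Finset.dvd_sum fun T _ => ?_
  rw [← Finset.mul_sum]
  have h4 : ∑ x ∈ univ.filter (fun x : V n => ∀ j, lr j ⬝ᵥ x = br j),
      (if (∀ i ∈ T, ∀ j, l i j ⬝ᵥ x = b i j + 1) then (1:ℤ) else 0)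
      = (((univ.filter (fun x : V n => ∀ j ∈ (univ : Finset (Fin r)).disjSum (T ×ˢ (univ : Finset (Fin d))),
          (Sum.elim lr (fun p => l p.1 p.2) j : V n) ⬝ᵥ x
            = Sum.elim br (fun p => b p.1 p.2 + 1) j)).card : ℕ) : ℤ) := by
    rw [← Finset.sum_filter, Finset.filter_filter, Finset.sum_const, nsmul_eq_mul, mul_one]
    congr 2
    ext x
    simp only [Finset.mem_filter, Finset.mem_univ, true_and, Finset.mem_disjSum, Finset.mem_product,
      and_true, Prod.exists]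
    constructor
    · rintro ⟨h5, h6⟩ j (⟨a, rfl⟩ | ⟨a, c, ha, rfl⟩)
      · exact h5 a
      · exact h6 a ha c
    · intro h
      refine ⟨fun j => h (Sum.inl j) (Or.inl ⟨j, rfl⟩), fun i hi j => ?_⟩
      exact h (Sum.inr (i, j)) (Or.inr ⟨i, j, hi, rfl⟩)
  have h5 := count_dvd' ((univ : Finset (Fin r)).disjSum (T ×ˢ (univ : Finset (Fin d))))
    (Sum.elim lr (fun p => l p.1 p.2)) (Sum.elim br (fun p => b p.1 p.2 + 1))
  rw [Finset.card_disjSum, Finset.card_product] at h5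
  simp only [Finset.card_univ, Fintype.card_fin] at h5
  have h6 : (2:ℤ) ^ k ∣ 2 ^ (T.card + (n - (r + T.card * d))) := pow_dvd_pow _ (hk T.card)
  refine h6.trans ?_
  have h7 : (2:ℤ) ^ (n - (r + T.card * d)) ∣
      ∑ x ∈ univ.filter (fun x : V n => ∀ j, lr j ⬝ᵥ x = br j),
        (if (∀ i ∈ T, ∀ j, l i j ⬝ᵥ x = b i j + 1) then (1:ℤ) else 0) := by
    rw [h4]
    convert h5
  obtain ⟨m, hm⟩ := h7
  rw [hm, pow_add, show (-2:ℤ) = (-1) * 2 by norm_num, mul_pow]
  exact ⟨(-1) ^ T.card * m, by ring⟩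

/-- Functions of degree at most `d`, as sums of products of `d` affine forms. -/
def IsDeg (d n : ℕ) (f : V n → ZMod 2) : Prop :=
  ∃ (ι : Type) (_ : Fintype ι) (l : ι → Fin d → V n) (b : ι → Fin d → ZMod 2),
    ∀ x, f x = ∑ i, ∏ j, (l i j ⬝ᵥ x + b i j)

lemma IsDeg.add {d n : ℕ} {f g : V n → ZMod 2} (hf : IsDeg d n f) (hg : IsDeg d n g) :
    IsDeg d n (fun x => f x + g x) := by
  obtain ⟨ι, _, l, b, h⟩ := hf
  obtain ⟨ι', _, l', b', h'⟩ := hg
  refine ⟨ι ⊕ ι', inferInstance, Sum.elim l l', Sum.elim b b', fun x => ?_⟩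
  rw [Fintype.sum_sum_type]
  simp [h x, h' x]

lemma IsDeg.lin {d n : ℕ} (u : V n) : IsDeg (d + 1) n (fun x => u ⬝ᵥ x) := by
  refine ⟨Unit, inferInstance, fun _ => Fin.cons u (fun _ => 0), fun _ => Fin.cons 0 (fun _ => 1),
    fun x => ?_⟩
  simp [Fin.prod_univ_succ]

lemma IsDeg.flat {d n r k : ℕ} {f : V n → ZMod 2} (hf : IsDeg (d + 1) n f) (u : V n)
    (lr : Fin r → V n) (br : Fin r → ZMod 2)
    (hk : ∀ t, k ≤ t + (n - (r + t * (d + 1)))) :
    (2:ℤ) ^ k ∣ ∑ x ∈ univ.filter (fun x : V n => ∀ j, lr j ⬝ᵥ x = br j),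
      sg (f x + u ⬝ᵥ x) := by
  obtain ⟨ι, _, l, b, h⟩ := hf.add (IsDeg.lin (d := d) u)
  have h1 := div_sum l b lr br hk
  refine h1.trans (dvd_of_eq ?_)
  refine Finset.sum_congr rfl fun x _ => ?_
  rw [← h x]

lemma mono_prod {n : ℕ} : ∀ (d : ℕ) (m : Fin n → ℕ), ∑ i, m i ≤ d →
    ∃ (l : Fin d → V n) (b : Fin d → ZMod 2), ∀ x : V n, ∏ i, x i ^ m i = ∏ j, (l j ⬝ᵥ x + b j) := by
  intro d
  induction d with
  | zero =>
    intro m hm
    refine ⟨fun _ => 0, fun _ => 1, fun x => ?_⟩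
    have : ∀ i, m i = 0 := by
      intro i
      have := Finset.single_le_sum (f := m) (fun _ _ => Nat.zero_le _) (Finset.mem_univ i)
      omega
    simp [this]
  | succ d ih =>
    intro m hm
    by_cases h0 : ∀ i, m i = 0
    · refine ⟨fun _ => 0, fun _ => 1, fun x => ?_⟩
      simp [h0]
    · push Not at h0
      obtain ⟨i, hi⟩ := h0
      have hs : ∑ j, (Function.update m i (m i - 1)) j ≤ d := by
        rw [Finset.sum_update_of_mem (Finset.mem_univ i)]
        have := Finset.add_sum_erase univ m (Finset.mem_univ i)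
        rw [Finset.sdiff_singleton_eq_erase]
        omega
      obtain ⟨l, b, h⟩ := ih _ hs
      refine ⟨Fin.cons (Pi.single i 1) l, Fin.cons 0 b, fun x => ?_⟩
      rw [Fin.prod_univ_succ]
      simp only [Fin.cons_zero, Fin.cons_succ, add_zero]
      rw [← h x, single_one_dotProduct, ← Finset.mul_prod_erase univ _ (Finset.mem_univ i),
        ← Finset.mul_prod_erase univ (fun j => x j ^ (Function.update m i (m i - 1)) j)
          (Finset.mem_univ i)]
      rw [Function.update_self, ← mul_assoc, ← pow_succ']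
      have : m i - 1 + 1 = m i := by omega
      rw [this]
      congr 1
      refine Finset.prod_congr rfl fun j hj => ?_
      rw [Function.update_of_ne (Finset.ne_of_mem_erase hj)]

lemma isDeg_eval {d n : ℕ} (p : MvPolynomial (Fin n) (ZMod 2)) (hp : p.totalDegree ≤ d) :
    IsDeg d n (fun x => MvPolynomial.eval x p) := by
  classical
  have h1 : ∀ m : {m // m ∈ p.support}, ∃ (l : Fin d → V n) (b : Fin d → ZMod 2),
      ∀ x : V n, ∏ i, x i ^ m.1 i = ∏ j, (l j ⬝ᵥ x + b j) := by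
    intro m
    refine mono_prod d _ ?_
    have h2 := MvPolynomial.le_totalDegree m.2
    rw [Finsupp.sum_fintype _ _ (fun _ => rfl)] at h2
    exact h2.trans hp
  choose l b h using h1
  refine ⟨{m // m ∈ p.support}, inferInstance, l, b, fun x => ?_⟩
  change MvPolynomial.eval x p = _
  rw [MvPolynomial.eval_eq', ← Finset.sum_coe_sort]
  refine Finset.sum_congr rfl fun m _ => ?_
  rw [← h m x]
  have h3 : MvPolynomial.coeff m.1 p = 1 := by
    rcases two_cases (MvPolynomial.coeff m.1 p) with h4 | h4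
    · exact absurd h4 (MvPolynomial.mem_support_iff.mp m.2)
    · exact h4
  rw [h3, one_mul]

end Pool.MP_39d092_co.LD
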