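import Pool.Agent.Work.MP_39d092_co.LDComp

set_option autoImplicit false

namespace Pool.MP_39d092_co.LD
open Finset Matrix

/-- sum over the solutions of three linear equations -/
def Q3 {n : ℕ} (f : V n → ZMod 2) (u : V n) (l : Fin 3 → V n) (b : Fin 3 → ZMod 2) : ℤ :=
  ∑ x ∈ univ.filter (fun x => ∀ j, l j ⬝ᵥ x = b j), sg (f x + u ⬝ᵥ x)

/-- the set S -/
def Sset {n : ℕ} (f : V n → ZMod 2) (a : V n) (ε : ZMod 2) : Finset (V n) :=
  univ.filter (fun x => f x + f (x + a) = ε)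

lemma psi_T {n : ℕ} (φ : V n → ℤ) (P : Finset (V n)) (u : V n) :
    T φ u = T (fun x => if x ∈ P then φ x else 0) u + T (fun x => if x ∈ P then 0 else φ x) u := by
  unfold T
  rw [← Finset.sum_add_distrib]
  refine Finset.sum_congr rfl fun x _ => ?_
  dsimp only
  split_ifs <;> ring

lemma sg_ne {a b : ZMod 2} (h : ¬ a = b) : sg a = - sg b := by
  revert a b; decide

lemma ne_add_one {a b : ZMod 2} (h : ¬ a = b) : a = b + 1 := by
  revert a b; decide

/-- on H0 the Walsh transform is supported on S -/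
lemma W_H0 {n : ℕ} (f : V n → ZMod 2) (a : V n) (ε : ZMod 2) (u : V n) (hu : a ⬝ᵥ u = ε) :
    W f u = T (fun x => if x ∈ Sset f a ε then sg (f x) else 0) u := by
  rw [W_eq_T, psi_T _ (Sset f a ε)]
  rw [T_zero (fun x => if x ∈ Sset f a ε then 0 else sg (f x)) a u (ε + 1)]
  · rw [add_zero]
  · intro x
    have h1 : x + a ∈ Sset f a ε ↔ x ∈ Sset f a ε := by
      simp only [Sset, Finset.mem_filter, Finset.mem_univ, true_and, add_assoc, vadd_self, add_zero]
      rw [add_comm]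
    by_cases h : x ∈ Sset f a ε
    · simp only [h1, h, if_true, mul_zero]
    · simp only [h1, h, if_false]
      simp only [Sset, Finset.mem_filter, Finset.mem_univ, true_and] at h
      have h2 := ne_add_one h
      rw [← sg_add, ← h2]
      congr 1
      have := zadd_self (f x)
      linear_combination (-1 : ZMod 2) * this
  · rw [dotProduct_comm, hu, add_assoc, zadd_self, add_zero]

/-- off H0 the S part vanishes -/
lemma S_H1 {n : ℕ} (f : V n → ZMod 2) (a : V n) (ε : ZMod 2) (u : V n) (hu : ¬ a ⬝ᵥ u = ε) :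
    T (fun x => if x ∈ Sset f a ε then sg (f x) else 0) u = 0 := by
  rw [T_zero (fun x => if x ∈ Sset f a ε then sg (f x) else 0) a u ε]
  · intro x
    have h1 : x + a ∈ Sset f a ε ↔ x ∈ Sset f a ε := by
      simp only [Sset, Finset.mem_filter, Finset.mem_univ, true_and, add_assoc, vadd_self, add_zero]
      rw [add_comm]
    by_cases h : x ∈ Sset f a ε
    · simp only [h1, h, if_true]
      simp only [Sset, Finset.mem_filter, Finset.mem_univ, true_and] at h
      rw [← sg_add, ← h]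
      congr 1
      have := zadd_self (f x)
      linear_combination (-1 : ZMod 2) * this
    · simp only [h1, h, if_false, mul_zero]
  · rw [dotProduct_comm]; exact ne_add_one hu

lemma sum_H0 {n : ℕ} (f : V n → ZMod 2) (a : V n) (ε : ZMod 2) :
    ∑ u ∈ univ.filter (fun u => a ⬝ᵥ u = ε), (W f u) ^ 2 = 2 ^ n * ((Sset f a ε).card : ℤ) := by
  have h1 := parseval (fun x => if x ∈ Sset f a ε then sg (f x) else 0)
  have h2 : ∑ x : V n, (if x ∈ Sset f a ε then sg (f x) else 0) ^ 2 = ((Sset f a ε).card : ℤ) := by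
    have : ∀ x : V n, (if x ∈ Sset f a ε then sg (f x) else 0) ^ 2
        = if x ∈ Sset f a ε then (1:ℤ) else 0 := by
      intro x
      split_ifs
      · exact sg_sq _
      · rfl
    simp_rw [this]
    simp
  rw [h2] at h1
  rw [← h1, Finset.sum_filter]
  refine Finset.sum_congr rfl fun u _ => ?_
  by_cases h : a ⬝ᵥ u = ε
  · rw [if_pos h, W_H0 f a ε u h]
  · rw [if_neg h, S_H1 f a ε u h]; rfl

/-- The half-space part. -/
def pP {n : ℕ} (f : V n → ZMod 2) (ν : V n) (κ : ZMod 2) (u : V n) : ℤ :=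
  ∑ x ∈ univ.filter (fun x => ν ⬝ᵥ x = κ), sg (f x + u ⬝ᵥ x)

lemma pP_eq_T {n : ℕ} (f : V n → ZMod 2) (ν : V n) (κ : ZMod 2) (u : V n) :
    pP f ν κ u = T (fun x => if ν ⬝ᵥ x = κ then sg (f x) else 0) u := by
  unfold pP T
  rw [Finset.sum_filter]
  refine Finset.sum_congr rfl fun x _ => ?_
  dsimp only
  split_ifs
  · rw [sg_add]
  · ring

lemma pP_H0 {n : ℕ} (f : V n → ZMod 2) (a : V n) (ε : ZMod 2) (ν : V n) (κ : ZMod 2)
    (hνa : ν ⬝ᵥ a = 0) (hdis : ∀ x ∈ Sset f a ε, ¬ ν ⬝ᵥ x = κ) (u : V n) (hu : a ⬝ᵥ u = ε) :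
    pP f ν κ u = 0 := by
  rw [pP_eq_T]
  refine T_zero _ a u (ε + 1) ?_ ?_
  · intro x
    simp only [dotProduct_add, hνa, add_zero]
    by_cases h : ν ⬝ᵥ x = κ
    · rw [if_pos h, if_pos h]
      have hx : x ∉ Sset f a ε := fun hx => hdis x hx h
      simp only [Sset, Finset.mem_filter, Finset.mem_univ, true_and] at hx
      have h2 := ne_add_one hx
      rw [← sg_add, ← h2]
      congr 1
      have := zadd_self (f x)
      linear_combination (-1 : ZMod 2) * this
    · rw [if_neg h, if_neg h, mul_zero]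
  · rw [dotProduct_comm, hu, add_assoc, zadd_self, add_zero]

/-- the point-wise invariance on H1 -/
lemma inv_H1 {n : ℕ} (f : V n → ZMod 2) (a : V n) (ε : ZMod 2) (ν : V n) (κ : ZMod 2)
    (hνa : ν ⬝ᵥ a = 0) (hdis : ∀ x ∈ Sset f a ε, ¬ ν ⬝ᵥ x = κ) (u : V n) (hu : ¬ a ⬝ᵥ u = ε)
    (x : V n) :
    (if ν ⬝ᵥ (x + a) = κ then sg (f (x + a) + u ⬝ᵥ (x + a)) else 0)
      = (if ν ⬝ᵥ x = κ then sg (f x + u ⬝ᵥ x) else 0) := by
  simp only [dotProduct_add, hνa, add_zero]
  by_cases h : ν ⬝ᵥ x = κ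
  · rw [if_pos h, if_pos h]
    have hx : x ∉ Sset f a ε := fun hx => hdis x hx h
    simp only [Sset, Finset.mem_filter, Finset.mem_univ, true_and] at hx
    have h2 := ne_add_one hx
    have h3 : u ⬝ᵥ a = ε + 1 := by rw [dotProduct_comm]; exact ne_add_one hu
    congr 1
    rw [h3, ← h2]
    have := zadd_self (f (x + a))
    linear_combination this
  · rw [if_neg h, if_neg h]

lemma pP_H1 {n : ℕ} (f : V n → ZMod 2) (a : V n) (ε : ZMod 2) (ν : V n) (κ : ZMod 2)
    (hνa : ν ⬝ᵥ a = 0) (hdis : ∀ x ∈ Sset f a ε, ¬ ν ⬝ᵥ x = κ) (μ : V n) (hμ : μ ⬝ᵥ a = 1)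
    (u : V n) (hu : ¬ a ⬝ᵥ u = ε) :
    pP f ν κ u = 2 * Q3 f u ![ν, μ, μ] ![κ, 0, 0] := by
  unfold pP Q3
  rw [Finset.sum_filter,
    half_sum (fun x => if ν ⬝ᵥ x = κ then sg (f x + u ⬝ᵥ x) else 0) a μ
      (inv_H1 f a ε ν κ hνa hdis u hu) hμ]
  congr 1
  rw [← Finset.sum_filter, Finset.filter_filter]
  refine Finset.sum_congr ?_ fun _ _ => rfl
  ext x
  simp only [Finset.mem_filter, Finset.mem_univ, true_and, Fin.forall_fin_succ]
  simp
  tauto

lemma pP_H1' {n : ℕ} (f : V n → ZMod 2) (a : V n) (ε : ZMod 2) (ν : V n) (κ : ZMod 2)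
    (hνa : ν ⬝ᵥ a = 0) (hdis : ∀ x ∈ Sset f a ε, ¬ ν ⬝ᵥ x = κ) (μ : V n) (hμ : μ ⬝ᵥ a = 1)
    (u : V n) (hu : ¬ a ⬝ᵥ u = ε) (e : V n) (he : e ⬝ᵥ a = 0) :
    pP f ν κ u + pP f ν κ (u + e) = 4 * Q3 f u ![ν, μ, e] ![κ, 0, 0] := by
  have h0 : pP f ν κ u + pP f ν κ (u + e)
      = 2 * ∑ x, (if e ⬝ᵥ x = 0 then (if ν ⬝ᵥ x = κ then sg (f x + u ⬝ᵥ x) else 0) else 0) := by
    unfold pP
    rw [Finset.sum_filter, Finset.sum_filter, ← Finset.sum_add_distrib, Finset.mul_sum]
    refine Finset.sum_congr rfl fun x _ => ?_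
    rw [add_dotProduct, ← add_assoc, sg_add _ (e ⬝ᵥ x)]
    rcases two_cases (e ⬝ᵥ x) with h | h
    · rw [h, if_pos rfl, sg_zero]; split_ifs <;> ring
    · rw [h, if_neg one_ne_zero, sg_one]; split_ifs <;> ring
  rw [h0, half_sum (fun x => if e ⬝ᵥ x = 0 then (if ν ⬝ᵥ x = κ then sg (f x + u ⬝ᵥ x) else 0) else 0)
    a μ _ hμ]
  · rw [← mul_assoc]
    norm_num
    unfold Q3
    rw [← Finset.sum_filter, ← Finset.sum_filter, Finset.filter_filter, Finset.filter_filter]
    refine Finset.sum_congr ?_ fun _ _ => rfl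
    ext x
    simp only [Finset.mem_filter, Finset.mem_univ, true_and, Fin.forall_fin_succ]
    simp
    tauto
  · intro x
    have := inv_H1 f a ε ν κ hνa hdis u hu x
    simp only [dotProduct_add e, he, add_zero] at *
    split_ifs at * <;> simp_all

lemma card_hyper_not {n : ℕ} (ν : V n) (hν : ν ≠ 0) (κ : ZMod 2) :
    2 * (((univ.filter (fun x : V n => ¬ ν ⬝ᵥ x = κ)).card : ℕ) : ℤ) = 2 ^ n := by
  have h1 := card_hyper ν hν κ
  have h2 := Finset.card_filter_add_card_filter_not (s := (univ : Finset (V n)))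
    (fun x : V n => ν ⬝ᵥ x = κ)
  rw [card_V] at h2
  have h3 : (((univ.filter (fun x : V n => ν ⬝ᵥ x = κ)).card : ℕ) : ℤ)
      + (((univ.filter (fun x : V n => ¬ ν ⬝ᵥ x = κ)).card : ℕ) : ℤ) = 2 ^ n := by
    exact_mod_cast h2
  linarith

lemma sum_pP_sq {n : ℕ} (f : V n → ZMod 2) (ν : V n) (hν : ν ≠ 0) (κ : ZMod 2) :
    2 * ∑ u, (pP f ν κ u) ^ 2 = 2 ^ n * 2 ^ n := by
  simp_rw [pP_eq_T]
  rw [parseval]
  have h2 : ∑ x : V n, (if ν ⬝ᵥ x = κ then sg (f x) else 0) ^ 2
      = (((univ.filter (fun x : V n => ν ⬝ᵥ x = κ)).card : ℕ) : ℤ) := by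
    have : ∀ x : V n, (if ν ⬝ᵥ x = κ then sg (f x) else 0) ^ 2
        = if ν ⬝ᵥ x = κ then (1:ℤ) else 0 := by
      intro x
      split_ifs
      · exact sg_sq _
      · rfl
    simp_rw [this]
    simp
  rw [h2]
  have := card_hyper ν hν κ
  linear_combination (2 ^ n : ℤ) * this

lemma W_sub_pP {n : ℕ} (f : V n → ZMod 2) (ν : V n) (κ : ZMod 2) (u : V n) :
    W f u - pP f ν κ u = T (fun x => if ν ⬝ᵥ x = κ then 0 else sg (f x)) u := by
  rw [pP_eq_T, W_eq_T]
  unfold T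
  rw [← Finset.sum_sub_distrib]
  refine Finset.sum_congr rfl fun x _ => ?_
  dsimp only
  split_ifs <;> ring

lemma sum_qP_sq {n : ℕ} (f : V n → ZMod 2) (ν : V n) (hν : ν ≠ 0) (κ : ZMod 2) :
    2 * ∑ u, (W f u - pP f ν κ u) ^ 2 = 2 ^ n * 2 ^ n := by
  simp_rw [W_sub_pP]
  rw [parseval]
  have h2 : ∑ x : V n, (if ν ⬝ᵥ x = κ then 0 else sg (f x)) ^ 2
      = (((univ.filter (fun x : V n => ¬ ν ⬝ᵥ x = κ)).card : ℕ) : ℤ) := by
    have : ∀ x : V n, (if ν ⬝ᵥ x = κ then 0 else sg (f x)) ^ 2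
        = if ¬ ν ⬝ᵥ x = κ then (1:ℤ) else 0 := by
      intro x
      split_ifs
      · rfl
      · exact sg_sq _
    simp_rw [this]
    rw [Finset.card_filter]
    push_cast
    rfl
  rw [h2]
  have := card_hyper_not ν hν κ
  linear_combination (2 ^ n : ℤ) * this

lemma W_shift {n : ℕ} (f : V n → ZMod 2) (ν : V n) (κ : ZMod 2) (u : V n) :
    W f (u + ν) = sg κ * (pP f ν κ u - (W f u - pP f ν κ u)) := by
  rw [W_sub_pP, pP_eq_T, W_eq_T]
  unfold T
  rw [← Finset.sum_sub_distrib, Finset.mul_sum]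
  refine Finset.sum_congr rfl fun x _ => ?_
  dsimp only
  rw [add_dotProduct, sg_add]
  by_cases h : ν ⬝ᵥ x = κ
  · rw [if_pos h, if_pos h, h]; ring
  · rw [if_neg h, if_neg h, sg_ne h]; ring


/-- Numerical key: 16|S| ≥ 3N when some hyperplane half parallel to `a` misses `S`. -/
lemma Good.key {n : ℕ} {K : ℤ} {f : V n → ZMod 2} (h : Good n K f)
    (hQ : ∀ u l b, K ∣ 2 * Q3 f u l b)
    {c : V n → ℤ} (hc : ∀ u, W f u = K * c u)
    {a : V n} {ε : ZMod 2} (ha : a ≠ 0) (hpar : ∀ u, Even (c u) ↔ a ⬝ᵥ u = ε)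
    {ν : V n} {κ : ZMod 2} (hν : ν ≠ 0) (hνa : ν ⬝ᵥ a = 0)
    (hdis : ∀ x ∈ Sset f a ε, ¬ ν ⬝ᵥ x = κ) :
    3 * (2:ℤ) ^ n ≤ 16 * ((Sset f a ε).card : ℤ) := by
  obtain ⟨μ, hμ'⟩ := exists_dot_one ha
  have hμ : μ ⬝ᵥ a = 1 := by rw [dotProduct_comm]; exact hμ'
  have hK := h.Kpos
  have hKne : K ≠ 0 := ne_of_gt hK
  have hKN := h.KN
  -- divisibility of p
  have hpdiv : ∀ u, K ∣ pP f ν κ u := by
    intro u
    by_cases hu : a ⬝ᵥ u = ε
    · rw [pP_H0 f a ε ν κ hνa hdis u hu]; exact dvd_zero _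
    · rw [pP_H1 f a ε ν κ hνa hdis μ hμ u hu]; exact hQ _ _ _
  choose p hp using hpdiv
  set q : V n → ℤ := fun u => c u - p u with hq
  have hWp : ∀ u, W f u - pP f ν κ u = K * q u := by
    intro u; rw [hc u, hp u, hq]; ring
  -- bounds
  have hb : ∀ u, |p u + q u| ≤ 3 ∧ |p u - q u| ≤ 3 := by
    intro u
    constructor
    · have h1 := h.bound u
      have h2 : W f u = K * (p u + q u) := by rw [hc u, hq]; ring
      rw [h2, abs_mul, abs_of_pos hK] at h1
      have : |p u + q u| < 4 := by nlinarith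
      omega
    · have h1 := h.bound (u + ν)
      rw [W_shift f ν κ u, hWp u, hp u, abs_mul, abs_sg, one_mul, ← mul_sub, abs_mul,
        abs_of_pos hK] at h1
      have : |p u - q u| < 4 := by nlinarith
      omega
  set H1 : Finset (V n) := univ.filter (fun u => ¬ a ⬝ᵥ u = ε) with hH1
  -- card of H1
  have hcard : 2 * (H1.card : ℤ) = 2 ^ n := card_hyper_not a ha ε
  -- Σ p² over H1
  have hp0 : ∀ u, a ⬝ᵥ u = ε → p u = 0 := by
    intro u hu
    have h1 := pP_H0 f a ε ν κ hνa hdis u hu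
    rw [hp u] at h1
    rcases mul_eq_zero.mp h1 with h2 | h2
    · exact absurd h2 hKne
    · exact h2
  have hsp : ∑ u ∈ H1, (p u) ^ 2 = 2 * 2 ^ n := by
    have h1 := sum_pP_sq f ν hν κ
    have h2 : ∑ u, (pP f ν κ u) ^ 2 = K ^ 2 * ∑ u ∈ H1, (p u) ^ 2 := by
      rw [Finset.mul_sum, hH1, Finset.sum_filter]
      refine Finset.sum_congr rfl fun u _ => ?_
      by_cases hu : a ⬝ᵥ u = ε
      · rw [if_neg (not_not.mpr hu), hp u, hp0 u hu]; ring
      · rw [if_pos hu, hp u]; ring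
    rw [h2] at h1
    have h3' : 2 * (K ^ 2 * (∑ u ∈ H1, (p u) ^ 2 - 2 * 2 ^ n)) = 2 * 0 := by
      rw [← hKN] at h1 ⊢
      linear_combination h1
    have h3 := mul_left_cancel₀ (by norm_num) h3'
    rcases mul_eq_zero.mp h3 with h4 | h4
    · exact absurd h4 (pow_ne_zero _ hKne)
    · linarith
  -- Σ q² over H1
  have hsq : ∑ u ∈ H1, (q u) ^ 2 = 2 * 2 ^ n - 4 * ((Sset f a ε).card : ℤ) := by
    have h1 := sum_qP_sq f ν hν κ
    have h2 := sum_H0 f a ε
    have h3 : ∑ u, (W f u - pP f ν κ u) ^ 2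
        = ∑ u ∈ univ.filter (fun u => a ⬝ᵥ u = ε), (W f u) ^ 2 + K ^ 2 * ∑ u ∈ H1, (q u) ^ 2 := by
      rw [← Finset.sum_filter_add_sum_filter_not univ (fun u => a ⬝ᵥ u = ε)]
      congr 1
      · refine Finset.sum_congr rfl fun u hu => ?_
        rw [Finset.mem_filter] at hu
        rw [hp u, hp0 u hu.2]; ring
      · rw [Finset.mul_sum]
        refine Finset.sum_congr rfl fun u _ => ?_
        rw [hWp u]; ring
    rw [h3, h2] at h1
    have h4 : 2 * (K ^ 2 * (∑ u ∈ H1, (q u) ^ 2 - (2 * 2 ^ n - 4 * ((Sset f a ε).card : ℤ)))) = 2 * 0 := by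
      rw [← hKN] at h1 ⊢
      linear_combination h1
    have h5 := mul_left_cancel₀ (by norm_num) h4
    rcases mul_eq_zero.mp h5 with h4 | h4
    · exact absurd h4 (pow_ne_zero _ hKne)
    · linarith
  -- constancy of the parity of p on H1
  have hpp : ∀ u ∈ H1, ∀ u' ∈ H1, (Even (p u) ↔ Even (p u')) := by
    intro u hu u' hu'
    rw [hH1, Finset.mem_filter] at hu hu'
    have he : (u + u') ⬝ᵥ a = 0 := by
      rw [add_dotProduct, dotProduct_comm u a, dotProduct_comm u' a, ne_add_one hu.2,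
        ne_add_one hu'.2]
      exact zadd_self _
    have h1 := pP_H1' f a ε ν κ hνa hdis μ hμ u hu.2 (u + u') he
    have h2 : u + (u + u') = u' := by rw [← add_assoc, vadd_self, zero_add]
    rw [h2, hp u, hp u'] at h1
    obtain ⟨m, hm⟩ := hQ u ![ν, μ, u + u'] ![κ, 0, 0]
    have h3 : K * (p u + p u' - 2 * m) = 0 := by linear_combination h1 + 2 * hm
    rcases mul_eq_zero.mp h3 with h4 | h4
    · exact absurd h4 hKne
    · have h5 : p u + p u' = 2 * m := by linarith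
      have h6 : Even (p u + p u') := by rw [h5]; exact even_two_mul m
      rwa [Int.even_add] at h6
  have hcodd : ∀ u ∈ H1, ¬ Even (c u) := by
    intro u hu h'
    rw [hH1, Finset.mem_filter] at hu
    exact hu.2 ((hpar u).mp h')
  -- pick an element of H1
  have hNpos : (0:ℤ) < 2 ^ n := by positivity
  have hne : H1.Nonempty := by
    rw [← Finset.card_pos]
    by_contra hh
    have : H1.card = 0 := by omega
    rw [this] at hcard
    norm_num at hcard
    linarith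
  obtain ⟨u0, hu0⟩ := hne
  by_cases hev : Even (p u0)
  · -- even case
    have hpe : ∀ u ∈ H1, Even (p u) := fun u hu => (hpp u hu u0 hu0).mpr hev
    have hcase : ∀ u ∈ H1, 0 ≤ 4 - (p u) ^ 2 := by
      intro u hu
      obtain ⟨h1, h2⟩ := hb u
      have h3 : |p u| ≤ 3 := by
        rw [abs_le] at *
        constructor <;> linarith [h1.1, h1.2, h2.1, h2.2]
      have h4 := hpe u hu
      rw [abs_le] at h3
      obtain ⟨h5, h6⟩ := h3
      generalize p u = z at *
      interval_cases z <;> first | (norm_num; done) | (exfalso; revert h4; decide)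
    have hz : ∑ u ∈ H1, (4 - (p u) ^ 2) = 0 := by
      rw [Finset.sum_sub_distrib, hsp, Finset.sum_const, nsmul_eq_mul]
      linarith
    have hz' := (Finset.sum_eq_zero_iff_of_nonneg hcase).mp hz
    have hq1 : ∀ u ∈ H1, (q u) ^ 2 = 1 := by
      intro u hu
      obtain ⟨h1, h2⟩ := hb u
      have h3 := hz' u hu
      have h4 := hcodd u hu
      have h5 := hpe u hu
      have h6 : c u = p u + q u := by rw [hq]; ring
      rw [h6] at h4
      have h7 : ¬ Even (q u) := fun h' => h4 (h5.add h')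
      rw [abs_le] at h1 h2
      have h8 : -3 ≤ p u ∧ p u ≤ 3 := by constructor <;> linarith [h1.1, h1.2, h2.1, h2.2]
      have h9 : -3 ≤ q u ∧ q u ≤ 3 := by constructor <;> linarith [h1.1, h1.2, h2.1, h2.2]
      clear_value q
      generalize p u = z at *
      generalize q u = y at *
      obtain ⟨h10, h11⟩ := h8
      obtain ⟨h12, h13⟩ := h9
      interval_cases z <;> first
        | (exfalso; omega)
        | (interval_cases y <;> first | rfl | (exfalso; omega) | (exfalso; apply h7; decide))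
    rw [Finset.sum_congr rfl hq1] at hsq
    simp at hsq
    linarith
  · -- odd case
    have hpo : ∀ u ∈ H1, ¬ Even (p u) := fun u hu h' => hev ((hpp u hu u0 hu0).mp h')
    have hq1 : ∀ u ∈ H1, 2 * (q u) ^ 2 ≤ 9 - (p u) ^ 2 := by
      intro u hu
      obtain ⟨h1, h2⟩ := hb u
      have h4 := hcodd u hu
      have h5 := hpo u hu
      have h6 : c u = p u + q u := by rw [hq]; ring
      rw [h6, Int.even_add] at h4
      have h7 : Even (q u) := by
        by_contra h'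
        exact h4 ⟨fun hh => absurd hh h5, fun hh => absurd hh h'⟩
      rw [abs_le] at h1 h2
      have h8 : -3 ≤ p u ∧ p u ≤ 3 := by constructor <;> linarith [h1.1, h1.2, h2.1, h2.2]
      have h9 : -3 ≤ q u ∧ q u ≤ 3 := by constructor <;> linarith [h1.1, h1.2, h2.1, h2.2]
      clear_value q
      generalize p u = z at *
      generalize q u = y at *
      obtain ⟨h10, h11⟩ := h8
      obtain ⟨h12, h13⟩ := h9
      interval_cases z <;> first
        | (exfalso; apply h5; decide)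
        | (interval_cases y <;> first | (norm_num; done) | (exfalso; omega))
    have hs := Finset.sum_le_sum hq1
    rw [← Finset.mul_sum, hsq, Finset.sum_sub_distrib, hsp, Finset.sum_const, nsmul_eq_mul] at hs
    linarith

end Pool.MP_39d092_co.LD
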